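import Pool.Agent.Q151.EW.Base

/-! Asymptotic facts (project EW of helper80, jobs C3 and C4). -/

set_option autoImplicit false

open Filter Topology MeasureTheory Set
open Pool.Agent.Q80.EW

namespace Pool.Agent.Q151.EW

lemma La_lim : Tendsto La atTop atTop := by
  unfold La
  exact Real.tendsto_log_atTop.comp Real.tendsto_log_atTop

lemma sqLa_lim : Tendsto (fun T => √(La T)) atTop atTop :=
  Real.tendsto_sqrt_atTop.comp La_lim

lemma La_ev {p : ℝ → Prop} (h : ∀ᶠ x in atTop, p x) : ∀ᶠ T in atTop, p (La T) := La_lim.eventually h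

lemma sq_ev {p : ℝ → Prop} (h : ∀ᶠ x in atTop, p x) : ∀ᶠ T in atTop, p √(La T) :=
  sqLa_lim.eventually h

lemma La_exp {T : ℝ} (h : 0 < La T) (hT : 1 < T) : Real.exp (La T) = Real.log T := by
  unfold La
  exact Real.exp_log (Real.log_pos hT)

lemma Yt_le {T : ℝ} (h : 1 ≤ La T) : Yt T ≤ La T := by
  unfold Yt
  have := Real.log_nonneg h
  linarith

lemma Yt_ge : ∀ᶠ T in atTop, La T / 2 ≤ Yt T := by
  have h1 : ∀ᶠ x : ℝ in atTop, Real.log x ≤ 1 / 4 * x := by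
    have := Real.isLittleO_log_id_atTop.bound (show (0 : ℝ) < 1 / 4 by norm_num)
    filter_upwards [this, eventually_ge_atTop (1 : ℝ)] with x hx hx1
    rw [Real.norm_eq_abs, Real.norm_eq_abs, abs_of_nonneg (Real.log_nonneg hx1)] at hx
    simp only [id] at hx
    rwa [abs_of_nonneg (by linarith)] at hx
  filter_upwards [La_ev h1] with T hT
  unfold Yt
  linarith

lemma Yt_lim : Tendsto Yt atTop atTop := by
  refine tendsto_atTop_mono' atTop Yt_ge ?_
  exact La_lim.atTop_div_const (by norm_num)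

lemma UU_pos (y T : ℝ) : 0 < UU y T := Real.exp_pos _

lemma UU_ge_one {y : ℝ} (hy : 0 ≤ y) (T : ℝ) : 1 ≤ UU y T :=
  Real.one_le_exp (mul_nonneg hy (Real.sqrt_nonneg _))

lemma UU_le_log (y : ℝ) : ∀ᶠ T in atTop, UU y T ≤ Real.log T := by
  filter_upwards [sq_ev (eventually_ge_atTop y), sq_ev (eventually_gt_atTop 0),
    eventually_gt_atTop 1] with T h1 h2 h3
  have h4 : 0 < La T := Real.sqrt_pos.1 h2
  rw [← La_exp h4 h3]
  unfold UU
  apply Real.exp_le_exp.2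
  calc y * √(La T) ≤ √(La T) * √(La T) := by gcongr
    _ = La T := Real.mul_self_sqrt h4.le

lemma log_le_mul {δ : ℝ} (hδ : 0 < δ) : ∀ᶠ T : ℝ in atTop, Real.log T ≤ δ * T := by
  have := Real.isLittleO_log_id_atTop.bound hδ
  filter_upwards [this, eventually_ge_atTop (1 : ℝ)] with x hx hx1
  rw [Real.norm_eq_abs, Real.norm_eq_abs, abs_of_nonneg (Real.log_nonneg hx1)] at hx
  simp only [id] at hx
  rwa [abs_of_nonneg (by linarith)] at hx

lemma pow_small {η δ : ℝ} (hη : 0 < η) (hδ : 0 < δ) :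
    ∀ᶠ T : ℝ in atTop, T ^ (1 - 2 * η) ≤ δ * T := by
  have h1 : Tendsto (fun T : ℝ => T ^ (-(2 * η))) atTop (𝓝 0) :=
    tendsto_rpow_neg_atTop (by positivity)
  filter_upwards [h1.eventually_le_const hδ, eventually_gt_atTop 0] with T h2 h3
  rw [show (1 : ℝ) - 2 * η = -(2 * η) + 1 by ring, Real.rpow_add h3, Real.rpow_one]
  gcongr

lemma U_small (y : ℝ) {η δ : ℝ} (hη : 0 < η) (hδ : 0 < δ) :
    ∀ᶠ T : ℝ in atTop, UU y T + T ^ (1 - 2 * η) ≤ δ * T := by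
  filter_upwards [UU_le_log y, log_le_mul (half_pos hδ), pow_small hη (half_pos hδ)]
    with T h1 h2 h3
  linarith

/-- the levels -/
lemma lev_facts {ε : ℝ} (hε : 0 < ε) {m : ℕ} (hm : 1 ≤ m) : ∀ᶠ T in atTop,
    1 ≤ qq ε T m ∧ Yt T / ((m : ℝ) * qq ε T m) ≤ ε / 4 * √(La T) ∧
    1 ≤ Yt T / ((m : ℝ) * qq ε T m) ∧ (m : ℝ) * qq ε T m ≤ La T := by
  have hm' : (1 : ℝ) ≤ m := by exact_mod_cast hm
  filter_upwards [Yt_lim.eventually_ge_atTop (2 * (m : ℝ)), Yt_ge,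
    sq_ev (eventually_ge_atTop (8 / ε)), La_ev (eventually_ge_atTop 1),
    sq_ev (eventually_gt_atTop 0)] with T h1 h2 h3 h4 h5
  have hY : 0 < Yt T := by linarith
  have hYL := Yt_le h4
  obtain ⟨s, hs⟩ : ∃ s, s = ε / 4 * √(La T) := ⟨_, rfl⟩
  have hs2 : 2 ≤ s := by
    rw [hs]
    rw [div_le_iff₀ hε] at h3
    linarith
  have hms : 0 < (m : ℝ) * s := by positivity
  have hx : 0 < Yt T / (m * s) := by positivity
  have q0 : qq ε T m = ⌈Yt T / (m * s)⌉₊ := by rw [hs]; rfl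
  have q1 : 1 ≤ qq ε T m := by
    rw [q0]
    exact Nat.one_le_ceil_iff.2 hx
  have q1' : (1 : ℝ) ≤ qq ε T m := by exact_mod_cast q1
  have q2 : Yt T / (m * s) ≤ qq ε T m := by
    rw [q0]
    exact Nat.le_ceil _
  have q3 : (qq ε T m : ℝ) < Yt T / (m * s) + 1 := by
    rw [q0]
    exact Nat.ceil_lt_add_one hx.le
  have hmq : 0 < (m : ℝ) * qq ε T m := by positivity
  have q4 : (m : ℝ) * qq ε T m ≤ Yt T := by
    have h6 : (m : ℝ) * qq ε T m ≤ m * (Yt T / (m * s) + 1) := by gcongr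
    have h7 : (m : ℝ) * (Yt T / (m * s) + 1) = Yt T / s + m := by
      field_simp
    have h8 : Yt T / s ≤ Yt T / 2 := by gcongr
    linarith
  refine ⟨q1, ?_, ?_, q4.trans hYL⟩
  · rw [div_le_iff₀ hmq, ← hs]
    rw [div_le_iff₀ hms] at q2
    calc Yt T ≤ qq ε T m * (m * s) := q2
      _ = _ := by ring
  · rw [le_div_iff₀ hmq, one_mul]
    exact q4

/-! ### the polynomial -/

section poly

variable {η y ε T : ℝ} {m : ℕ} {X : ℕ}

lemma Dp_cont (h : FS X (dd η T)) : Continuous (Dp η T) := by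
  have := dp_cont h
  exact this

lemma sq_LB (h : FS X (dd η T)) : LB fun t => ‖Dp η T t‖ ^ 2 :=
  ⟨((Dp_cont h).norm.pow 2).measurable, fun t => by positivity, _, (Dp_cont h).norm.pow 2,
    fun t => le_rfl⟩

lemma LB.indicator {f : ℝ → ℝ} (h : LB f) {S : Set ℝ} (hS : MeasurableSet S) :
    LB (S.indicator f) := by
  obtain ⟨G, hG, hb⟩ := h.bd
  exact ⟨h.meas.indicator hS, fun t => indicator_nonneg (fun t _ => h.nn t) t, G, hG,
    fun t => (indicator_le_self' (fun t _ => h.nn t) t).trans (hb t)⟩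

lemma LB.const_mul {f : ℝ → ℝ} (h : LB f) {c : ℝ} (hc : 0 ≤ c) : LB fun t => c * f t := by
  obtain ⟨G, hG, hb⟩ := h.bd
  exact ⟨h.meas.const_mul c, fun t => mul_nonneg hc (h.nn t), fun t => c * G t,
    continuous_const.mul hG, fun t => mul_le_mul_of_nonneg_left (hb t) hc⟩

lemma ff_eq (t : ℝ) : ff η y ε T m t
    = 2 / Real.log T * (GD y ε T m).indicator (fun t => ‖Dp η T t‖ ^ 2) t := by
  unfold ff
  by_cases h : t ∈ GD y ε T m
  · rw [indicator_of_mem h, indicator_of_mem h]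
  · rw [indicator_of_notMem h, indicator_of_notMem h, mul_zero]

lemma ff_LB (h : FS X (dd η T)) (hT : 1 < T) : LB (ff η y ε T m) := by
  have h1 := ((sq_LB h).indicator (GD_closed y ε T m).measurableSet).const_mul
    (div_nonneg zero_le_two (Real.log_nonneg hT.le))
  have e : ff η y ε T m = fun t => 2 / Real.log T *
      (GD y ε T m).indicator (fun t => ‖Dp η T t‖ ^ 2) t := by
    funext t
    exact ff_eq t
  rw [e]
  exact h1

lemma ff_le (hT : 1 < T) (t : ℝ) : ff η y ε T m t ≤ 2 / Real.log T * ‖Dp η T t‖ ^ 2 := by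
  rw [ff_eq]
  have := Real.log_pos hT
  gcongr
  exact indicator_le_self' (fun _ _ => by positivity) t

end poly

/-- the mean value on any interval -/
lemma mv_one (hFF : J_FF) {η : ℝ} (hη : 0 < η) (hη1 : η ≤ 1 / 100) : ∀ᶠ T : ℝ in atTop,
    ∀ a b : ℝ, a ≤ b → ∫ t in a..b, ‖Dp η T t‖ ^ 2 ≤ (b - a + T ^ (1 - 2 * η)) * nm (dd η T) := by
  filter_upwards [hFF η hη hη1] with T h a b hab
  obtain ⟨h1, h2⟩ := h
  have h3 := (h2 1 0 0 0 0 le_rfl (by norm_num) (Wt_zero _) (Wt_zero _)).2.2.2 a b hab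
  rw [FF_one] at h3
  have h4 := (abs_le.1 h3).2
  have e : ∫ t in a..b, ‖Dp η T t‖ ^ 2 = ∫ t in a..b, ‖dp (dd η T) t‖ ^ 2 := rfl
  rw [e]
  linarith

lemma dp_two {η T : ℝ} {X : ℕ} (h : FS X (dd η T)) (x t : ℝ) :
    dp (FF η T 1 1 x 0 0) t = Dp η T t * Dp η T (t + x) := by
  rw [FF_two, dp_mul h (FS_sh x h), dp_sh h]
  rfl

lemma mv_two (hFF : J_FF) {η : ℝ} (hη : 0 < η) (hη1 : η ≤ 1 / 100) : ∀ᶠ T : ℝ in atTop,
    ∀ x a b : ℝ, a ≤ b → ∫ t in a..b, ‖Dp η T t‖ ^ 2 * ‖Dp η T (t + x)‖ ^ 2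
      ≤ (b - a + T ^ (1 - 2 * η)) * nm (dd η T * sh x (dd η T)) := by
  filter_upwards [hFF η hη hη1] with T h x a b hab
  obtain ⟨h1, h2⟩ := h
  have h3 := (h2 1 1 x 0 0 le_rfl le_rfl (Wt_zero _) (Wt_zero _)).2.2.2 a b hab
  simp_rw [dp_two h1, norm_mul, mul_pow] at h3
  rw [FF_two] at h3
  have h4 := (abs_le.1 h3).2
  linarith

end Pool.Agent.Q151.EW
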