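import Mathlib

/-! Windows means: Fubini lemmas (project EW of helper80, jobs C3 and C4). -/

set_option autoImplicit false

open Filter Topology MeasureTheory Set

namespace Pool.Agent.Q151.EW

/-- measurable, nonnegative, below a continuous function -/
structure LB (f : ℝ → ℝ) : Prop where
  meas : Measurable f
  nn : ∀ t, 0 ≤ f t
  bd : ∃ G : ℝ → ℝ, Continuous G ∧ ∀ t, f t ≤ G t

lemma LB.ii {f : ℝ → ℝ} (h : LB f) (a b : ℝ) : IntervalIntegrable f volume a b := by
  obtain ⟨G, hG, hb⟩ := h.bd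
  refine (hG.intervalIntegrable a b).mono_fun h.meas.aestronglyMeasurable
    (Eventually.of_forall fun t => ?_)
  change ‖f t‖ ≤ ‖G t‖
  rw [Real.norm_eq_abs, Real.norm_eq_abs, abs_of_nonneg (h.nn t),
    abs_of_nonneg ((h.nn t).trans (hb t))]
  exact hb t

lemma LB.shift {f : ℝ → ℝ} (h : LB f) (c : ℝ) : LB fun t => f (t + c) := by
  obtain ⟨G, hG, hb⟩ := h.bd
  exact ⟨h.meas.comp (measurable_id.add_const c), fun t => h.nn _,
    fun t => G (t + c), by fun_prop, fun t => hb _⟩

lemma LB.mul {f g : ℝ → ℝ} (h : LB f) (h' : LB g) : LB fun t => f t * g t := by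
  obtain ⟨G, hG, hb⟩ := h.bd
  obtain ⟨G', hG', hb'⟩ := h'.bd
  exact ⟨h.meas.mul h'.meas, fun t => mul_nonneg (h.nn t) (h'.nn t), fun t => G t * G' t,
    hG.mul hG', fun t => mul_le_mul (hb t) (hb' t) (h'.nn t) ((h.nn t).trans (hb t))⟩

lemma LB.mono_int {f : ℝ → ℝ} (h : LB f) {a b c d : ℝ} (hca : c ≤ a) (hab : a ≤ b) (hbd : b ≤ d) :
    ∫ t in a..b, f t ≤ ∫ t in c..d, f t :=
  intervalIntegral.integral_mono_interval hca hab hbd (Eventually.of_forall h.nn) (h.ii c d)

lemma LB.int_nonneg {f : ℝ → ℝ} (h : LB f) {a b : ℝ} (hab : a ≤ b) : 0 ≤ ∫ t in a..b, f t :=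
  intervalIntegral.integral_nonneg hab fun t _ => h.nn t

/-- integrability on rectangles -/
lemma int_rect {F : ℝ → ℝ → ℝ} (hm : Measurable (Function.uncurry F)) {G : ℝ × ℝ → ℝ}
    (hG : Continuous G) (h0 : ∀ x y, 0 ≤ F x y) (hb : ∀ x y, F x y ≤ G (x, y)) (a b c d : ℝ) :
    IntegrableOn (Function.uncurry F) (uIoc a b ×ˢ uIoc c d) := by
  have h1 : IntegrableOn G (uIcc a b ×ˢ uIcc c d) :=
    hG.continuousOn.integrableOn_compact (isCompact_uIcc.prod isCompact_uIcc)
  have h2 : IntegrableOn G (uIoc a b ×ˢ uIoc c d) :=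
    h1.mono_set (prod_mono uIoc_subset_uIcc uIoc_subset_uIcc)
  refine Integrable.mono h2 hm.aestronglyMeasurable (Eventually.of_forall fun z => ?_)
  rw [Real.norm_eq_abs, Real.norm_eq_abs]
  have h3 := h0 z.1 z.2
  have h4 := hb z.1 z.2
  have h5 : Function.uncurry F z = F z.1 z.2 := rfl
  have h6 : G z = G (z.1, z.2) := rfl
  rw [h5, h6, abs_of_nonneg h3, abs_of_nonneg (h3.trans h4)]
  exact h4

lemma swap_rect {F : ℝ → ℝ → ℝ} (hm : Measurable (Function.uncurry F)) {G : ℝ × ℝ → ℝ}
    (hG : Continuous G) (h0 : ∀ x y, 0 ≤ F x y) (hb : ∀ x y, F x y ≤ G (x, y)) (a b c d : ℝ) :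
    ∫ x in a..b, ∫ y in c..d, F x y = ∫ y in c..d, ∫ x in a..b, F x y :=
  intervalIntegral_intervalIntegral_swap (int_rect hm hG h0 hb a b c d)

/-- integrals depending on a parameter -/
lemma LB.param {F : ℝ → ℝ → ℝ} (hm : Measurable (Function.uncurry F)) {G : ℝ × ℝ → ℝ}
    (hG : Continuous G) (h0 : ∀ x y, 0 ≤ F x y) (hb : ∀ x y, F x y ≤ G (x, y)) {c d : ℝ}
    (hcd : c ≤ d) : LB fun x => ∫ y in c..d, F x y := by
  refine ⟨?_, fun x => intervalIntegral.integral_nonneg hcd fun y _ => h0 x y,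
    fun x => ∫ y in c..d, G (x, y), ?_, fun x => ?_⟩
  · simp_rw [intervalIntegral.integral_of_le hcd]
    exact (StronglyMeasurable.integral_prod_right' hm.stronglyMeasurable).measurable
  · exact intervalIntegral.continuous_parametric_intervalIntegral_of_continuous'
      (f := fun x y => G (x, y)) hG c d
  · have c1 : Continuous fun y => G (x, y) := hG.comp (by fun_prop)
    refine intervalIntegral.integral_mono_on hcd ?_ (c1.intervalIntegrable c d) fun y _ => hb x y
    have h1 : LB fun y => F x y :=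
      ⟨hm.comp measurable_prodMk_left, h0 x, _, c1, hb x⟩
    exact h1.ii c d

/-- the integral of the window means from below -/
lemma win_lower {f : ℝ → ℝ} (h : LB f) {T U : ℝ} (hU : 0 < U) (hUT : U ≤ 2 * T) :
    ∫ t in (T + U)..(3 * T), f t ≤ ∫ t in T..(3 * T), 1 / U * ∫ s in (0 : ℝ)..U, f (t + s) := by
  obtain ⟨G, hG, hb⟩ := h.bd
  have hT : 0 < T := by linarith
  rw [intervalIntegral.integral_const_mul, swap_rect (F := fun t s => f (t + s))
    (G := fun z => G (z.1 + z.2))
    (h.meas.comp (measurable_fst.add measurable_snd)) (hG.comp (by fun_prop))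
    (fun x y => h.nn _) (fun x y => hb _)]
  have h1 : ∀ s ∈ Icc 0 U, ∫ t in (T + U)..(3 * T), f t ≤ ∫ t in T..(3 * T), f (t + s) := by
    intro s hs
    rw [intervalIntegral.integral_comp_add_right]
    exact h.mono_int (by linarith [hs.2]) (by linarith) (by linarith [hs.1])
  have h2 : LB fun s => ∫ t in T..(3 * T), f (t + s) := by
    refine LB.param (F := fun s t => f (t + s)) (G := fun z => G (z.2 + z.1))
      (h.meas.comp (measurable_snd.add measurable_fst)) (hG.comp (by fun_prop))
      (fun x y => h.nn _) (fun x y => hb _) (by linarith)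
  have h3 : ∫ s in (0 : ℝ)..U, (∫ t in (T + U)..(3 * T), f t)
      ≤ ∫ s in (0 : ℝ)..U, ∫ t in T..(3 * T), f (t + s) :=
    intervalIntegral.integral_mono_on hU.le (by simp) (h2.ii 0 U) h1
  rw [intervalIntegral.integral_const, sub_zero, smul_eq_mul] at h3
  calc ∫ t in (T + U)..(3 * T), f t = 1 / U * (U * ∫ t in (T + U)..(3 * T), f t) := by
        field_simp
    _ ≤ _ := by gcongr

/-- the correlation -/
noncomputable def JJ (f : ℝ → ℝ) (T U x : ℝ) : ℝ := ∫ s in T..(3 * T + U), f s * f (s + x)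

lemma JJ_LB {f : ℝ → ℝ} (h : LB f) {T U : ℝ} (hU : 0 ≤ U) (hT : 0 ≤ T) : LB (JJ f T U) := by
  obtain ⟨G, hG, hb⟩ := h.bd
  refine LB.param (F := fun x s => f s * f (s + x)) (G := fun z => G z.2 * G (z.2 + z.1)) ?_
    (by fun_prop) (fun x y => mul_nonneg (h.nn _) (h.nn _)) (fun x y => ?_) (by linarith)
  · exact (h.meas.comp measurable_snd).mul (h.meas.comp (measurable_snd.add measurable_fst))
  · exact mul_le_mul (hb _) (hb _) (h.nn _) ((h.nn _).trans (hb _))

/-- the second moment of the window means from above -/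
lemma win_upper {f : ℝ → ℝ} (h : LB f) {T U : ℝ} (hU : 0 < U) (hT : 0 ≤ T) :
    ∫ t in T..(3 * T), (1 / U * ∫ s in (0 : ℝ)..U, f (t + s)) ^ 2
      ≤ 2 / U ^ 2 * ∫ x in (0 : ℝ)..U, ∫ y in (0 : ℝ)..x, JJ f T U y := by
  obtain ⟨G, hG, hb⟩ := h.bd
  have hJ := JJ_LB h hU.le hT
  -- the square as a double integral
  have e1 : ∀ t, (1 / U * ∫ s in (0 : ℝ)..U, f (t + s)) ^ 2
      = 1 / U ^ 2 * ∫ a in (0 : ℝ)..U, ∫ b in (0 : ℝ)..U, f (t + a) * f (t + b) := by
    intro t
    simp_rw [intervalIntegral.integral_const_mul, intervalIntegral.integral_mul_const]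
    ring
  simp_rw [e1]
  rw [intervalIntegral.integral_const_mul]
  -- the inner function of `t` and `a`
  have m1 : ∀ a : ℝ, Measurable (Function.uncurry fun t b : ℝ => f (t + a) * f (t + b)) := fun a =>
    (h.meas.comp (measurable_fst.add_const a)).mul (h.meas.comp (measurable_fst.add measurable_snd))
  have g1 : ∀ a : ℝ, Continuous fun z : ℝ × ℝ => G (z.1 + a) * G (z.1 + z.2) := fun a => by
    fun_prop
  have b1 : ∀ x y z : ℝ, f (x + y) * f (x + z) ≤ G (x + y) * G (x + z) := fun x y z =>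
    mul_le_mul (hb _) (hb _) (h.nn _) ((h.nn _).trans (hb _))
  have n1 : ∀ x y z : ℝ, 0 ≤ f (x + y) * f (x + z) := fun x y z => mul_nonneg (h.nn _) (h.nn _)
  have s1 : ∫ t in T..(3 * T), ∫ a in (0 : ℝ)..U, ∫ b in (0 : ℝ)..U, f (t + a) * f (t + b)
      = ∫ a in (0 : ℝ)..U, ∫ t in T..(3 * T), ∫ b in (0 : ℝ)..U, f (t + a) * f (t + b) := by
    have m2 : Measurable (Function.uncurry fun t a : ℝ => ∫ b in (0 : ℝ)..U, f (t + a) * f (t + b)) := by
      have e2 : (Function.uncurry fun t a : ℝ => ∫ b in (0 : ℝ)..U, f (t + a) * f (t + b))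
          = fun z : ℝ × ℝ => f (z.1 + z.2) * ∫ b in (0 : ℝ)..U, f (z.1 + b) := by
        funext z
        simp only [Function.uncurry, intervalIntegral.integral_const_mul]
      rw [e2]
      have h3 : LB fun t => ∫ b in (0 : ℝ)..U, f (t + b) :=
        LB.param (F := fun t b => f (t + b)) (G := fun z => G (z.1 + z.2))
          (h.meas.comp (measurable_fst.add measurable_snd)) (hG.comp (by fun_prop))
          (fun x y => h.nn _) (fun x y => hb _) hU.le
      exact (h.meas.comp (measurable_fst.add measurable_snd)).mul (h3.meas.comp measurable_fst)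
    refine swap_rect (G := fun z => G (z.1 + z.2) * ∫ b in (0 : ℝ)..U, G (z.1 + b)) m2 ?_
      (fun x y => intervalIntegral.integral_nonneg hU.le fun b _ => n1 x y b) (fun x y => ?_) _ _ _ _
    · have c2 : Continuous fun t => ∫ b in (0 : ℝ)..U, G (t + b) :=
        intervalIntegral.continuous_parametric_intervalIntegral_of_continuous'
          (f := fun t b => G (t + b)) (by fun_prop) 0 U
      exact (hG.comp (by fun_prop)).mul (c2.comp continuous_fst)
    · simp only
      rw [← intervalIntegral.integral_const_mul]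
      refine intervalIntegral.integral_mono_on hU.le ?_ ?_ fun b _ => b1 x y b
      · have h4 : LB fun b => f (x + b) := by
          have := h.shift x
          simpa [add_comm] using this
        exact (h4.ii 0 U).const_mul _
      · have : Continuous fun b => G (x + y) * G (x + b) := by fun_prop
        exact this.intervalIntegrable _ _
  rw [s1]
  have s2 : ∀ a : ℝ, ∫ t in T..(3 * T), ∫ b in (0 : ℝ)..U, f (t + a) * f (t + b)
      = ∫ b in (0 : ℝ)..U, ∫ t in T..(3 * T), f (t + a) * f (t + b) := fun a =>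
    swap_rect (F := fun t b => f (t + a) * f (t + b))
      (G := fun z => G (z.1 + a) * G (z.1 + z.2)) (m1 a) (g1 a) (fun x y => n1 x a y)
      (fun x y => b1 x a y) _ _ _ _
  -- bound for two points
  have p1 : ∀ a ∈ Icc 0 U, ∀ b ∈ Icc 0 U, a ≤ b →
      ∫ t in T..(3 * T), f (t + a) * f (t + b) ≤ JJ f T U (b - a) := by
    intro a ha b hb' hab
    have e3 : ∀ t, f (t + a) * f (t + b) = (fun s => f s * f (s + (b - a))) (t + a) := by
      intro t
      simp only
      rw [show t + a + (b - a) = t + b by ring]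
    simp_rw [e3]
    rw [intervalIntegral.integral_comp_add_right (fun s => f s * f (s + (b - a)))]
    exact (h.mul (h.shift (b - a))).mono_int (by linarith [ha.1]) (by linarith)
      (by linarith [ha.2])
  have p2 : ∀ a ∈ Icc 0 U, ∫ b in (0 : ℝ)..U, ∫ t in T..(3 * T), f (t + a) * f (t + b)
      ≤ (∫ y in (0 : ℝ)..a, JJ f T U y) + ∫ y in (0 : ℝ)..(U - a), JJ f T U y := by
    intro a ha
    have h5 : LB fun b => ∫ t in T..(3 * T), f (t + a) * f (t + b) := by
      refine LB.param (F := fun b t => f (t + a) * f (t + b))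
        (G := fun z => G (z.2 + a) * G (z.2 + z.1)) ?_ (by fun_prop) (fun x y => n1 y a x)
        (fun x y => b1 y a x) (by linarith)
      exact (h.meas.comp (measurable_snd.add_const a)).mul
        (h.meas.comp (measurable_snd.add measurable_fst))
    rw [← intervalIntegral.integral_add_adjacent_intervals (h5.ii 0 a) (h5.ii a U)]
    apply add_le_add
    · have e4 : ∫ y in (0 : ℝ)..a, JJ f T U y = ∫ b in (0 : ℝ)..a, JJ f T U (a - b) := by
        rw [intervalIntegral.integral_comp_sub_left (fun y => JJ f T U y)]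
        simp
      rw [e4]
      refine intervalIntegral.integral_mono_on ha.1 (h5.ii 0 a) ?_ fun b hb' => ?_
      · have h6 := (hJ.ii a 0).comp_sub_left a
        simpa using h6
      · have := p1 b ⟨hb'.1, hb'.2.trans ha.2⟩ a ha hb'.2
        simp_rw [mul_comm (f (_ + a))]
        exact this
    · have e5 : ∫ y in (0 : ℝ)..(U - a), JJ f T U y = ∫ b in a..U, JJ f T U (b - a) := by
        rw [intervalIntegral.integral_comp_sub_right (fun y => JJ f T U y)]
        simp
      rw [e5]
      refine intervalIntegral.integral_mono_on ha.2 (h5.ii a U) ?_ fun b hb' => ?_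
      · have h6 := (hJ.ii 0 (U - a)).comp_sub_right a
        simpa using h6
      · exact p1 a ha b ⟨ha.1.trans hb'.1, hb'.2⟩ hb'.1
  -- the primitive
  have cK : Continuous fun x => ∫ y in (0 : ℝ)..x, JJ f T U y :=
    intervalIntegral.continuous_primitive (fun a b => hJ.ii a b) 0
  have cK' : Continuous fun a => ∫ y in (0 : ℝ)..(U - a), JJ f T U y :=
    cK.comp (continuous_const.sub continuous_id)
  have h7 : LB fun a => ∫ t in T..(3 * T), ∫ b in (0 : ℝ)..U, f (t + a) * f (t + b) := by
    have m2 : Measurable (Function.uncurry fun a t : ℝ => ∫ b in (0 : ℝ)..U, f (t + a) * f (t + b)) := by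
      have e2 : (Function.uncurry fun a t : ℝ => ∫ b in (0 : ℝ)..U, f (t + a) * f (t + b))
          = fun z : ℝ × ℝ => f (z.2 + z.1) * ∫ b in (0 : ℝ)..U, f (z.2 + b) := by
        funext z
        simp only [Function.uncurry, intervalIntegral.integral_const_mul]
      rw [e2]
      have h3 : LB fun t => ∫ b in (0 : ℝ)..U, f (t + b) :=
        LB.param (F := fun t b => f (t + b)) (G := fun z => G (z.1 + z.2))
          (h.meas.comp (measurable_fst.add measurable_snd)) (hG.comp (by fun_prop))
          (fun x y => h.nn _) (fun x y => hb _) hU.le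
      exact (h.meas.comp (measurable_snd.add measurable_fst)).mul (h3.meas.comp measurable_snd)
    refine LB.param (G := fun z => G (z.2 + z.1) * ∫ b in (0 : ℝ)..U, G (z.2 + b)) m2 ?_
      (fun x y => intervalIntegral.integral_nonneg hU.le fun b _ => n1 y x b) (fun x y => ?_)
      (by linarith)
    · have c2 : Continuous fun t => ∫ b in (0 : ℝ)..U, G (t + b) :=
        intervalIntegral.continuous_parametric_intervalIntegral_of_continuous'
          (f := fun t b => G (t + b)) (by fun_prop) 0 U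
      exact (hG.comp (by fun_prop)).mul (c2.comp continuous_snd)
    · simp only
      rw [← intervalIntegral.integral_const_mul]
      refine intervalIntegral.integral_mono_on hU.le ?_ ?_ fun b _ => b1 y x b
      · have h4 : LB fun b => f (y + b) := by
          have := h.shift y
          simpa [add_comm] using this
        exact (h4.ii 0 U).const_mul _
      · have : Continuous fun b => G (y + x) * G (y + b) := by fun_prop
        exact this.intervalIntegrable _ _
  have h8 : ∫ a in (0 : ℝ)..U, ∫ t in T..(3 * T), ∫ b in (0 : ℝ)..U, f (t + a) * f (t + b)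
      ≤ ∫ a in (0 : ℝ)..U, ((∫ y in (0 : ℝ)..a, JJ f T U y) + ∫ y in (0 : ℝ)..(U - a), JJ f T U y) := by
    refine intervalIntegral.integral_mono_on hU.le (h7.ii 0 U) ?_ fun a ha => ?_
    · exact (cK.add cK').intervalIntegrable 0 U
    · rw [s2]
      exact p2 a ha
  rw [intervalIntegral.integral_add (cK.intervalIntegrable 0 U)
    (cK'.intervalIntegrable 0 U)] at h8
  have e6 : ∫ a in (0 : ℝ)..U, ∫ y in (0 : ℝ)..(U - a), JJ f T U y
      = ∫ x in (0 : ℝ)..U, ∫ y in (0 : ℝ)..x, JJ f T U y := by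
    rw [intervalIntegral.integral_comp_sub_left (fun x => ∫ y in (0 : ℝ)..x, JJ f T U y)]
    simp
  have h9 : ∫ a in (0 : ℝ)..U, ∫ t in T..(3 * T), ∫ b in (0 : ℝ)..U, f (t + a) * f (t + b)
      ≤ 2 * ∫ x in (0 : ℝ)..U, ∫ y in (0 : ℝ)..x, JJ f T U y := by
    refine h8.trans (le_of_eq ?_)
    rw [e6]
    ring
  calc 1 / U ^ 2 * ∫ a in (0 : ℝ)..U, ∫ t in T..(3 * T), ∫ b in (0 : ℝ)..U, f (t + a) * f (t + b)
      ≤ 1 / U ^ 2 * (2 * ∫ x in (0 : ℝ)..U, ∫ y in (0 : ℝ)..x, JJ f T U y) := by gcongr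
    _ = _ := by ring

end Pool.Agent.Q151.EW
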