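import Pool.Agent.Q80.EW.Stm3
import Pool.Agent.Q151.EW.Fub

/-! Basic facts (project EW of helper80, jobs C3 and C4). -/

set_option autoImplicit false

open Filter Topology MeasureTheory Set
open Pool.Agent.Q80.EW

namespace Pool.Agent.Q151.EW

/-! ### the walk -/

lemma PP_cont (y : ℝ) : Continuous (PP y) := by
  unfold PP
  refine continuous_finsetSum _ fun p hp => ?_
  have hp1 : p ≠ 0 := (Nat.prime_of_mem_primesBelow hp).ne_zero
  exact Continuous.const_cpow (by fun_prop) (Or.inl (by exact_mod_cast hp1))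

lemma XX_cont (y : ℝ) : Continuous (XX y) := by
  unfold XX
  exact (Complex.continuous_re.comp (PP_cont y)).sub continuous_const

lemma zc_zero : zc 0 = 3 := by
  unfold zc
  rw [Real.exp_zero]
  have h1 := Real.exp_one_gt_d9
  have h2 := Real.exp_one_lt_d9
  rw [Nat.ceil_eq_iff (by norm_num)]
  norm_num
  constructor <;> linarith

lemma pb3 : Nat.primesBelow 3 = {2} := by decide

lemma XX_zero (t : ℝ) : |XX 0 t| ≤ 2 := by
  unfold XX PP VV
  rw [zc_zero, pb3, Finset.sum_singleton, Finset.sum_singleton]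
  have h1 : ‖((2 : ℕ) : ℂ) ^ (-((1 / 2 : ℂ) + (t : ℂ) * Complex.I))‖ ≤ 1 := by
    rw [Complex.norm_natCast_cpow_of_pos (by norm_num)]
    apply Real.rpow_le_one_of_one_le_of_nonpos (by norm_num)
    simp
  have h2 := (Complex.abs_re_le_norm (((2 : ℕ) : ℂ) ^ (-((1 / 2 : ℂ) + (t : ℂ) * Complex.I)))).trans h1
  rw [abs_le] at h2 ⊢
  norm_num at h2 ⊢
  constructor <;> linarith [h2.1, h2.2]

/-! ### the levels -/

lemma lev (Y : ℝ) {m q : ℕ} (hq : 1 ≤ q) (i : ℕ) :
    ((i * q : ℕ) : ℝ) * (Y / ((m : ℝ) * q)) = (i : ℝ) * (Y / m) := by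
  have hq' : (q : ℝ) ≠ 0 := by positivity
  push_cast
  rcases Nat.eq_zero_or_pos m with hm | hm
  · subst hm
    simp
  · have hm' : (m : ℝ) ≠ 0 := by positivity
    field_simp

lemma sum_De (T : ℝ) (m : ℕ) (k : Fin m) (t : ℝ) :
    ∑ i ∈ Finset.Iic k, De T m i t
      = (XX ((((k : ℕ) + 1 : ℕ) : ℝ) * (Yt T / m)) t - XX 0 t) / √(La T) := by
  have h1 : ∀ n : ℕ, ∀ hn : n < m, ∑ i ∈ Finset.Iic (⟨n, hn⟩ : Fin m), De T m i t
      = (XX (((n + 1 : ℕ) : ℝ) * (Yt T / m)) t - XX 0 t) / √(La T) := by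
    intro n
    induction n with
    | zero =>
      intro hn
      have e1 : Finset.Iic (⟨0, hn⟩ : Fin m) = {⟨0, hn⟩} := by
        ext i
        simp [Fin.ext_iff, Fin.le_def]
      rw [e1, Finset.sum_singleton]
      unfold De
      simp
    | succ n ih =>
      intro hn
      have e1 : Finset.Iic (⟨n + 1, hn⟩ : Fin m) = insert ⟨n + 1, hn⟩ (Finset.Iic ⟨n, by omega⟩) := by
        ext i
        simp only [Finset.mem_Iic, Finset.mem_insert, Fin.le_def, Fin.ext_iff]
        omega
      rw [e1, Finset.sum_insert (by simp [Fin.le_def]), ih (by omega)]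
      unfold De
      simp only
      push_cast
      ring
  exact h1 k.1 k.2

lemma WK_iff (T : ℝ) (m : ℕ) (b t : ℝ) : WK T m b t ↔ ∀ k : ℕ, k < m →
    (XX (((k + 1 : ℕ) : ℝ) * (Yt T / m)) t - XX 0 t) / √(La T) ≤ b := by
  unfold WK
  constructor
  · intro h k hk
    have := h ⟨k, hk⟩
    rwa [sum_De] at this
  · intro h k
    rw [sum_De]
    exact h k.1 k.2

/-! ### the products without weights -/

lemma ex_zero : ex 0 = 1 := by
  ext n
  rw [ex_apply, ArithmeticFunction.one_apply]
  by_cases h0 : n = 0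
  · simp [h0]
  · rw [if_neg h0]
    by_cases h1 : n = 1
    · simp [h1]
    · rw [if_neg h1]
      obtain ⟨p, hp⟩ : n.factorization.support.Nonempty := by
        rw [Nat.support_factorization, Nat.nonempty_primeFactors]
        omega
      have : n.factorization.prod (fun p a => (0 : ℕ → ℝ) p ^ a / (a.factorial : ℝ)) = 0 := by
        refine Finset.prod_eq_zero hp ?_
        have : n.factorization p ≠ 0 := Finsupp.mem_support_iff.1 hp
        simp [this]
      rw [this]
      simp

lemma tr_one (l : ℕ) : tr l (1 : ArithmeticFunction ℂ) = 1 := by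
  ext n
  rw [tr_apply, ArithmeticFunction.one_apply]
  split_ifs with h1 h2 h3
  · rfl
  · rfl
  · subst h3
    simp at h1
  · rfl

lemma FF_one (η T h : ℝ) : FF η T 1 0 h 0 0 = dd η T := by
  unfold FF GT RF dd
  rw [ex_zero, tr_one, sh_one]
  simp

lemma FF_two (η T h : ℝ) : FF η T 1 1 h 0 0 = dd η T * sh h (dd η T) := by
  unfold FF GT RF dd
  rw [ex_zero, tr_one, sh_one, sh_mul]
  simp only [pow_one, mul_one]
  ring

lemma Wt_zero (Z : ℕ) : Wt Z 0 := fun p => ⟨by simp, fun _ => rfl⟩

/-! ### the good set -/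

section good

variable (η y ε T : ℝ) (m : ℕ)

lemma GD_closed : IsClosed (GD y ε T m) := by
  have : GD y ε T m = ⋂ j : ℕ, {t | j ≤ m * qq ε T m →
      XX ((j : ℝ) * (Yt T / ((m : ℝ) * qq ε T m))) t ≤ (y / 2 - ε) * √(La T) ∧
      ‖PP ((j : ℝ) * (Yt T / ((m : ℝ) * qq ε T m))) t‖ ≤ 40 * La T} := by
    ext t
    simp [GD]
  rw [this]
  refine isClosed_iInter fun j => ?_
  by_cases hj : j ≤ m * qq ε T m
  · simp only [hj, forall_const]
    exact (isClosed_le (XX_cont _) continuous_const).inter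
      (isClosed_le (PP_cont _).norm continuous_const)
  · simp [hj]

lemma NEWK_closed (b : ℝ) : IsClosed {t | NE T m t ∧ WK T m b t} := by
  have h1 : IsClosed {t | NE T m t} := by
    have : {t | NE T m t} = ⋂ i : ℕ, {t | i ≤ m → ‖PP ((i : ℝ) * (Yt T / m)) t‖ ≤ 40 * La T} := by
      ext t
      simp [NE]
    rw [this]
    refine isClosed_iInter fun i => ?_
    by_cases hi : i ≤ m
    · simp only [hi, forall_const]
      exact isClosed_le (PP_cont _).norm continuous_const
    · simp [hi]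
  have h2 : IsClosed {t | WK T m b t} := by
    have : {t | WK T m b t} = ⋂ k : Fin m, {t | ∑ i ∈ Finset.Iic k, De T m i t ≤ b} := by
      ext t
      simp [WK]
    rw [this]
    refine isClosed_iInter fun k => isClosed_le ?_ continuous_const
    refine continuous_finsetSum _ fun i _ => ?_
    unfold De
    exact ((XX_cont _).sub (XX_cont _)).div_const _
  exact h1.inter h2

end good

end Pool.Agent.Q151.EW
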