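import Pool.Agent.Q251.EW.Con1
import Pool.Agent.Q80.EW.Stm6

/-! Project EWX of helper80, job CONx: regularity (adapted from the proof of CON by helper251). -/

set_option autoImplicit false

namespace Pool.Agent.Q151.EW

open Pool.Agent.Q80.EW Filter Topology MeasureTheory Pool.Agent.Q251.EW

theorem EXc (x T : ℝ) : IsClosed (EX x T) := isClosed_le (XX_cont _) continuous_const

theorem ind_int {g : ℝ → ℝ} (hg : Continuous g) {S : Set ℝ} (hS : IsClosed S) (a b : ℝ) :
    IntervalIntegrable (Set.indicator S g) volume a b := by
  rw [intervalIntegrable_iff]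
  exact (intervalIntegrable_iff.1 (hg.intervalIntegrable a b)).indicator hS.measurableSet

theorem win_ind {g : ℝ → ℝ} (hg : Continuous g) {S : Set ℝ} (hS : IsClosed S) (U : ℝ) :
    Continuous fun t => ∫ h in (0 : ℝ)..U, Set.indicator S g (t + h) := by
  have : (fun t => ∫ h in (0 : ℝ)..U, Set.indicator S g (t + h)) =
      fun t => ∫ u in t..(t + U), Set.indicator S g u := by
    funext t; exact win_eq _ _ _
  rw [this]
  exact win_cont _ (fun a b => ind_int hg hS a b) _

theorem t_CONx (hE : J_EXP) : J_CONx := by
  intro η y ε x m T hT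
  have hU : 0 < UU y T := Real.exp_pos _
  have hT1 : 1 < T := by linarith
  have hL := Real.log_pos hT1
  have hD : Continuous fun t => ‖Dp η T t‖ ^ 2 := (Dp_cont hE η T).norm.pow 2
  have hD2 : Continuous fun t => 2 / Real.log T * ‖Dp η T t‖ ^ 2 := continuous_const.mul hD
  have hGE : IsClosed (GD y ε T m ∩ EX x T) := (GD_closed y ε T m).inter (EXc x T)
  refine ⟨?_, ?_, ?_, ?_⟩
  · unfold MXx
    exact continuous_const.mul (win_ind (ze_cont.norm.pow 2) (EXc x T) _)
  · unfold NNx
    exact continuous_const.mul (win_ind hD (EXc x T) _)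
  · unfold WWx ffx
    exact continuous_const.mul (win_ind hD2 hGE _)
  · intro t
    constructor
    · unfold WWx ffx
      refine mul_nonneg (by positivity) ?_
      exact intervalIntegral.integral_nonneg hU.le fun h _ =>
        Set.indicator_nonneg (fun s _ => by positivity) _
    · unfold WWx NNx ffx
      have h1 : ∫ h in (0 : ℝ)..(UU y T), Set.indicator (GD y ε T m ∩ EX x T)
            (fun t => 2 / Real.log T * ‖Dp η T t‖ ^ 2) (t + h) ≤
          ∫ h in (0 : ℝ)..(UU y T), 2 / Real.log T *
            Set.indicator (EX x T) (fun s => ‖Dp η T s‖ ^ 2) (t + h) := by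
        apply intervalIntegral.integral_mono_on hU.le
        · have := (ind_int hD2 hGE (t + 0) (t + UU y T)).comp_add_left t
          simpa using this
        · have := (ind_int hD (EXc x T) (t + 0) (t + UU y T)).comp_add_left t
          simp only [add_sub_cancel_left] at this
          exact this.const_mul _
        · intro h _
          by_cases h2 : t + h ∈ GD y ε T m ∩ EX x T
          · rw [Set.indicator_of_mem h2, Set.indicator_of_mem h2.2]
          · rw [Set.indicator_of_notMem h2]
            exact mul_nonneg (by positivity) (Set.indicator_nonneg (fun s _ => by positivity) _)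
      rw [intervalIntegral.integral_const_mul] at h1
      calc 1 / UU y T * ∫ h in (0 : ℝ)..(UU y T), Set.indicator (GD y ε T m ∩ EX x T)
            (fun t => 2 / Real.log T * ‖Dp η T t‖ ^ 2) (t + h) ≤
          1 / UU y T * (2 / Real.log T * ∫ h in (0 : ℝ)..(UU y T),
            Set.indicator (EX x T) (fun s => ‖Dp η T s‖ ^ 2) (t + h)) :=
            mul_le_mul_of_nonneg_left h1 (by positivity)
        _ = _ := by
          rw [← mul_assoc]
          congr 1
          field_simp

end Pool.Agent.Q151.EW
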