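import Pool.Agent.Q151.EW.Asy

/-! Lower bound of the mean of the window means (project EW of helper80, job C3). -/

set_option autoImplicit false

open Filter Topology MeasureTheory Set
open Pool.Agent.Q80.EW

namespace Pool.Agent.Q151.EW

/-- measures with a density on an interval -/
lemma dens {w : ℝ → ℝ} (hw : LB w) {a b : ℝ} (hab : a ≤ b) :
    ∃ μ : Measure ℝ, IsFiniteMeasure μ ∧ (∀ f : ℝ → ℝ, Continuous f → Integrable f μ) ∧
      (∀ f : ℝ → ℝ, ∫ t, f t ∂μ = ∫ t in a..b, w t * f t) ∧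
      ∀ S : Set ℝ, MeasurableSet S → μ.real S = ∫ t in a..b, S.indicator w t := by
  have hwi : IntegrableOn w (Ioc a b) := (intervalIntegrable_iff_integrableOn_Ioc_of_le hab).1
    (hw.ii a b)
  have hm : Measurable fun t => ENNReal.ofReal (w t) := hw.meas.ennreal_ofReal
  have hlt : ∀ᵐ t ∂(volume.restrict (Ioc a b)), ENNReal.ofReal (w t) < ⊤ :=
    Eventually.of_forall fun t => ENNReal.ofReal_lt_top
  have key : ∀ f : ℝ → ℝ, ∫ t, f t ∂((volume.restrict (Ioc a b)).withDensity
      fun t => ENNReal.ofReal (w t)) = ∫ t in a..b, w t * f t := by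
    intro f
    rw [integral_withDensity_eq_integral_toReal_smul hm hlt, intervalIntegral.integral_of_le hab]
    refine integral_congr_ae (Eventually.of_forall fun t => ?_)
    simp only [smul_eq_mul]
    rw [ENNReal.toReal_ofReal (hw.nn t)]
  refine ⟨(volume.restrict (Ioc a b)).withDensity fun t => ENNReal.ofReal (w t),
    isFiniteMeasure_withDensity_ofReal hwi.2, fun f hf => ?_, key, fun S hS => ?_⟩
  · rw [integrable_withDensity_iff_integrable_smul' hm hlt]
    have h1 : IntegrableOn (fun t => w t * f t) (Ioc a b) := by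
      have := (hw.ii a b).mul_continuousOn (g := f) hf.continuousOn
      exact (intervalIntegrable_iff_integrableOn_Ioc_of_le hab).1 this
    refine h1.congr (Eventually.of_forall fun t => ?_)
    simp only [smul_eq_mul]
    rw [ENNReal.toReal_ofReal (hw.nn t)]
  · rw [← integral_indicator_one hS, key]
    refine intervalIntegral.integral_congr fun t _ => ?_
    by_cases ht : t ∈ S
    · simp [ht]
    · simp [ht]

lemma LB.sum {ι : Type} (s : Finset ι) {f : ι → ℝ → ℝ} (h : ∀ i ∈ s, LB (f i)) :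
    LB fun t => ∑ i ∈ s, f i t := by
  classical
  choose! G hG hb using fun i hi => (h i hi).bd
  exact ⟨Finset.measurable_fun_sum s fun i hi => (h i hi).meas,
    fun t => Finset.sum_nonneg fun i hi => (h i hi).nn t, fun t => ∑ i ∈ s, G i t,
    continuous_finsetSum s fun i hi => hG i hi, fun t => Finset.sum_le_sum fun i hi => hb i hi t⟩

section fixed

variable {η y ε T g : ℝ} {m q : ℕ}

/-- the walk stays below on the complement of the exceptional sets -/
lemma incl (hq : 1 ≤ q) (hm : 1 ≤ m) (hqq : q = qq ε T m) (hg : g = Yt T / ((m : ℝ) * q))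
    (hε : 0 < ε) (hεy : ε ≤ y / 8) (hL : 2 ≤ ε * √(La T)) {t : ℝ}
    (h1 : NE T m t ∧ WK T m (y / 2 - 3 * ε) t)
    (h2 : ∀ j : ℕ, j ≤ m * q → ‖PP ((j : ℝ) * g) t‖ ≤ 40 * La T)
    (h3 : ∀ i : ℕ, i < m → ∀ j : ℕ, j ≤ q →
      |XX (((i * q + j : ℕ) : ℝ) * g) t - XX (((i * q : ℕ) : ℝ) * g) t| ≤ ε * √(La T)) :
    t ∈ GD y ε T m := by
  have hs : 0 < √(La T) := by
    by_contra hc
    have : √(La T) = 0 := le_antisymm (not_lt.1 hc) (Real.sqrt_nonneg _)
    rw [this, mul_zero] at hL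
    linarith
  have hz := abs_le.1 (XX_zero t)
  have hW := (WK_iff T m _ t).1 h1.2
  -- the coarse levels
  have h4 : ∀ i : ℕ, i ≤ m → XX (((i * q : ℕ) : ℝ) * g) t ≤ (y / 2 - 2 * ε) * √(La T) := by
    intro i hi
    rw [hg, lev _ hq]
    rcases Nat.eq_zero_or_pos i with h0 | h0
    · subst h0
      rw [Nat.cast_zero, zero_mul]
      calc XX 0 t ≤ 2 := hz.2
        _ ≤ ε * √(La T) := hL
        _ ≤ _ := by
          gcongr
          linarith
    · obtain ⟨k, rfl⟩ : ∃ k, i = k + 1 := ⟨i - 1, by omega⟩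
      have h5 := hW k (by omega)
      rw [div_le_iff₀ hs] at h5
      nlinarith
  intro j hj
  rw [← hqq] at hj ⊢
  rw [← hg]
  refine ⟨?_, h2 j hj⟩
  obtain ⟨i, j', hi, hj', e⟩ : ∃ i j' : ℕ, i < m ∧ j' ≤ q ∧ j = i * q + j' := by
    rcases Nat.lt_or_ge j (m * q) with hlt | hge
    · refine ⟨j / q, j % q, ?_, (Nat.mod_lt _ (by omega)).le, ?_⟩
      · rw [Nat.div_lt_iff_lt_mul (by omega)]
        exact hlt
      · rw [mul_comm]
        exact (Nat.div_add_mod j q).symm
    · refine ⟨m - 1, q, by omega, le_rfl, ?_⟩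
      have : j = m * q := le_antisymm hj hge
      rw [this]
      obtain ⟨k, rfl⟩ : ∃ k, m = k + 1 := ⟨m - 1, by omega⟩
      simp
      ring
  have h6 := (abs_le.1 (h3 i hi j' hj')).2
  have h7 := h4 i hi.le
  rw [e]
  nlinarith

/-- the fine levels without exceptional values -/
def AA (T g : ℝ) (M : ℕ) : Set ℝ := {t | ∀ j : ℕ, j ≤ M → ‖PP ((j : ℝ) * g) t‖ ≤ 40 * La T}

lemma AA_closed (T g : ℝ) (M : ℕ) : IsClosed (AA T g M) := by
  have : AA T g M = ⋂ j : ℕ, {t | j ≤ M → ‖PP ((j : ℝ) * g) t‖ ≤ 40 * La T} := by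
    ext t
    simp [AA]
  rw [this]
  refine isClosed_iInter fun j => ?_
  by_cases hj : j ≤ M
  · simp only [hj, forall_const]
    exact isClosed_le (PP_cont _).norm continuous_const
  · simp [hj]

/-- the large increments in the block `i` -/
def BB (T g ε : ℝ) (q i : ℕ) : Set ℝ := {t | ∃ j : ℕ, j ≤ q ∧
  ε * √(La T) < |XX (((i * q + j : ℕ) : ℝ) * g) t - XX (((i * q + 0 : ℕ) : ℝ) * g) t|}

lemma BB_open (T g ε : ℝ) (q i : ℕ) : IsOpen (BB T g ε q i) := by
  have : BB T g ε q i = ⋃ j ∈ Iic q, {t | ε * √(La T) <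
      |XX (((i * q + j : ℕ) : ℝ) * g) t - XX (((i * q + 0 : ℕ) : ℝ) * g) t|} := by
    ext t
    simp [BB]
  rw [this]
  exact isOpen_biUnion fun j _ => isOpen_lt continuous_const ((XX_cont _).sub (XX_cont _)).abs

/-- the pointwise inequality -/
lemma pointwise (hq : 1 ≤ q) (hm : 1 ≤ m) (hqq : q = qq ε T m) (hg : g = Yt T / ((m : ℝ) * q))
    (hε : 0 < ε) (hεy : ε ≤ y / 8) (hL : 2 ≤ ε * √(La T)) {D : ℝ → ℝ} (hD : ∀ t, 0 ≤ D t) (t : ℝ) :
    {t | NE T m t ∧ WK T m (y / 2 - 3 * ε) t}.indicator D t ≤ (GD y ε T m).indicator D t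
      + ∑ j ∈ Finset.range (m * q + 1), {t | 40 * La T < ‖PP ((j : ℝ) * g) t‖}.indicator D t
      + ∑ i ∈ Finset.range m, (BB T g ε q i).indicator ((AA T g (m * q)).indicator D) t := by
  have n1 : 0 ≤ (GD y ε T m).indicator D t := indicator_nonneg (fun t _ => hD t) t
  have n2 : ∀ j ∈ Finset.range (m * q + 1),
      0 ≤ {t | 40 * La T < ‖PP ((j : ℝ) * g) t‖}.indicator D t := fun j _ =>
    indicator_nonneg (fun t _ => hD t) t
  have n3 : ∀ i ∈ Finset.range m,
      0 ≤ (BB T g ε q i).indicator ((AA T g (m * q)).indicator D) t := fun i _ =>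
    indicator_nonneg (fun t _ => indicator_nonneg (fun t _ => hD t) t) t
  have n2' := Finset.sum_nonneg n2
  have n3' := Finset.sum_nonneg n3
  by_cases hS : t ∈ {t | NE T m t ∧ WK T m (y / 2 - 3 * ε) t}
  · rw [indicator_of_mem hS]
    by_cases hA : t ∈ AA T g (m * q)
    · by_cases hB : ∀ i : ℕ, i < m → ∀ j : ℕ, j ≤ q →
        |XX (((i * q + j : ℕ) : ℝ) * g) t - XX (((i * q : ℕ) : ℝ) * g) t| ≤ ε * √(La T)
      · have := incl hq hm hqq hg hε hεy hL hS hA hB
        rw [indicator_of_mem this]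
        linarith
      · push Not at hB
        obtain ⟨i, hi, j, hj, hij⟩ := hB
        have hB' : t ∈ BB T g ε q i := ⟨j, hj, by simpa using hij⟩
        have h5 : D t ≤ ∑ i ∈ Finset.range m,
            (BB T g ε q i).indicator ((AA T g (m * q)).indicator D) t := by
          refine le_trans ?_ (Finset.single_le_sum n3 (Finset.mem_range.2 hi))
          rw [indicator_of_mem hB', indicator_of_mem hA]
        linarith
    · have : ∃ j, j ≤ m * q ∧ 40 * La T < ‖PP ((j : ℝ) * g) t‖ := by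
        by_contra hc
        push Not at hc
        exact hA hc
      obtain ⟨j, hj, hj2⟩ := this
      have h5 : D t ≤ ∑ j ∈ Finset.range (m * q + 1),
          {t | 40 * La T < ‖PP ((j : ℝ) * g) t‖}.indicator D t := by
        refine le_trans ?_ (Finset.single_le_sum n2 (Finset.mem_range.2 (Nat.lt_succ_of_le hj)))
        rw [indicator_of_mem (by exact hj2)]
      linarith
  · rw [indicator_of_notMem hS]
    linarith

end fixed

/-- main term -/
lemma main_term (hP1 : J_P1) (hMASS : J_MASS) {η b : ℝ} {m : ℕ} (hη : 0 < η) (hη1 : η ≤ 1 / 100)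
    (hm : 1 ≤ m) {δ : ℝ} (hδ : 0 < δ) : ∀ᶠ T : ℝ in atTop,
    2 * T * ((1 - 4 * η) * gam m b - δ) ≤ 2 / Real.log T * ∫ t in T..(3 * T),
      {t | NE T m t ∧ WK T m b t}.indicator (fun t => ‖Dp η T t‖ ^ 2) t := by
  have h1 := (hP1 η m b hη hη1 hm).mul (hMASS η hη hη1)
  have h2 : gam m b * (1 / 2 - 2 * η) - δ / 2 < gam m b * (1 / 2 - 2 * η) := by linarith
  have h3 : ∀ᶠ T : ℝ in atTop, 0 < nm (dd η T) / Real.log T := by
    have := (hMASS η hη hη1).eventually_const_lt (show (0 : ℝ) < 1 / 2 - 2 * η by linarith)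
    exact this
  filter_upwards [h1.eventually_const_lt h2, h3, eventually_gt_atTop 1] with T h4 h5 h6
  have hL := Real.log_pos h6
  have hn : 0 < nm (dd η T) := by
    by_contra hc
    have : nm (dd η T) / Real.log T ≤ 0 := div_nonpos_of_nonpos_of_nonneg (not_lt.1 hc) hL.le
    linarith
  obtain ⟨I, hI⟩ : ∃ I, I = ∫ t in T..(3 * T),
      {t | NE T m t ∧ WK T m b t}.indicator (fun t => ‖Dp η T t‖ ^ 2) t := ⟨_, rfl⟩
  rw [← hI] at h4 ⊢
  have e : I / (2 * T * nm (dd η T)) * (nm (dd η T) / Real.log T) = I / (2 * T * Real.log T) := by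
    field_simp
  rw [e, lt_div_iff₀ (by positivity)] at h4
  rw [div_mul_eq_mul_div, le_div_iff₀ hL]
  nlinarith

/-- the exceptional values -/
lemma exc_term (hEXC : J_EXC) (hFF : J_FF) {η : ℝ} (hη : 0 < η) (hη1 : η ≤ 1 / 100) :
    ∀ᶠ T : ℝ in atTop, ∀ a : ℝ, 0 ≤ a → a ≤ Yt T →
      ∫ t in T..(3 * T), {t | 40 * La T < ‖PP a t‖}.indicator (fun t => ‖Dp η T t‖ ^ 2) t
        ≤ T / Real.log T := by
  filter_upwards [hEXC η hη hη1, hFF η hη hη1, eventually_gt_atTop 0] with T h hff hT a ha haY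
  have h1 := h 1 0 0 a 0 0 le_rfl (by norm_num) ha haY (by simp) (by simp) (Wt_zero _) (Wt_zero _)
  rw [FF_one] at h1
  have hD := sq_LB hff.1
  have m1 : MeasurableSet {t | 40 * La T < ‖PP a t‖} :=
    (isOpen_lt continuous_const (PP_cont a).norm).measurableSet
  have m2 : MeasurableSet {t | 40 * La T < ‖PP a t‖ ∨ 40 * La T < ‖PP a (t + 0)‖} := by
    refine m1.union ?_
    exact (isOpen_lt continuous_const ((PP_cont a).comp (by fun_prop)).norm).measurableSet
  refine le_trans ?_ h1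
  refine le_trans ?_ ((hD.indicator m2).mono_int le_rfl (show T ≤ 3 * T by linarith)
    (show 3 * T ≤ 4 * T by linarith))
  refine intervalIntegral.integral_mono_on (by linarith) ((hD.indicator m1).ii _ _)
    ((hD.indicator m2).ii _ _) fun t _ => ?_
  refine indicator_le_indicator_of_subset (fun t ht => Or.inl ht) (fun t => by positivity) t

/-- one block -/
lemma block_term {C1 C2 : ℝ} (hC1 : 0 < C1) (hC2 : 0 < C2)
    (hCH : ∀ (Ω : Type) [MeasurableSpace Ω] (μ : Measure Ω) [IsFiniteMeasure μ]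
      (n : ℕ) (S : ℕ → Ω → ℝ) (K : ℝ), 0 ≤ K → (∀ j : ℕ, j ≤ n → Measurable (S j)) →
      (∀ j k : ℕ, k ≤ j → j ≤ n → Integrable (fun ω => (S j ω - S k ω) ^ 4) μ ∧
        ∫ ω, (S j ω - S k ω) ^ 4 ∂μ ≤ K * ((j : ℝ) - k) ^ 2) →
      ∀ a : ℝ, 0 < a → μ.real {ω | ∃ j : ℕ, j ≤ n ∧ a < |S j ω - S 0 ω|} ≤ C1 * K * (n : ℝ) ^ 2 / a ^ 4)
    {η ε T g : ℝ} {m q i X : ℕ} (hfs : FS X (dd η T)) (hε : 0 < ε) (hT : 1 < T)
    (hinc : ∀ a b : ℝ, 0 ≤ a → a + 1 ≤ b → b ≤ Yt T →
      ∫ t in T..(3 * T), Set.indicator {t | ‖PP a t‖ ≤ 40 * La T ∧ ‖PP b t‖ ≤ 40 * La T}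
        (fun t => ‖Dp η T t‖ ^ 2 * (XX b t - XX a t) ^ 4) t ≤ C2 * T * Real.log T * (b - a) ^ 2)
    (hLa : 1 ≤ La T) (hq : 1 ≤ q) (hm : 1 ≤ m) (hi : i < m) (hg : g = Yt T / ((m : ℝ) * q))
    (hg1 : 1 ≤ g) :
    ∫ t in T..(3 * T), (BB T g ε q i).indicator ((AA T g (m * q)).indicator
      fun t => ‖Dp η T t‖ ^ 2) t ≤ C1 * C2 * T * Real.log T / ((m : ℝ) ^ 2 * ε ^ 4) := by
  have hL := Real.log_pos hT
  have hm' : (0 : ℝ) < m := by exact_mod_cast hm
  have hq' : (0 : ℝ) < q := by exact_mod_cast hq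
  have hLa0 : 0 < La T := by linarith
  have hs : 0 < √(La T) := Real.sqrt_pos.2 hLa0
  have hYg : Yt T = (m : ℝ) * q * g := by
    rw [hg]
    field_simp
  have hYL := Yt_le hLa
  have hY0 : 0 < Yt T := by
    rw [hYg]
    positivity
  have hw : LB ((AA T g (m * q)).indicator fun t => ‖Dp η T t‖ ^ 2) :=
    (sq_LB hfs).indicator (AA_closed T g (m * q)).measurableSet
  obtain ⟨μ, hμ, hint, hform, hreal⟩ := dens hw (show T ≤ 3 * T by linarith)
  have hK : 0 ≤ C2 * T * Real.log T * g ^ 2 := by positivity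
  have h1 := hCH ℝ μ q (fun j t => XX (((i * q + j : ℕ) : ℝ) * g) t)
    (C2 * T * Real.log T * g ^ 2) hK (fun j _ => (XX_cont _).measurable)
    (fun j k hkj hj => ?_) (ε * √(La T)) (by positivity)
  · change μ.real (BB T g ε q i) ≤ _ at h1
    rw [hreal _ (BB_open T g ε q i).measurableSet] at h1
    refine h1.trans ?_
    have e1 : (ε * √(La T)) ^ 4 = ε ^ 4 * La T ^ 2 := by
      rw [mul_pow, show √(La T) ^ 4 = (√(La T) ^ 2) ^ 2 by ring, Real.sq_sqrt hLa0.le]
    have e2 : C1 * (C2 * T * Real.log T * g ^ 2) * (q : ℝ) ^ 2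
        = C1 * C2 * T * Real.log T * (Yt T / m) ^ 2 := by
      rw [hYg]
      field_simp
    rw [e1, e2, div_le_div_iff₀ (by positivity) (by positivity)]
    have h2 : Yt T ^ 2 ≤ La T ^ 2 := by gcongr
    calc C1 * C2 * T * Real.log T * (Yt T / m) ^ 2 * ((m : ℝ) ^ 2 * ε ^ 4)
        = C1 * C2 * T * Real.log T * ε ^ 4 * Yt T ^ 2 := by field_simp
      _ ≤ C1 * C2 * T * Real.log T * ε ^ 4 * La T ^ 2 := by gcongr
      _ = _ := by ring
  · refine ⟨hint _ (((XX_cont _).sub (XX_cont _)).pow 4), ?_⟩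
    rw [hform]
    rcases Nat.eq_or_lt_of_le hkj with h0 | h0
    · subst h0
      simp
    · have hkj' : (1 : ℝ) ≤ (j : ℝ) - k := by
        have : (k : ℝ) + 1 ≤ j := by exact_mod_cast h0
        linarith
      have hi' : (i : ℝ) + 1 ≤ m := by exact_mod_cast hi
      have hj' : (j : ℝ) ≤ q := by exact_mod_cast hj
      have hbY : ((i * q + j : ℕ) : ℝ) * g ≤ Yt T := by
        rw [hYg]
        push_cast
        have : (i : ℝ) * q + j ≤ m * q := by nlinarith
        gcongr
      have h3 := hinc (((i * q + k : ℕ) : ℝ) * g) (((i * q + j : ℕ) : ℝ) * g) (by positivity)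
        (by push_cast; nlinarith) hbY
      have e3 : (((i * q + j : ℕ) : ℝ) * g - ((i * q + k : ℕ) : ℝ) * g) ^ 2
          = g ^ 2 * ((j : ℝ) - k) ^ 2 := by
        push_cast
        ring
      rw [e3] at h3
      have e4 : C2 * T * Real.log T * (g ^ 2 * ((j : ℝ) - k) ^ 2)
          = C2 * T * Real.log T * g ^ 2 * ((j : ℝ) - k) ^ 2 := by ring
      rw [e4] at h3
      refine le_trans ?_ h3
      have hc : Continuous fun t => ‖Dp η T t‖ ^ 2 *
          (XX (((i * q + j : ℕ) : ℝ) * g) t - XX (((i * q + k : ℕ) : ℝ) * g) t) ^ 4 :=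
        ((Dp_cont hfs).norm.pow 2).mul (((XX_cont _).sub (XX_cont _)).pow 4)
      have hLB : LB fun t => ‖Dp η T t‖ ^ 2 *
          (XX (((i * q + j : ℕ) : ℝ) * g) t - XX (((i * q + k : ℕ) : ℝ) * g) t) ^ 4 :=
        ⟨hc.measurable, fun t => by positivity, _, hc, fun t => le_rfl⟩
      have hSm : MeasurableSet {t | ‖PP (((i * q + k : ℕ) : ℝ) * g) t‖ ≤ 40 * La T ∧
          ‖PP (((i * q + j : ℕ) : ℝ) * g) t‖ ≤ 40 * La T} :=
        ((isClosed_le (PP_cont _).norm continuous_const).inter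
          (isClosed_le (PP_cont _).norm continuous_const)).measurableSet
      refine intervalIntegral.integral_mono_on (by linarith) ?_ ((hLB.indicator hSm).ii _ _)
        fun t _ => ?_
      · exact (hw.ii _ _).mul_continuousOn (((XX_cont _).sub (XX_cont _)).pow 4).continuousOn
      · by_cases hA : t ∈ AA T g (m * q)
        · have hmem : t ∈ {t | ‖PP (((i * q + k : ℕ) : ℝ) * g) t‖ ≤ 40 * La T ∧
              ‖PP (((i * q + j : ℕ) : ℝ) * g) t‖ ≤ 40 * La T} := by
            have b1 : i * q + j ≤ m * q := by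
              calc i * q + j ≤ i * q + q := by omega
                _ = (i + 1) * q := by ring
                _ ≤ m * q := Nat.mul_le_mul_right q hi
            exact ⟨hA _ (by omega), hA _ b1⟩
          rw [indicator_of_mem hA, indicator_of_mem hmem]
        · rw [indicator_of_notMem hA, zero_mul]
          exact indicator_nonneg (fun t _ => by positivity) t

theorem t_C3 (hP1 : J_P1) (hFF : J_FF) (hMASS : J_MASS) (hEXC : J_EXC) (hCH : J_CH)
    (hINC : J_INC) : J_C3 := by
  obtain ⟨C1, hC1, hCH⟩ := hCH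
  obtain ⟨C2, hC2, hINC⟩ := hINC
  refine ⟨C1 * C2, by positivity, ?_⟩
  intro η y ε δ m hη hη1 hy hε hεy hδ hm
  have hM := (hMASS η hη hη1).eventually_le_const (show (1 : ℝ) / 2 - 2 * η < 1 / 2 by linarith)
  filter_upwards [main_term hP1 hMASS (b := y / 2 - 3 * ε) hη hη1 hm (show 0 < δ / 4 by linarith),
    hFF η hη hη1, mv_one hFF hη hη1, hM, exc_term hEXC hFF hη hη1, hINC η hη hη1, lev_facts hε hm,
    sq_ev (eventually_ge_atTop (2 / ε)), U_small y hη (show 0 < δ / 2 by linarith),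
    La_ev (eventually_ge_atTop 1), eventually_gt_atTop 1,
    Real.tendsto_log_atTop.eventually_ge_atTop (4 / δ), log_le_mul one_pos, UU_le_log y]
    with T hmain hff hmv hmass hexc hinc hlev hsq hU hLa hT hlog hlogT hUlog
  obtain ⟨q, hqq⟩ : ∃ q, q = qq ε T m := ⟨_, rfl⟩
  rw [← hqq] at hlev
  obtain ⟨g, hg⟩ : ∃ g, g = Yt T / ((m : ℝ) * q) := ⟨_, rfl⟩
  rw [← hg] at hlev
  obtain ⟨hq, -, hg1, hmq⟩ := hlev
  have hL := Real.log_pos hT
  have hm' : (0 : ℝ) < m := by exact_mod_cast hm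
  have hq' : (0 : ℝ) < q := by exact_mod_cast hq
  have hYg : Yt T = (m : ℝ) * q * g := by
    rw [hg]
    field_simp
  have hL2 : 2 ≤ ε * √(La T) := by
    rw [div_le_iff₀ hε] at hsq
    linarith
  have hfs := hff.1
  have hD := sq_LB hfs
  have hfLB : LB (ff η y ε T m) := ff_LB hfs hT
  have hGm := (GD_closed y ε T m).measurableSet
  have hEm : ∀ j : ℕ, MeasurableSet {t | 40 * La T < ‖PP ((j : ℝ) * g) t‖} := fun j =>
    (isOpen_lt continuous_const (PP_cont _).norm).measurableSet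
  have hAm := (AA_closed T g (m * q)).measurableSet
  have hBm : ∀ i, MeasurableSet (BB T g ε q i) := fun i => (BB_open T g ε q i).measurableSet
  have hT3 : T ≤ 3 * T := by linarith
  -- the integrated inequality
  have I1 : ∫ t in T..(3 * T), {t | NE T m t ∧ WK T m (y / 2 - 3 * ε) t}.indicator
      (fun t => ‖Dp η T t‖ ^ 2) t ≤
      (∫ t in T..(3 * T), (GD y ε T m).indicator (fun t => ‖Dp η T t‖ ^ 2) t)
      + (∑ j ∈ Finset.range (m * q + 1), ∫ t in T..(3 * T),
          {t | 40 * La T < ‖PP ((j : ℝ) * g) t‖}.indicator (fun t => ‖Dp η T t‖ ^ 2) t)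
      + ∑ i ∈ Finset.range m, ∫ t in T..(3 * T),
          (BB T g ε q i).indicator ((AA T g (m * q)).indicator fun t => ‖Dp η T t‖ ^ 2) t := by
    have i1 := (hD.indicator hGm).ii T (3 * T)
    have i2 : ∀ j ∈ Finset.range (m * q + 1), IntervalIntegrable
        ({t | 40 * La T < ‖PP ((j : ℝ) * g) t‖}.indicator fun t => ‖Dp η T t‖ ^ 2) volume
          T (3 * T) := fun j _ => (hD.indicator (hEm j)).ii T (3 * T)
    have i3 : ∀ i ∈ Finset.range m, IntervalIntegrable
        ((BB T g ε q i).indicator ((AA T g (m * q)).indicator fun t => ‖Dp η T t‖ ^ 2)) volume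
          T (3 * T) := fun i _ => ((hD.indicator hAm).indicator (hBm i)).ii T (3 * T)
    have i2' : IntervalIntegrable (fun t => ∑ j ∈ Finset.range (m * q + 1),
        {t | 40 * La T < ‖PP ((j : ℝ) * g) t‖}.indicator (fun t => ‖Dp η T t‖ ^ 2) t) volume
          T (3 * T) := (LB.sum _ fun j _ => hD.indicator (hEm j)).ii _ _
    have i3' : IntervalIntegrable (fun t => ∑ i ∈ Finset.range m,
        (BB T g ε q i).indicator ((AA T g (m * q)).indicator fun t => ‖Dp η T t‖ ^ 2) t) volume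
          T (3 * T) := (LB.sum _ fun i _ => (hD.indicator hAm).indicator (hBm i)).ii _ _
    rw [← intervalIntegral.integral_finsetSum i2, ← intervalIntegral.integral_finsetSum i3,
      ← intervalIntegral.integral_add i1 i2', ← intervalIntegral.integral_add (i1.add i2') i3']
    refine intervalIntegral.integral_mono_on hT3
      ((hD.indicator (NEWK_closed T m (y / 2 - 3 * ε)).measurableSet).ii _ _)
      ((i1.add i2').add i3') fun t _ => ?_
    exact pointwise hq hm hqq hg hε hεy hL2 (fun t => by positivity) t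
  -- the exceptional values
  have I2 : ∑ j ∈ Finset.range (m * q + 1), ∫ t in T..(3 * T),
      {t | 40 * La T < ‖PP ((j : ℝ) * g) t‖}.indicator (fun t => ‖Dp η T t‖ ^ 2) t
      ≤ (La T + 1) * (T / Real.log T) := by
    have h1 : ∀ j ∈ Finset.range (m * q + 1), ∫ t in T..(3 * T),
        {t | 40 * La T < ‖PP ((j : ℝ) * g) t‖}.indicator (fun t => ‖Dp η T t‖ ^ 2) t
        ≤ T / Real.log T := by
      intro j hj
      have hj' : (j : ℝ) ≤ (m : ℝ) * q := by
        have := Finset.mem_range.1 hj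
        have h2 : j ≤ m * q := by omega
        exact_mod_cast h2
      refine hexc _ (by positivity) ?_
      rw [hYg]
      gcongr
    refine (Finset.sum_le_sum h1).trans ?_
    rw [Finset.sum_const, Finset.card_range, nsmul_eq_mul]
    push_cast
    gcongr
  -- the blocks
  have I3 : ∑ i ∈ Finset.range m, ∫ t in T..(3 * T),
      (BB T g ε q i).indicator ((AA T g (m * q)).indicator fun t => ‖Dp η T t‖ ^ 2) t
      ≤ C1 * C2 * T * Real.log T / ((m : ℝ) * ε ^ 4) := by
    have h1 : ∀ i ∈ Finset.range m, ∫ t in T..(3 * T),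
        (BB T g ε q i).indicator ((AA T g (m * q)).indicator fun t => ‖Dp η T t‖ ^ 2) t
        ≤ C1 * C2 * T * Real.log T / ((m : ℝ) ^ 2 * ε ^ 4) := fun i hi =>
      block_term hC1 hC2 hCH hfs hε hT hinc hLa hq hm (Finset.mem_range.1 hi) hg hg1
    refine (Finset.sum_le_sum h1).trans (le_of_eq ?_)
    rw [Finset.sum_const, Finset.card_range, nsmul_eq_mul]
    field_simp
  -- the integral of `ff`
  have I4 : ∫ t in T..(3 * T), ff η y ε T m t = 2 / Real.log T *
      ∫ t in T..(3 * T), (GD y ε T m).indicator (fun t => ‖Dp η T t‖ ^ 2) t := by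
    rw [← intervalIntegral.integral_const_mul]
    refine intervalIntegral.integral_congr fun t _ => ?_
    exact ff_eq t
  have hU0 := UU_pos y T
  have hU2 : UU y T ≤ 2 * T := by linarith
  have I5 : ∫ t in T..(T + UU y T), ff η y ε T m t ≤ δ / 2 * T := by
    have h1 : ∫ t in T..(T + UU y T), ff η y ε T m t
        ≤ ∫ t in T..(T + UU y T), 2 / Real.log T * ‖Dp η T t‖ ^ 2 :=
      intervalIntegral.integral_mono_on (by linarith) (hfLB.ii _ _)
        ((hD.const_mul (by positivity)).ii _ _) fun t _ => ff_le hT t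
    rw [intervalIntegral.integral_const_mul] at h1
    have h2 := hmv T (T + UU y T) (by linarith)
    have h3 : nm (dd η T) ≤ 1 / 2 * Real.log T := by
      rwa [div_le_iff₀ hL] at hmass
    have h4 : 0 ≤ T ^ (1 - 2 * η) := by positivity
    calc ∫ t in T..(T + UU y T), ff η y ε T m t
        ≤ 2 / Real.log T * ((T + UU y T - T + T ^ (1 - 2 * η)) * nm (dd η T)) := by
          refine h1.trans ?_
          gcongr
      _ ≤ 2 / Real.log T * ((T + UU y T - T + T ^ (1 - 2 * η)) * (1 / 2 * Real.log T)) := by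
          have : 0 ≤ T + UU y T - T + T ^ (1 - 2 * η) := by linarith
          gcongr
      _ = UU y T + T ^ (1 - 2 * η) := by
          field_simp
          ring
      _ ≤ _ := hU
  have I6 := win_lower hfLB hU0 hU2
  have I7 : ∫ t in T..(3 * T), WW η y ε m T t = ∫ t in T..(3 * T), 1 / UU y T *
      ∫ s in (0 : ℝ)..UU y T, ff η y ε T m (t + s) := rfl
  rw [I7]
  refine le_trans ?_ I6
  have I8 := intervalIntegral.integral_add_adjacent_intervals (hfLB.ii T (T + UU y T))
    (hfLB.ii (T + UU y T) (3 * T))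
  have J1 : 2 / Real.log T * ((La T + 1) * (T / Real.log T)) ≤ 2 * T * (δ / 4) := by
    have h1 : La T + 1 ≤ Real.log T := by
      have := Real.add_one_le_exp (La T)
      rwa [La_exp (by linarith) hT] at this
    have h2 : 1 ≤ δ / 4 * Real.log T := by
      rw [div_le_iff₀ hδ] at hlog
      linarith
    calc 2 / Real.log T * ((La T + 1) * (T / Real.log T))
        ≤ 2 / Real.log T * (Real.log T * (T / Real.log T)) := by gcongr
      _ = 2 * T * (1 / Real.log T) := by field_simp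
      _ ≤ 2 * T * (δ / 4) := by
        have : 1 / Real.log T ≤ δ / 4 := by
          rw [div_le_iff₀ hL]
          exact h2
        gcongr
  have J2 : 2 / Real.log T * (C1 * C2 * T * Real.log T / ((m : ℝ) * ε ^ 4))
      = 2 * T * (C1 * C2 / ((m : ℝ) * ε ^ 4)) := by
    field_simp
  have J3 : 2 / Real.log T * ∫ t in T..(3 * T), {t | NE T m t ∧ WK T m (y / 2 - 3 * ε) t}.indicator
      (fun t => ‖Dp η T t‖ ^ 2) t ≤ (∫ t in T..(3 * T), ff η y ε T m t) + 2 * T * (δ / 4)
        + 2 * T * (C1 * C2 / ((m : ℝ) * ε ^ 4)) := by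
    rw [I4]
    calc _ ≤ 2 / Real.log T * ((∫ t in T..(3 * T), (GD y ε T m).indicator
            (fun t => ‖Dp η T t‖ ^ 2) t) + (La T + 1) * (T / Real.log T)
            + C1 * C2 * T * Real.log T / ((m : ℝ) * ε ^ 4)) := by
          gcongr
          refine I1.trans ?_
          gcongr
      _ ≤ _ := by
          rw [mul_add, mul_add, J2]
          linarith
  nlinarith

end Pool.Agent.Q151.EW
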