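import Pool.Agent.Q80.EW.Stm6
import Pool.Agent.Q151.EW.C3

/-! Lower bound of the mean of the window means with the end point restricted
(project EWX of helper80, job C3x). -/

set_option autoImplicit false

open Filter Topology MeasureTheory Set
open Pool.Agent.Q80.EW

namespace Pool.Agent.Q151.EW

lemma EX_closed (x T : ℝ) : IsClosed (EX x T) :=
  isClosed_le (XX_cont _) continuous_const

lemma TS_iff (T : ℝ) {m : ℕ} (hm : 1 ≤ m) (x t : ℝ) :
    TS T m x t ↔ (XX (Yt T) t - XX 0 t) / √(La T) ≤ x := by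
  unfold TS
  have h1 : ∑ i : Fin m, De T m i t = (XX (Yt T) t - XX 0 t) / √(La T) := by
    have h2 := sum_De T m ⟨m - 1, by omega⟩ t
    have e1 : Finset.Iic (⟨m - 1, by omega⟩ : Fin m) = Finset.univ := by
      ext i
      simp only [Finset.mem_Iic, Finset.mem_univ, iff_true, Fin.le_def]
      omega
    have hm' : (m : ℝ) ≠ 0 := by positivity
    have e2 : (((m - 1 : ℕ) + 1 : ℕ) : ℝ) * (Yt T / m) = Yt T := by
      rw [Nat.sub_add_cancel hm]
      field_simp
    rw [e1] at h2
    simp only at h2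
    rw [e2] at h2
    exact h2
  rw [h1]

lemma NEWKTS_closed (T : ℝ) (m : ℕ) (b x : ℝ) :
    IsClosed {t | NE T m t ∧ (WK T m b t ∧ TS T m x t)} := by
  have h1 := NEWK_closed T m b
  have h2 : IsClosed {t | TS T m x t} := by
    unfold TS
    refine isClosed_le ?_ continuous_const
    refine continuous_finsetSum _ fun i _ => ?_
    unfold De
    exact ((XX_cont _).sub (XX_cont _)).div_const _
  have : {t | NE T m t ∧ (WK T m b t ∧ TS T m x t)}
      = {t | NE T m t ∧ WK T m b t} ∩ {t | TS T m x t} := by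
    ext t
    simp only [mem_inter_iff, mem_ofPred_eq]
    tauto
  rw [this]
  exact h1.inter h2

section poly

variable {η y ε x T : ℝ} {m : ℕ} {X : ℕ}

lemma ffx_eq (t : ℝ) : ffx η y ε x T m t
    = 2 / Real.log T * (GD y ε T m ∩ EX x T).indicator (fun t => ‖Dp η T t‖ ^ 2) t := by
  unfold ffx
  by_cases h : t ∈ GD y ε T m ∩ EX x T
  · rw [indicator_of_mem h, indicator_of_mem h]
  · rw [indicator_of_notMem h, indicator_of_notMem h, mul_zero]

lemma GDEX_meas : MeasurableSet (GD y ε T m ∩ EX x T) :=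
  ((GD_closed y ε T m).inter (EX_closed x T)).measurableSet

lemma ffx_LB (h : FS X (dd η T)) (hT : 1 < T) : LB (ffx η y ε x T m) := by
  have h1 := ((sq_LB h).indicator (GDEX_meas (y := y) (ε := ε) (x := x) (T := T)
    (m := m))).const_mul (div_nonneg zero_le_two (Real.log_nonneg hT.le))
  have e : ffx η y ε x T m = fun t => 2 / Real.log T *
      (GD y ε T m ∩ EX x T).indicator (fun t => ‖Dp η T t‖ ^ 2) t := by
    funext t
    exact ffx_eq t
  rw [e]
  exact h1

lemma ffx_le (hT : 1 < T) (t : ℝ) : ffx η y ε x T m t ≤ 2 / Real.log T * ‖Dp η T t‖ ^ 2 := by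
  rw [ffx_eq]
  have := Real.log_pos hT
  gcongr
  exact indicator_le_self' (fun _ _ => by positivity) t

lemma ffx_le_ff (hT : 1 < T) (t : ℝ) : ffx η y ε x T m t ≤ ff η y ε T m t := by
  rw [ffx_eq, ff_eq]
  have := Real.log_pos hT
  have h1 : (GD y ε T m ∩ EX x T).indicator (fun t => ‖Dp η T t‖ ^ 2) t
      ≤ (GD y ε T m).indicator (fun t => ‖Dp η T t‖ ^ 2) t :=
    indicator_le_indicator_of_subset inter_subset_left (fun t => by positivity) t
  exact mul_le_mul_of_nonneg_left h1 (by positivity)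

end poly

section fixed

variable {η y ε T g x : ℝ} {m q : ℕ}

/-- the pointwise inequality -/
lemma pointwise_x (hq : 1 ≤ q) (hm : 1 ≤ m) (hqq : q = qq ε T m) (hg : g = Yt T / ((m : ℝ) * q))
    (hε : 0 < ε) (hεy : ε ≤ y / 8) (hL : 2 ≤ ε * √(La T)) {D : ℝ → ℝ} (hD : ∀ t, 0 ≤ D t) (t : ℝ) :
    {t | NE T m t ∧ (WK T m (y / 2 - 3 * ε) t ∧ TS T m (x - ε) t)}.indicator D t
      ≤ (GD y ε T m ∩ EX x T).indicator D t
      + ∑ j ∈ Finset.range (m * q + 1), {t | 40 * La T < ‖PP ((j : ℝ) * g) t‖}.indicator D t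
      + ∑ i ∈ Finset.range m, (BB T g ε q i).indicator ((AA T g (m * q)).indicator D) t := by
  by_cases hS : t ∈ {t | NE T m t ∧ (WK T m (y / 2 - 3 * ε) t ∧ TS T m (x - ε) t)}
  · have hs : 0 < √(La T) := by
      by_contra hc
      have : √(La T) = 0 := le_antisymm (not_lt.1 hc) (Real.sqrt_nonneg _)
      rw [this, mul_zero] at hL
      linarith
    have hE : t ∈ EX x T := by
      have h1 := (TS_iff T hm _ t).1 hS.2.2
      have h2 := (abs_le.1 (XX_zero t)).2
      rw [div_le_iff₀ hs] at h1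
      show XX (Yt T) t ≤ x * √(La T)
      nlinarith
    have h3 := pointwise (T := T) (ε := ε) (y := y) hq hm hqq hg hε hεy hL hD t
    have hS' : t ∈ {t | NE T m t ∧ WK T m (y / 2 - 3 * ε) t} := ⟨hS.1, hS.2.1⟩
    rw [indicator_of_mem hS'] at h3
    rw [indicator_of_mem hS]
    refine h3.trans ?_
    have h4 : (GD y ε T m ∩ EX x T).indicator D t = (GD y ε T m).indicator D t := by
      by_cases hG : t ∈ GD y ε T m
      · have hGE : t ∈ GD y ε T m ∩ EX x T := ⟨hG, hE⟩
        rw [indicator_of_mem hG, indicator_of_mem hGE]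
      · rw [indicator_of_notMem hG, indicator_of_notMem (fun h => hG h.1)]
    rw [h4]
  · rw [indicator_of_notMem hS]
    have n1 : 0 ≤ (GD y ε T m ∩ EX x T).indicator D t := indicator_nonneg (fun t _ => hD t) t
    have n2 : 0 ≤ ∑ j ∈ Finset.range (m * q + 1),
        {t | 40 * La T < ‖PP ((j : ℝ) * g) t‖}.indicator D t :=
      Finset.sum_nonneg fun j _ => indicator_nonneg (fun t _ => hD t) t
    have n3 : 0 ≤ ∑ i ∈ Finset.range m,
        (BB T g ε q i).indicator ((AA T g (m * q)).indicator D) t :=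
      Finset.sum_nonneg fun i _ =>
        indicator_nonneg (fun t _ => indicator_nonneg (fun t _ => hD t) t) t
    linarith

end fixed

/-- main term -/
lemma main_term_x (hP1 : J_P1x) (hMASS : J_MASS) {η b x : ℝ} {m : ℕ} (hη : 0 < η) (hη1 : η ≤ 1 / 100)
    (hm : 1 ≤ m) {δ : ℝ} (hδ : 0 < δ) : ∀ᶠ T : ℝ in atTop,
    2 * T * ((1 - 4 * η) * gam2 m b x - δ) ≤ 2 / Real.log T * ∫ t in T..(3 * T),
      {t | NE T m t ∧ (WK T m b t ∧ TS T m x t)}.indicator (fun t => ‖Dp η T t‖ ^ 2) t := by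
  have h1 := (hP1 η m b x hη hη1 hm).mul (hMASS η hη hη1)
  have h2 : gam2 m b x * (1 / 2 - 2 * η) - δ / 2 < gam2 m b x * (1 / 2 - 2 * η) := by linarith
  have h3 : ∀ᶠ T : ℝ in atTop, 0 < nm (dd η T) / Real.log T := by
    have := (hMASS η hη hη1).eventually_const_lt (show (0 : ℝ) < 1 / 2 - 2 * η by linarith)
    exact this
  filter_upwards [h1.eventually_const_lt h2, h3, eventually_gt_atTop 1] with T h4 h5 h6
  have hL := Real.log_pos h6
  have hn : 0 < nm (dd η T) := by
    by_contra hc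
    have : nm (dd η T) / Real.log T ≤ 0 := div_nonpos_of_nonpos_of_nonneg (not_lt.1 hc) hL.le
    linarith
  obtain ⟨I, hI⟩ : ∃ I, I = ∫ t in T..(3 * T),
      {t | NE T m t ∧ (WK T m b t ∧ TS T m x t)}.indicator (fun t => ‖Dp η T t‖ ^ 2) t := ⟨_, rfl⟩
  rw [← hI] at h4 ⊢
  have e : I / (2 * T * nm (dd η T)) * (nm (dd η T) / Real.log T) = I / (2 * T * Real.log T) := by
    field_simp
  rw [e, lt_div_iff₀ (by positivity)] at h4
  rw [div_mul_eq_mul_div, le_div_iff₀ hL]
  nlinarith

theorem t_C3x (hP1 : J_P1x) (hFF : J_FF) (hMASS : J_MASS) (hEXC : J_EXC) (hCH : J_CH)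
    (hINC : J_INC) : J_C3x := by
  obtain ⟨C1, hC1, hCH⟩ := hCH
  obtain ⟨C2, hC2, hINC⟩ := hINC
  refine ⟨C1 * C2, by positivity, ?_⟩
  intro η y ε x δ m hη hη1 hy hε hεy hδ hm
  have hM := (hMASS η hη hη1).eventually_le_const (show (1 : ℝ) / 2 - 2 * η < 1 / 2 by linarith)
  filter_upwards [main_term_x hP1 hMASS (b := y / 2 - 3 * ε) (x := x - ε) hη hη1 hm (show 0 < δ / 4 by linarith),
    hFF η hη hη1, mv_one hFF hη hη1, hM, exc_term hEXC hFF hη hη1, hINC η hη hη1, lev_facts hε hm,
    sq_ev (eventually_ge_atTop (2 / ε)), U_small y hη (show 0 < δ / 2 by linarith),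
    La_ev (eventually_ge_atTop 1), eventually_gt_atTop 1,
    Real.tendsto_log_atTop.eventually_ge_atTop (4 / δ), log_le_mul one_pos, UU_le_log y]
    with T hmain hff hmv hmass hexc hinc hlev hsq hU hLa hT hlog hlogT hUlog
  obtain ⟨q, hqq⟩ : ∃ q, q = qq ε T m := ⟨_, rfl⟩
  rw [← hqq] at hlev
  obtain ⟨g, hg⟩ : ∃ g, g = Yt T / ((m : ℝ) * q) := ⟨_, rfl⟩
  rw [← hg] at hlev
  obtain ⟨hq, -, hg1, hmq⟩ := hlev
  have hL := Real.log_pos hT
  have hm' : (0 : ℝ) < m := by exact_mod_cast hm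
  have hq' : (0 : ℝ) < q := by exact_mod_cast hq
  have hYg : Yt T = (m : ℝ) * q * g := by
    rw [hg]
    field_simp
  have hL2 : 2 ≤ ε * √(La T) := by
    rw [div_le_iff₀ hε] at hsq
    linarith
  have hfs := hff.1
  have hD := sq_LB hfs
  have hfLB : LB (ffx η y ε x T m) := ffx_LB hfs hT
  have hGm := GDEX_meas (y := y) (ε := ε) (x := x) (T := T) (m := m)
  have hEm : ∀ j : ℕ, MeasurableSet {t | 40 * La T < ‖PP ((j : ℝ) * g) t‖} := fun j =>
    (isOpen_lt continuous_const (PP_cont _).norm).measurableSet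
  have hAm := (AA_closed T g (m * q)).measurableSet
  have hBm : ∀ i, MeasurableSet (BB T g ε q i) := fun i => (BB_open T g ε q i).measurableSet
  have hT3 : T ≤ 3 * T := by linarith
  -- the integrated inequality
  have I1 : ∫ t in T..(3 * T), {t | NE T m t ∧ (WK T m (y / 2 - 3 * ε) t ∧ TS T m (x - ε) t)}.indicator
      (fun t => ‖Dp η T t‖ ^ 2) t ≤
      (∫ t in T..(3 * T), (GD y ε T m ∩ EX x T).indicator (fun t => ‖Dp η T t‖ ^ 2) t)
      + (∑ j ∈ Finset.range (m * q + 1), ∫ t in T..(3 * T),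
          {t | 40 * La T < ‖PP ((j : ℝ) * g) t‖}.indicator (fun t => ‖Dp η T t‖ ^ 2) t)
      + ∑ i ∈ Finset.range m, ∫ t in T..(3 * T),
          (BB T g ε q i).indicator ((AA T g (m * q)).indicator fun t => ‖Dp η T t‖ ^ 2) t := by
    have i1 := (hD.indicator hGm).ii T (3 * T)
    have i2 : ∀ j ∈ Finset.range (m * q + 1), IntervalIntegrable
        ({t | 40 * La T < ‖PP ((j : ℝ) * g) t‖}.indicator fun t => ‖Dp η T t‖ ^ 2) volume
          T (3 * T) := fun j _ => (hD.indicator (hEm j)).ii T (3 * T)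
    have i3 : ∀ i ∈ Finset.range m, IntervalIntegrable
        ((BB T g ε q i).indicator ((AA T g (m * q)).indicator fun t => ‖Dp η T t‖ ^ 2)) volume
          T (3 * T) := fun i _ => ((hD.indicator hAm).indicator (hBm i)).ii T (3 * T)
    have i2' : IntervalIntegrable (fun t => ∑ j ∈ Finset.range (m * q + 1),
        {t | 40 * La T < ‖PP ((j : ℝ) * g) t‖}.indicator (fun t => ‖Dp η T t‖ ^ 2) t) volume
          T (3 * T) := (LB.sum _ fun j _ => hD.indicator (hEm j)).ii _ _
    have i3' : IntervalIntegrable (fun t => ∑ i ∈ Finset.range m,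
        (BB T g ε q i).indicator ((AA T g (m * q)).indicator fun t => ‖Dp η T t‖ ^ 2) t) volume
          T (3 * T) := (LB.sum _ fun i _ => (hD.indicator hAm).indicator (hBm i)).ii _ _
    rw [← intervalIntegral.integral_finsetSum i2, ← intervalIntegral.integral_finsetSum i3,
      ← intervalIntegral.integral_add i1 i2', ← intervalIntegral.integral_add (i1.add i2') i3']
    refine intervalIntegral.integral_mono_on hT3
      ((hD.indicator (NEWKTS_closed T m (y / 2 - 3 * ε) (x - ε)).measurableSet).ii _ _)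
      ((i1.add i2').add i3') fun t _ => ?_
    exact pointwise_x hq hm hqq hg hε hεy hL2 (fun t => by positivity) t
  -- the exceptional values
  have I2 : ∑ j ∈ Finset.range (m * q + 1), ∫ t in T..(3 * T),
      {t | 40 * La T < ‖PP ((j : ℝ) * g) t‖}.indicator (fun t => ‖Dp η T t‖ ^ 2) t
      ≤ (La T + 1) * (T / Real.log T) := by
    have h1 : ∀ j ∈ Finset.range (m * q + 1), ∫ t in T..(3 * T),
        {t | 40 * La T < ‖PP ((j : ℝ) * g) t‖}.indicator (fun t => ‖Dp η T t‖ ^ 2) t
        ≤ T / Real.log T := by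
      intro j hj
      have hj' : (j : ℝ) ≤ (m : ℝ) * q := by
        have := Finset.mem_range.1 hj
        have h2 : j ≤ m * q := by omega
        exact_mod_cast h2
      refine hexc _ (by positivity) ?_
      rw [hYg]
      gcongr
    refine (Finset.sum_le_sum h1).trans ?_
    rw [Finset.sum_const, Finset.card_range, nsmul_eq_mul]
    push_cast
    gcongr
  -- the blocks
  have I3 : ∑ i ∈ Finset.range m, ∫ t in T..(3 * T),
      (BB T g ε q i).indicator ((AA T g (m * q)).indicator fun t => ‖Dp η T t‖ ^ 2) t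
      ≤ C1 * C2 * T * Real.log T / ((m : ℝ) * ε ^ 4) := by
    have h1 : ∀ i ∈ Finset.range m, ∫ t in T..(3 * T),
        (BB T g ε q i).indicator ((AA T g (m * q)).indicator fun t => ‖Dp η T t‖ ^ 2) t
        ≤ C1 * C2 * T * Real.log T / ((m : ℝ) ^ 2 * ε ^ 4) := fun i hi =>
      block_term hC1 hC2 hCH hfs hε hT hinc hLa hq hm (Finset.mem_range.1 hi) hg hg1
    refine (Finset.sum_le_sum h1).trans (le_of_eq ?_)
    rw [Finset.sum_const, Finset.card_range, nsmul_eq_mul]
    field_simp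
  -- the integral of `ff`
  have I4 : ∫ t in T..(3 * T), ffx η y ε x T m t = 2 / Real.log T *
      ∫ t in T..(3 * T), (GD y ε T m ∩ EX x T).indicator (fun t => ‖Dp η T t‖ ^ 2) t := by
    rw [← intervalIntegral.integral_const_mul]
    refine intervalIntegral.integral_congr fun t _ => ?_
    exact ffx_eq t
  have hU0 := UU_pos y T
  have hU2 : UU y T ≤ 2 * T := by linarith
  have I5 : ∫ t in T..(T + UU y T), ffx η y ε x T m t ≤ δ / 2 * T := by
    have h1 : ∫ t in T..(T + UU y T), ffx η y ε x T m t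
        ≤ ∫ t in T..(T + UU y T), 2 / Real.log T * ‖Dp η T t‖ ^ 2 :=
      intervalIntegral.integral_mono_on (by linarith) (hfLB.ii _ _)
        ((hD.const_mul (by positivity)).ii _ _) fun t _ => ffx_le hT t
    rw [intervalIntegral.integral_const_mul] at h1
    have h2 := hmv T (T + UU y T) (by linarith)
    have h3 : nm (dd η T) ≤ 1 / 2 * Real.log T := by
      rwa [div_le_iff₀ hL] at hmass
    have h4 : 0 ≤ T ^ (1 - 2 * η) := by positivity
    calc ∫ t in T..(T + UU y T), ffx η y ε x T m t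
        ≤ 2 / Real.log T * ((T + UU y T - T + T ^ (1 - 2 * η)) * nm (dd η T)) := by
          refine h1.trans ?_
          gcongr
      _ ≤ 2 / Real.log T * ((T + UU y T - T + T ^ (1 - 2 * η)) * (1 / 2 * Real.log T)) := by
          have : 0 ≤ T + UU y T - T + T ^ (1 - 2 * η) := by linarith
          gcongr
      _ = UU y T + T ^ (1 - 2 * η) := by
          field_simp
          ring
      _ ≤ _ := hU
  have I6 := win_lower hfLB hU0 hU2
  have I7 : ∫ t in T..(3 * T), WWx η y ε x m T t = ∫ t in T..(3 * T), 1 / UU y T *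
      ∫ s in (0 : ℝ)..UU y T, ffx η y ε x T m (t + s) := rfl
  rw [I7]
  refine le_trans ?_ I6
  have I8 := intervalIntegral.integral_add_adjacent_intervals (hfLB.ii T (T + UU y T))
    (hfLB.ii (T + UU y T) (3 * T))
  have J1 : 2 / Real.log T * ((La T + 1) * (T / Real.log T)) ≤ 2 * T * (δ / 4) := by
    have h1 : La T + 1 ≤ Real.log T := by
      have := Real.add_one_le_exp (La T)
      rwa [La_exp (by linarith) hT] at this
    have h2 : 1 ≤ δ / 4 * Real.log T := by
      rw [div_le_iff₀ hδ] at hlog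
      linarith
    calc 2 / Real.log T * ((La T + 1) * (T / Real.log T))
        ≤ 2 / Real.log T * (Real.log T * (T / Real.log T)) := by gcongr
      _ = 2 * T * (1 / Real.log T) := by field_simp
      _ ≤ 2 * T * (δ / 4) := by
        have : 1 / Real.log T ≤ δ / 4 := by
          rw [div_le_iff₀ hL]
          exact h2
        gcongr
  have J2 : 2 / Real.log T * (C1 * C2 * T * Real.log T / ((m : ℝ) * ε ^ 4))
      = 2 * T * (C1 * C2 / ((m : ℝ) * ε ^ 4)) := by
    field_simp
  have J3 : 2 / Real.log T * ∫ t in T..(3 * T), {t | NE T m t ∧ (WK T m (y / 2 - 3 * ε) t ∧ TS T m (x - ε) t)}.indicator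
      (fun t => ‖Dp η T t‖ ^ 2) t ≤ (∫ t in T..(3 * T), ffx η y ε x T m t) + 2 * T * (δ / 4)
        + 2 * T * (C1 * C2 / ((m : ℝ) * ε ^ 4)) := by
    rw [I4]
    calc _ ≤ 2 / Real.log T * ((∫ t in T..(3 * T), (GD y ε T m ∩ EX x T).indicator
            (fun t => ‖Dp η T t‖ ^ 2) t) + (La T + 1) * (T / Real.log T)
            + C1 * C2 * T * Real.log T / ((m : ℝ) * ε ^ 4)) := by
          gcongr
          refine I1.trans ?_
          gcongr
      _ ≤ _ := by
          rw [mul_add, mul_add, J2]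
          linarith
  nlinarith

end Pool.Agent.Q151.EW
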