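import Pool.Agent.Q151.EW.Asy

/-! Upper bound of the second moment of the window means (project EW of helper80, job C4). -/

set_option autoImplicit false

open Filter Topology MeasureTheory Set
open Pool.Agent.Q80.EW

namespace Pool.Agent.Q151.EW

/-! ### the correlation factor -/

lemma Corr_nonneg (y h : ℝ) : 0 ≤ Corr y h := by
  unfold Corr
  refine Finset.prod_nonneg fun p hp => div_nonneg ?_ (by positivity)
  have h1 : (1 : ℝ) ≤ p := by exact_mod_cast (Nat.prime_of_mem_primesBelow hp).one_lt.le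
  have h2 : 1 / (p : ℝ) ^ 2 ≤ 1 := by
    rw [div_le_one (by positivity)]
    nlinarith
  linarith

lemma Corr_cont (y : ℝ) : Continuous (Corr y) := by
  unfold Corr
  refine continuous_finsetProd _ fun p hp => ?_
  have hp1 := Nat.prime_of_mem_primesBelow hp
  have hc : Continuous fun h : ℝ => (p : ℂ) ^ (-((1 : ℂ) + (h : ℂ) * Complex.I)) :=
    Continuous.const_cpow (by fun_prop) (Or.inl (by exact_mod_cast hp1.ne_zero))
  refine continuous_const.div ((continuous_const.sub hc).norm.pow 2) fun h => ?_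
  have h1 : ‖(p : ℂ) ^ (-((1 : ℂ) + (h : ℂ) * Complex.I))‖ < 1 := by
    rw [Complex.norm_natCast_cpow_of_pos hp1.pos]
    have e : (-((1 : ℂ) + (h : ℂ) * Complex.I)).re = -1 := by simp
    rw [e]
    exact Real.rpow_lt_one_of_one_lt_of_neg (by exact_mod_cast hp1.one_lt) (by norm_num)
  have h2 : 0 < ‖1 - (p : ℂ) ^ (-((1 : ℂ) + (h : ℂ) * Complex.I))‖ := by
    have := norm_sub_norm_le (1 : ℂ) ((p : ℂ) ^ (-((1 : ℂ) + (h : ℂ) * Complex.I)))
    rw [norm_one] at this
    linarith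
  positivity

lemma gam_nonneg (m : ℕ) (b : ℝ) : 0 ≤ gam m b := measureReal_nonneg

lemma gam_le_one (m : ℕ) (b : ℝ) : gam m b ≤ 1 := by
  unfold gam gm
  exact measureReal_le_one

/-! ### the good set -/

lemma gd_sub {y ε T : ℝ} {m : ℕ} (hq : 1 ≤ qq ε T m) (hL : 2 ≤ ε / 2 * √(La T)) (hs : 0 < √(La T))
    {t : ℝ} (ht : t ∈ GD y ε T m) : NE T m t ∧ WK T m (y / 2 - ε / 2) t := by
  constructor
  · intro i hi
    have h1 := (ht (i * qq ε T m) (Nat.mul_le_mul_right _ hi)).2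
    rwa [lev _ hq] at h1
  · rw [WK_iff]
    intro k hk
    have h1 := (ht ((k + 1) * qq ε T m) (Nat.mul_le_mul_right _ hk)).1
    rw [lev _ hq] at h1
    have h2 := (abs_le.1 (XX_zero t)).1
    rw [div_le_iff₀ hs]
    nlinarith

/-! ### near points -/

section near

variable {η y ε T : ℝ} {m X : ℕ}

lemma prod_ff_le (hT : 1 < T) {S : Set ℝ} (s x : ℝ) (hS : s ∈ GD y ε T m → s ∈ S) :
    ff η y ε T m s * ff η y ε T m (s + x) ≤ 4 / Real.log T ^ 2 *
      S.indicator (fun s => ‖Dp η T s‖ ^ 2 * ‖Dp η T (s + x)‖ ^ 2) s := by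
  have hL := Real.log_pos hT
  by_cases h : s ∈ GD y ε T m
  · rw [indicator_of_mem (hS h)]
    have h1 := ff_le (η := η) (y := y) (ε := ε) (m := m) hT s
    have h2 := ff_le (η := η) (y := y) (ε := ε) (m := m) hT (s + x)
    have h3 : 0 ≤ ff η y ε T m (s + x) := by
      rw [ff_eq]
      exact mul_nonneg (by positivity) (indicator_nonneg (fun _ _ => by positivity) _)
    calc _ ≤ (2 / Real.log T * ‖Dp η T s‖ ^ 2) * (2 / Real.log T * ‖Dp η T (s + x)‖ ^ 2) := by
          gcongr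
      _ = _ := by
          field_simp
          ring
  · have h0 : ff η y ε T m s = 0 := by
      unfold ff
      exact indicator_of_notMem h _
    rw [h0, zero_mul]
    exact mul_nonneg (by positivity) (indicator_nonneg (fun _ _ => by positivity) _)

/-- the same for two points -/
lemma prod_ff_le2 (hT : 1 < T) {S : Set ℝ} (s x : ℝ)
    (hS : s ∈ GD y ε T m → s + x ∈ GD y ε T m → s ∈ S) :
    ff η y ε T m s * ff η y ε T m (s + x) ≤ 4 / Real.log T ^ 2 *
      S.indicator (fun s => ‖Dp η T s‖ ^ 2 * ‖Dp η T (s + x)‖ ^ 2) s := by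
  have hL := Real.log_pos hT
  by_cases h : s ∈ GD y ε T m ∧ s + x ∈ GD y ε T m
  · exact prod_ff_le hT s x fun _ => hS h.1 h.2
  · have h0 : ff η y ε T m s * ff η y ε T m (s + x) = 0 := by
      rw [not_and_or] at h
      rcases h with h | h
      · have : ff η y ε T m s = 0 := indicator_of_notMem h _
        rw [this, zero_mul]
      · have : ff η y ε T m (s + x) = 0 := indicator_of_notMem h _
        rw [this, mul_zero]
    rw [h0]
    exact mul_nonneg (by positivity) (indicator_nonneg (fun _ _ => by positivity) _)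

lemma two_LB (h : FS X (dd η T)) (x : ℝ) :
    LB fun s => ‖Dp η T s‖ ^ 2 * ‖Dp η T (s + x)‖ ^ 2 :=
  (sq_LB h).mul ((sq_LB h).shift x)

/-- the bound of the correlation at near points -/
lemma near_bd {C : ℝ} (hC : 0 < C) (hfs : FS X (dd η T)) (hT : 1 < T)
    (hnr : ∀ a b h β : ℝ, 0 ≤ a → a ≤ b → b ≤ Yt T → 0 ≤ h → h ≤ 1 →
      (Real.exp (-b) ≤ h ∨ b = Yt T) →
      ∫ t in T..(4 * T), Set.indicator {t | XX a t ≤ β ∧ ‖PP a t‖ ≤ 40 * La T}
        (fun t => ‖Dp η T t‖ ^ 2 * ‖Dp η T (t + h)‖ ^ 2) t ≤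
      C * T * Real.log T ^ 2 * La T ^ 4 * Real.exp (a + 2 * (b - a) + 2 * β))
    (hU : UU y T ≤ T) {j : ℕ} (hj : j ≤ m * qq ε T m) {a b h : ℝ}
    (ha : a = (j : ℝ) * (Yt T / ((m : ℝ) * qq ε T m))) (ha0 : 0 ≤ a) (hab : a ≤ b) (hb : b ≤ Yt T)
    (h0 : 0 ≤ h) (h1 : h ≤ 1) (hh : Real.exp (-b) ≤ h ∨ b = Yt T) :
    JJ (ff η y ε T m) T (UU y T) h ≤ 4 * C * T * La T ^ 4 *
      Real.exp (a + 2 * (b - a) + 2 * ((y / 2 - ε) * √(La T))) := by
  have hL := Real.log_pos hT
  have hf : LB (ff η y ε T m) := ff_LB hfs hT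
  have hS : MeasurableSet {t | XX a t ≤ (y / 2 - ε) * √(La T) ∧ ‖PP a t‖ ≤ 40 * La T} :=
    ((isClosed_le (XX_cont _) continuous_const).inter
      (isClosed_le (PP_cont _).norm continuous_const)).measurableSet
  have hU0 := UU_pos y T
  have hLB := (two_LB hfs h).indicator hS
  have h2 : JJ (ff η y ε T m) T (UU y T) h ≤ ∫ s in T..(3 * T + UU y T), 4 / Real.log T ^ 2 *
      {t | XX a t ≤ (y / 2 - ε) * √(La T) ∧ ‖PP a t‖ ≤ 40 * La T}.indicator
        (fun s => ‖Dp η T s‖ ^ 2 * ‖Dp η T (s + h)‖ ^ 2) s := by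
    refine intervalIntegral.integral_mono_on (by linarith) ((hf.mul (hf.shift h)).ii _ _)
      ((hLB.ii _ _).const_mul _) fun s _ => ?_
    refine prod_ff_le hT s h fun hs => ?_
    have := hs j hj
    rw [← ha] at this
    exact this
  rw [intervalIntegral.integral_const_mul] at h2
  have h3 := hLB.mono_int le_rfl (show T ≤ 3 * T + UU y T by linarith)
    (show 3 * T + UU y T ≤ 4 * T by linarith)
  have h4 := hnr a b h ((y / 2 - ε) * √(La T)) ha0 hab hb h0 h1 hh
  calc JJ (ff η y ε T m) T (UU y T) h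
      ≤ 4 / Real.log T ^ 2 * (C * T * Real.log T ^ 2 * La T ^ 4 *
        Real.exp (a + 2 * (b - a) + 2 * ((y / 2 - ε) * √(La T)))) := by
        refine h2.trans ?_
        gcongr
        exact h3.trans h4
    _ = _ := by
        field_simp

/-- the integral over the near points -/
lemma near_int {C : ℝ} (hC : 0 < C) (hfs : FS X (dd η T)) (hT : 1 < T)
    (hnr : ∀ a b h β : ℝ, 0 ≤ a → a ≤ b → b ≤ Yt T → 0 ≤ h → h ≤ 1 →
      (Real.exp (-b) ≤ h ∨ b = Yt T) →
      ∫ t in T..(4 * T), Set.indicator {t | XX a t ≤ β ∧ ‖PP a t‖ ≤ 40 * La T}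
        (fun t => ‖Dp η T t‖ ^ 2 * ‖Dp η T (t + h)‖ ^ 2) t ≤
      C * T * Real.log T ^ 2 * La T ^ 4 * Real.exp (a + 2 * (b - a) + 2 * β))
    (hU : UU y T ≤ T) (hm : 1 ≤ m) (hq : 1 ≤ qq ε T m) (hLa : 1 ≤ La T)
    (hg : Yt T / ((m : ℝ) * qq ε T m) ≤ ε / 4 * √(La T))
    (hg1 : 1 ≤ Yt T / ((m : ℝ) * qq ε T m)) :
    ∫ h in (0 : ℝ)..1, JJ (ff η y ε T m) T (UU y T) h ≤ 4 * C * T * La T ^ 4 *
      Real.exp ((y - 3 / 2 * ε) * √(La T)) * (1 + La T) := by
  obtain ⟨g, hgdef⟩ : ∃ g, g = Yt T / ((m : ℝ) * qq ε T m) := ⟨_, rfl⟩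
  rw [← hgdef] at hg hg1
  have hm' : (0 : ℝ) < m := by exact_mod_cast hm
  have hq' : (0 : ℝ) < qq ε T m := by exact_mod_cast hq
  have hYg : Yt T = (m : ℝ) * qq ε T m * g := by
    rw [hgdef]
    field_simp
  have hs : 0 ≤ √(La T) := Real.sqrt_nonneg _
  have hY0 : 0 < Yt T := by
    rw [hYg]
    positivity
  have hYL := Yt_le hLa
  have hU0 := UU_pos y T
  have hf : LB (ff η y ε T m) := ff_LB hfs hT
  have hJ : LB (JJ (ff η y ε T m) T (UU y T)) := JJ_LB hf hU0.le (by linarith)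
  obtain ⟨B, hB⟩ : ∃ B, B = 4 * C * T * La T ^ 4 * Real.exp ((y - 3 / 2 * ε) * √(La T)) := ⟨_, rfl⟩
  have hB0 : 0 < B := by
    rw [hB]
    positivity
  rw [← hB]
  have he : Real.exp (-Yt T) ≤ 1 := by
    rw [Real.exp_le_one_iff]
    linarith
  have he0 := Real.exp_pos (-Yt T)
  -- very near points
  have p1 : ∀ h ∈ Icc 0 (Real.exp (-Yt T)), JJ (ff η y ε T m) T (UU y T) h ≤ B * Real.exp (Yt T) := by
    intro h hh
    have h1 := near_bd (y := y) (ε := ε) (m := m) hC hfs hT hnr hU (j := m * qq ε T m) le_rfl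
      (a := Yt T) (b := Yt T) (h := h) ?_ hY0.le le_rfl le_rfl hh.1 (hh.2.trans he) (Or.inr rfl)
    · refine h1.trans ?_
      rw [hB, mul_assoc (4 * C * T * La T ^ 4), ← Real.exp_add]
      have : Yt T + 2 * (Yt T - Yt T) + 2 * ((y / 2 - ε) * √(La T))
          ≤ (y - 3 / 2 * ε) * √(La T) + Yt T := by nlinarith
      gcongr
    · rw [← hgdef, hYg]
      push_cast
      ring
  -- near points
  have p2 : ∀ h ∈ Icc (Real.exp (-Yt T)) 1, JJ (ff η y ε T m) T (UU y T) h ≤ B * h⁻¹ := by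
    intro h hh
    have hh0 : 0 < h := he0.trans_le hh.1
    obtain ⟨l, hl⟩ : ∃ l, l = -Real.log h := ⟨_, rfl⟩
    have hel : Real.exp (-l) = h := by
      rw [hl, neg_neg, Real.exp_log hh0]
    have hl0 : 0 ≤ l := by
      rw [hl]
      have := Real.log_nonpos hh0.le hh.2
      linarith
    have hlY : l ≤ Yt T := by
      have := Real.log_le_log he0 hh.1
      rw [Real.log_exp] at this
      rw [hl]
      linarith
    have hg0 : 0 < g := by linarith
    obtain ⟨j, hj⟩ : ∃ j, j = ⌊l / g⌋₊ := ⟨_, rfl⟩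
    have hj1 : (j : ℝ) * g ≤ l := by
      have := Nat.floor_le (show 0 ≤ l / g by positivity)
      rw [← hj, le_div_iff₀ hg0] at this
      exact this
    have hj2 : l < ((j : ℝ) + 1) * g := by
      have := Nat.lt_floor_add_one (l / g)
      rw [← hj, div_lt_iff₀ hg0] at this
      exact this
    have hjM : j ≤ m * qq ε T m := by
      have h2 : (j : ℝ) * g ≤ (m : ℝ) * qq ε T m * g := by
        rw [← hYg]
        linarith
      have h3 : (j : ℝ) ≤ (m : ℝ) * qq ε T m := le_of_mul_le_mul_right h2 hg0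
      exact_mod_cast h3
    have h1 := near_bd (y := y) (ε := ε) (m := m) hC hfs hT hnr hU hjM
      (a := (j : ℝ) * g) (b := l) (h := h) (by rw [← hgdef]) (by positivity) hj1 hlY hh0.le hh.2
      (Or.inl hel.le)
    refine h1.trans ?_
    have e1 : h⁻¹ = Real.exp l := by
      rw [← hel, Real.exp_neg, inv_inv]
    rw [hB, e1, mul_assoc (4 * C * T * La T ^ 4), ← Real.exp_add]
    have : (j : ℝ) * g + 2 * (l - (j : ℝ) * g) + 2 * ((y / 2 - ε) * √(La T))
        ≤ (y - 3 / 2 * ε) * √(La T) + l := by nlinarith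
    gcongr
  rw [← intervalIntegral.integral_add_adjacent_intervals (hJ.ii 0 (Real.exp (-Yt T)))
    (hJ.ii (Real.exp (-Yt T)) 1)]
  have q1 : ∫ h in (0 : ℝ)..(Real.exp (-Yt T)), JJ (ff η y ε T m) T (UU y T) h ≤ B := by
    have := intervalIntegral.integral_mono_on he0.le (hJ.ii _ _)
      (g := fun _ => B * Real.exp (Yt T)) (by simp) p1
    rw [intervalIntegral.integral_const, sub_zero, smul_eq_mul] at this
    refine this.trans (le_of_eq ?_)
    rw [Real.exp_neg]
    have := Real.exp_pos (Yt T)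
    field_simp
  have q2 : ∫ h in (Real.exp (-Yt T))..1, JJ (ff η y ε T m) T (UU y T) h ≤ B * La T := by
    have hii : IntervalIntegrable (fun h : ℝ => B * h⁻¹) volume (Real.exp (-Yt T)) 1 := by
      refine ContinuousOn.intervalIntegrable fun h hh => ?_
      have : h ≠ 0 := by
        have h5 : min (Real.exp (-Yt T)) 1 ≤ h := hh.1
        rw [min_eq_left he] at h5
        linarith [he0.trans_le h5]
      exact (continuousAt_const.mul (continuousAt_inv₀ this)).continuousWithinAt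
    have := intervalIntegral.integral_mono_on he (hJ.ii _ _) hii p2
    rw [intervalIntegral.integral_const_mul, integral_inv_of_pos he0 one_pos] at this
    refine this.trans ?_
    rw [one_div, Real.log_inv, Real.log_exp, neg_neg]
    gcongr
  linarith

end near

/-! ### far points -/

section far

variable {η y ε T : ℝ} {m X : ℕ}

lemma far_bd {δ : ℝ} (hδ : 0 < δ) (hfs : FS X (dd η T)) (hT : 1 < T)
    (hq : 1 ≤ qq ε T m) (hL2 : 2 ≤ ε / 2 * √(La T)) (hs : 0 < √(La T)) {x : ℝ}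
    (hp2 : ∫ t in T..(3 * T), Set.indicator {t | (NE T m t ∧ WK T m (y / 2 - ε / 2) t) ∧
      (NE T m (t + x) ∧ WK T m (y / 2 - ε / 2) (t + x))}
      (fun t => ‖Dp η T t‖ ^ 2 * ‖Dp η T (t + x)‖ ^ 2) t ≤
      2 * T * ((1 / 2 - 2 * η) * Real.log T) ^ 2 * Corr (Yt T) x * (gam m (y / 2 - ε / 2) ^ 2 + δ))
    (hmv : ∫ t in (3 * T)..(3 * T + UU y T), ‖Dp η T t‖ ^ 2 * ‖Dp η T (t + x)‖ ^ 2
      ≤ (3 * T + UU y T - 3 * T + T ^ (1 - 2 * η)) * nm (dd η T * sh x (dd η T)))
    (hm2 : nm (dd η T * sh x (dd η T)) ≤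
      (1 + 1) * ((1 / 2 - 2 * η) * Real.log T) ^ 2 * Corr (Yt T) x)
    (hU : UU y T + T ^ (1 - 2 * η) ≤ δ * T) :
    JJ (ff η y ε T m) T (UU y T) x ≤ 2 * T * (1 - 4 * η) ^ 2 * (gam m (y / 2 - ε / 2) ^ 2 + 2 * δ)
      * Corr (Yt T) x := by
  have hL := Real.log_pos hT
  have hU0 := UU_pos y T
  have hf : LB (ff η y ε T m) := ff_LB hfs hT
  have hff := hf.mul (hf.shift x)
  have hc := Corr_nonneg (Yt T) x
  have hS : MeasurableSet {t | (NE T m t ∧ WK T m (y / 2 - ε / 2) t) ∧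
      (NE T m (t + x) ∧ WK T m (y / 2 - ε / 2) (t + x))} := by
    have h1 := (NEWK_closed T m (y / 2 - ε / 2)).measurableSet
    exact h1.inter (h1.preimage (measurable_id.add_const x))
  have hLB := (two_LB hfs x).indicator hS
  have e1 : JJ (ff η y ε T m) T (UU y T) x = (∫ s in T..(3 * T), ff η y ε T m s * ff η y ε T m (s + x))
      + ∫ s in (3 * T)..(3 * T + UU y T), ff η y ε T m s * ff η y ε T m (s + x) :=
    (intervalIntegral.integral_add_adjacent_intervals (hff.ii _ _) (hff.ii _ _)).symm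
  have a1 : ∫ s in T..(3 * T), ff η y ε T m s * ff η y ε T m (s + x) ≤
      2 * T * (1 - 4 * η) ^ 2 * (gam m (y / 2 - ε / 2) ^ 2 + δ) * Corr (Yt T) x := by
    have h1 := intervalIntegral.integral_mono_on (show T ≤ 3 * T by linarith) (hff.ii _ _)
      ((hLB.ii T (3 * T)).const_mul (4 / Real.log T ^ 2)) fun s _ =>
        prod_ff_le2 (η := η) (y := y) (ε := ε) (m := m) hT s x
          fun h1 h2 => ⟨gd_sub hq hL2 hs h1, gd_sub hq hL2 hs h2⟩
    rw [intervalIntegral.integral_const_mul] at h1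
    calc _ ≤ 4 / Real.log T ^ 2 * (2 * T * ((1 / 2 - 2 * η) * Real.log T) ^ 2 * Corr (Yt T) x *
          (gam m (y / 2 - ε / 2) ^ 2 + δ)) := by
          refine h1.trans ?_
          gcongr
      _ = _ := by
          field_simp
          ring
  have a2 : ∫ s in (3 * T)..(3 * T + UU y T), ff η y ε T m s * ff η y ε T m (s + x) ≤
      2 * T * (1 - 4 * η) ^ 2 * δ * Corr (Yt T) x := by
    have h1 := intervalIntegral.integral_mono_on (show 3 * T ≤ 3 * T + UU y T by linarith)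
      (hff.ii _ _) (((two_LB hfs x).ii (3 * T) (3 * T + UU y T)).const_mul (4 / Real.log T ^ 2))
        fun s _ => by
          have := prod_ff_le (η := η) (y := y) (ε := ε) (m := m) (S := univ) hT s x
            fun _ => mem_univ _
          rwa [indicator_univ] at this
    rw [intervalIntegral.integral_const_mul] at h1
    have h2 : 0 ≤ T ^ (1 - 2 * η) := by positivity
    have h3 : 0 ≤ 3 * T + UU y T - 3 * T + T ^ (1 - 2 * η) := by linarith
    calc _ ≤ 4 / Real.log T ^ 2 * ((3 * T + UU y T - 3 * T + T ^ (1 - 2 * η)) *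
          ((1 + 1) * ((1 / 2 - 2 * η) * Real.log T) ^ 2 * Corr (Yt T) x)) := by
          refine h1.trans ?_
          gcongr
          refine hmv.trans ?_
          gcongr
      _ = 2 * (UU y T + T ^ (1 - 2 * η)) * (1 - 4 * η) ^ 2 * Corr (Yt T) x := by
          field_simp
          ring
      _ ≤ 2 * (δ * T) * (1 - 4 * η) ^ 2 * Corr (Yt T) x := by gcongr
      _ = _ := by ring
  rw [e1]
  calc _ ≤ 2 * T * (1 - 4 * η) ^ 2 * (gam m (y / 2 - ε / 2) ^ 2 + δ) * Corr (Yt T) x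
        + 2 * T * (1 - 4 * η) ^ 2 * δ * Corr (Yt T) x := add_le_add a1 a2
    _ = _ := by ring

end far

/-- the average of the correlation factor -/
lemma corr_av (hAV : J_AV) {y δ : ℝ} (hy : 0 < y) (hδ : 0 < δ) : ∀ᶠ T : ℝ in atTop,
    ∀ x : ℝ, 1 ≤ x → x ≤ UU y T →
      ∫ h in (1 : ℝ)..x, Corr (Yt T) h ≤ (1 + δ) * (x + Real.exp (y / 2 * √(La T))) := by
  filter_upwards [Yt_lim.eventually (hAV (2 * y) (y / 2) δ (by positivity) hδ), Yt_ge,
    La_ev (eventually_ge_atTop 1)] with T h1 h2 h3 x hx hxU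
  have hYL := Yt_le h3
  have hY : 0 < Yt T := by linarith
  obtain ⟨x0, hx0⟩ : ∃ x0, x0 = Real.exp (y / 2 * √(Yt T)) := ⟨_, rfl⟩
  rw [← hx0] at h1
  have hx01 : x0 ≤ Real.exp (y / 2 * √(La T)) := by
    rw [hx0]
    apply Real.exp_le_exp.2
    have := Real.sqrt_le_sqrt hYL
    gcongr
  have hx0p : 0 < x0 := by
    rw [hx0]
    exact Real.exp_pos _
  have hx02 : x0 ≤ Real.exp (2 * y * √(Yt T)) := by
    rw [hx0]
    apply Real.exp_le_exp.2
    have := Real.sqrt_nonneg (Yt T)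
    nlinarith
  have hx03 : 1 ≤ x0 := by
    rw [hx0]
    exact Real.one_le_exp (by positivity)
  rcases le_total x0 x with h | h
  · have h4 := h1 x h (hxU.trans ?_)
    · refine h4.trans ?_
      have : 0 < Real.exp (y / 2 * √(La T)) := Real.exp_pos _
      gcongr
      linarith
    · unfold UU
      apply Real.exp_le_exp.2
      have h5 : √(La T) ≤ 2 * √(Yt T) := by
        rw [show (2 : ℝ) * √(Yt T) = √(4 * Yt T) by
          rw [Real.sqrt_mul (by norm_num), show (4 : ℝ) = 2 ^ 2 by norm_num,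
            Real.sqrt_sq (by norm_num)]]
        apply Real.sqrt_le_sqrt
        linarith
      calc y * √(La T) ≤ y * (2 * √(Yt T)) := by gcongr
        _ = _ := by ring
  · have h4 := h1 x0 le_rfl hx02
    have h5 : ∫ h in (1 : ℝ)..x, Corr (Yt T) h ≤ ∫ h in (1 : ℝ)..x0, Corr (Yt T) h :=
      intervalIntegral.integral_mono_interval le_rfl hx h
        (Eventually.of_forall fun h => Corr_nonneg _ h) ((Corr_cont _).intervalIntegrable _ _)
    refine (h5.trans h4).trans ?_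
    gcongr
    linarith

/-- a decaying factor -/
lemma decay {c δ : ℝ} (hc : 0 < c) (hδ : 0 < δ) : ∀ᶠ T : ℝ in atTop,
    La T ^ 4 * (1 + La T) * Real.exp (-(c * √(La T))) ≤ δ := by
  have h1 : Tendsto (fun s : ℝ => s ^ (8 : ℝ) * Real.exp (-c * s)) atTop (𝓝 0) :=
    tendsto_rpow_mul_exp_neg_mul_atTop_nhds_zero 8 c hc
  have h2 : Tendsto (fun s : ℝ => s ^ (10 : ℝ) * Real.exp (-c * s)) atTop (𝓝 0) :=
    tendsto_rpow_mul_exp_neg_mul_atTop_nhds_zero 10 c hc
  have h3 := h1.add h2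
  rw [add_zero] at h3
  filter_upwards [sq_ev (h3.eventually_le_const hδ), La_ev (eventually_ge_atTop 0),
    sq_ev (eventually_gt_atTop 0)] with T h4 h5 h6
  refine le_trans (le_of_eq ?_) h4
  have e8 : √(La T) ^ (8 : ℝ) = La T ^ 4 := by
    rw [show (8 : ℝ) = ((8 : ℕ) : ℝ) by norm_num, Real.rpow_natCast,
      show √(La T) ^ 8 = (√(La T) ^ 2) ^ 4 by ring, Real.sq_sqrt h5]
  have e10 : √(La T) ^ (10 : ℝ) = La T ^ 5 := by
    rw [show (10 : ℝ) = ((10 : ℕ) : ℝ) by norm_num, Real.rpow_natCast,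
      show √(La T) ^ 10 = (√(La T) ^ 2) ^ 5 by ring, Real.sq_sqrt h5]
  rw [e8, e10, show -c * √(La T) = -(c * √(La T)) by ring]
  ring

theorem t_C4 (hNR : J_NR) (hP2 : J_P2) (hFF : J_FF) (hM2 : J_M2) (hAV : J_AV) : J_C4 := by
  obtain ⟨C, hC, hNR⟩ := hNR
  intro η y ε δ m hη hη1 hy hε hδ hm
  obtain ⟨δ', hδ'⟩ : ∃ δ', δ' = min 1 (δ / 22) := ⟨_, rfl⟩
  have hδ0 : 0 < δ' := by
    rw [hδ']
    positivity
  have hδ1 : δ' ≤ 1 := by
    rw [hδ']
    exact min_le_left _ _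
  have hδ2 : δ' ≤ δ / 22 := by
    rw [hδ']
    exact min_le_right _ _
  filter_upwards [hNR η hη hη1, hP2 η m (y / 2 - ε / 2) y δ' hη hη1 hm hδ0, hFF η hη hη1,
    mv_two hFF hη hη1, hM2 η y 1 hη hη1 one_pos, corr_av hAV hy hδ0, lev_facts hε hm,
    decay (show 0 < 3 / 2 * ε by positivity) (show 0 < δ / (16 * C) by positivity),
    sq_ev (eventually_ge_atTop (4 / ε)), U_small y hη hδ0, La_ev (eventually_ge_atTop 1),
    eventually_gt_atTop 1, sq_ev ((tendsto_rpow_mul_exp_neg_mul_atTop_nhds_zero 0 (y / 2)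
      (by positivity)).eventually_le_const (show 0 < δ' / 2 by positivity))]
    with T hnr hp2 hff hmv hm2 hav hlev hdec hsq hU hLa hT hx0
  obtain ⟨hq, hg, hg1, -⟩ := hlev
  have hL := Real.log_pos hT
  have hfs := hff.1
  have hU0 := UU_pos y T
  have hU1 : 1 ≤ UU y T := UU_ge_one hy.le T
  have hs : 0 < √(La T) := Real.sqrt_pos.2 (by linarith)
  have hL2 : 2 ≤ ε / 2 * √(La T) := by
    rw [div_le_iff₀ hε] at hsq
    linarith
  have hUT : UU y T ≤ T := by
    have h1 : 0 ≤ T ^ (1 - 2 * η) := by positivity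
    nlinarith
  have hf : LB (ff η y ε T m) := ff_LB hfs hT
  have hJ : LB (JJ (ff η y ε T m) T (UU y T)) := JJ_LB hf hU0.le (by linarith)
  obtain ⟨G, hG⟩ : ∃ G, G = gam m (y / 2 - ε / 2) := ⟨_, rfl⟩
  have hG0 : 0 ≤ G := by rw [hG]; exact gam_nonneg _ _
  have hG1 : G ≤ 1 := by rw [hG]; exact gam_le_one _ _
  -- near
  obtain ⟨K1, hK1⟩ : ∃ K1, K1 = ∫ h in (0 : ℝ)..1, JJ (ff η y ε T m) T (UU y T) h := ⟨_, rfl⟩
  have hK10 : 0 ≤ K1 := by
    rw [hK1]
    exact hJ.int_nonneg zero_le_one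
  have b1 : K1 ≤ T * UU y T * δ / 4 := by
    have h1 := near_int (y := y) (ε := ε) (m := m) hC hfs hT hnr hUT hm hq hLa hg hg1
    rw [← hK1] at h1
    have h2 : Real.exp ((y - 3 / 2 * ε) * √(La T))
        = Real.exp (-(3 / 2 * ε * √(La T))) * UU y T := by
      unfold UU
      rw [← Real.exp_add]
      congr 1
      ring
    rw [h2] at h1
    calc K1 ≤ 4 * C * T * La T ^ 4 * (Real.exp (-(3 / 2 * ε * √(La T))) * UU y T) * (1 + La T) := h1
      _ = 4 * C * T * UU y T * (La T ^ 4 * (1 + La T) * Real.exp (-(3 / 2 * ε * √(La T)))) := by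
          ring
      _ ≤ 4 * C * T * UU y T * (δ / (16 * C)) := by gcongr
      _ = _ := by
          field_simp
          ring
  -- far
  obtain ⟨A, hA⟩ : ∃ A, A = 2 * T * (1 - 4 * η) ^ 2 * (G ^ 2 + 2 * δ') := ⟨_, rfl⟩
  have hA0 : 0 ≤ A := by
    rw [hA]
    positivity
  have b2 : ∀ x ∈ Icc 1 (UU y T), JJ (ff η y ε T m) T (UU y T) x ≤ A * Corr (Yt T) x := by
    intro x hx
    rw [hA, hG]
    exact far_bd hδ0 hfs hT hq hL2 hs (hp2 x hx.1 hx.2)
      (hmv x (3 * T) (3 * T + UU y T) (by linarith)) (hm2 x hx.1 hx.2) hU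
  obtain ⟨x1, hx1⟩ : ∃ x1, x1 = Real.exp (y / 2 * √(La T)) := ⟨_, rfl⟩
  rw [← hx1] at hav
  have hx10 : 0 < x1 := by
    rw [hx1]
    exact Real.exp_pos _
  have b3 : ∀ x ∈ Icc 0 (UU y T), ∫ h in (0 : ℝ)..x, JJ (ff η y ε T m) T (UU y T) h
      ≤ K1 + A * (1 + δ') * (x + x1) := by
    intro x hx
    rcases le_total x 1 with h | h
    · have h1 := hJ.mono_int (le_refl (0 : ℝ)) hx.1 h
      rw [← hK1] at h1
      have h2 : 0 ≤ A * (1 + δ') * (x + x1) := by
        have := hx.1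
        positivity
      linarith
    · rw [← intervalIntegral.integral_add_adjacent_intervals (hJ.ii 0 1) (hJ.ii 1 x), ← hK1]
      have h1 : ∫ t in (1 : ℝ)..x, JJ (ff η y ε T m) T (UU y T) t
          ≤ ∫ t in (1 : ℝ)..x, A * Corr (Yt T) t :=
        intervalIntegral.integral_mono_on h (hJ.ii _ _)
          ((continuous_const.mul (Corr_cont _)).intervalIntegrable _ _)
          fun t ht => b2 t ⟨ht.1, ht.2.trans hx.2⟩
      rw [intervalIntegral.integral_const_mul] at h1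
      have h2 := hav x h hx.2
      have h3 : A * ∫ t in (1 : ℝ)..x, Corr (Yt T) t ≤ A * ((1 + δ') * (x + x1)) := by gcongr
      linarith
  -- the double integral
  have cK : Continuous fun x => ∫ h in (0 : ℝ)..x, JJ (ff η y ε T m) T (UU y T) h :=
    intervalIntegral.continuous_primitive (fun a b => hJ.ii a b) 0
  have b4 : ∫ x in (0 : ℝ)..UU y T, ∫ h in (0 : ℝ)..x, JJ (ff η y ε T m) T (UU y T) h
      ≤ K1 * UU y T + A * (1 + δ') * (UU y T ^ 2 / 2 + x1 * UU y T) := by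
    have c1 : Continuous fun x : ℝ => A * (1 + δ') * (x + x1) := by fun_prop
    have c2 : Continuous fun x : ℝ => K1 + A * (1 + δ') * (x + x1) := by fun_prop
    have c3 : Continuous fun x : ℝ => x := continuous_id
    have h1 := intervalIntegral.integral_mono_on (μ := volume) hU0.le
      (cK.intervalIntegrable 0 (UU y T)) (c2.intervalIntegrable 0 (UU y T)) b3
    refine h1.trans (le_of_eq ?_)
    rw [intervalIntegral.integral_add (continuous_const.intervalIntegrable _ _)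
      (c1.intervalIntegrable _ _), intervalIntegral.integral_const,
      intervalIntegral.integral_const_mul, intervalIntegral.integral_add
      (c3.intervalIntegrable _ _) (continuous_const.intervalIntegrable _ _),
      intervalIntegral.integral_const, integral_id, smul_eq_mul, smul_eq_mul]
    ring
  have b5 := win_upper hf hU0 (show 0 ≤ T by linarith)
  have e5 : ∫ t in T..(3 * T), WW η y ε m T t ^ 2 = ∫ t in T..(3 * T), (1 / UU y T *
      ∫ s in (0 : ℝ)..UU y T, ff η y ε T m (t + s)) ^ 2 := rfl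
  rw [e5, ← hG]
  refine b5.trans ?_
  have b6 : x1 / UU y T ≤ δ' / 2 := by
    have : x1 / UU y T = √(La T) ^ (0 : ℝ) * Real.exp (-(y / 2) * √(La T)) := by
      rw [hx1, Real.rpow_zero, one_mul]
      unfold UU
      rw [← Real.exp_sub]
      congr 1
      ring
    rw [this]
    exact hx0
  have b7 : (G ^ 2 + 2 * δ') * (1 + δ') ^ 2 ≤ G ^ 2 + δ / 2 := by
    have h1 : G ^ 2 ≤ 1 := by nlinarith
    have h2 : G ^ 2 * (2 * δ' + δ' ^ 2) ≤ 1 * (2 * δ' + δ' ^ 2) := by gcongr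
    have h3 : (1 + δ') ^ 2 ≤ 4 := by nlinarith
    have h4 : 2 * δ' * (1 + δ') ^ 2 ≤ 2 * δ' * 4 := by gcongr
    nlinarith
  have b8 : (1 - 4 * η) ^ 2 ≤ 1 := by nlinarith
  have b9 : 0 ≤ (1 - 4 * η) ^ 2 := by positivity
  calc 2 / UU y T ^ 2 * ∫ x in (0 : ℝ)..UU y T, ∫ h in (0 : ℝ)..x, JJ (ff η y ε T m) T (UU y T) h
      ≤ 2 / UU y T ^ 2 * (K1 * UU y T + A * (1 + δ') * (UU y T ^ 2 / 2 + x1 * UU y T)) := by gcongr
    _ = 2 * K1 / UU y T + A * (1 + δ') * (1 + 2 * (x1 / UU y T)) := by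
        field_simp
    _ ≤ 2 * (T * UU y T * δ / 4) / UU y T + A * (1 + δ') * (1 + 2 * (δ' / 2)) := by gcongr
    _ = 2 * T * (δ / 4 + (1 - 4 * η) ^ 2 * ((G ^ 2 + 2 * δ') * (1 + δ') ^ 2)) := by
        have e9 : 2 * (T * UU y T * δ / 4) / UU y T = 2 * T * (δ / 4) := by
          field_simp
        rw [hA, e9]
        ring
    _ ≤ 2 * T * (δ / 4 + (1 - 4 * η) ^ 2 * (G ^ 2 + δ / 2)) := by gcongr
    _ ≤ 2 * T * ((1 - 4 * η) ^ 2 * G ^ 2 + δ) := by
        have : (1 - 4 * η) ^ 2 * (δ / 2) ≤ 1 * (δ / 2) := by gcongr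
        have h2 : δ / 4 + (1 - 4 * η) ^ 2 * (G ^ 2 + δ / 2) ≤ (1 - 4 * η) ^ 2 * G ^ 2 + δ := by
          nlinarith
        gcongr

end Pool.Agent.Q151.EW
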