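import Pool.Agent.Q151.EW.C3x
import Pool.Agent.Q151.EW.C4

/-! Upper bound of the second moment of the window means with the end point restricted
(project EWX of helper80, job C4x). -/

set_option autoImplicit false

open Filter Topology MeasureTheory Set
open Pool.Agent.Q80.EW

namespace Pool.Agent.Q151.EW

lemma gam2_nonneg (m : ℕ) (b x : ℝ) : 0 ≤ gam2 m b x := measureReal_nonneg

lemma gam2_le_one (m : ℕ) (b x : ℝ) : gam2 m b x ≤ 1 := by
  unfold gam2 gm
  exact measureReal_le_one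

lemma gd_sub_x {y ε x T : ℝ} {m : ℕ} (hm : 1 ≤ m) (hq : 1 ≤ qq ε T m)
    (hL : 2 ≤ ε / 2 * √(La T)) (hs : 0 < √(La T)) {t : ℝ} (ht : t ∈ GD y ε T m ∩ EX x T) :
    NE T m t ∧ (WK T m (y / 2 - ε / 2) t ∧ TS T m (x + ε) t) := by
  have h1 := gd_sub hq hL hs ht.1
  refine ⟨h1.1, h1.2, ?_⟩
  rw [TS_iff T hm, div_le_iff₀ hs]
  have h2 : XX (Yt T) t ≤ x * √(La T) := ht.2
  have h3 := (abs_le.1 (XX_zero t)).1
  nlinarith

section far

variable {η y ε x T : ℝ} {m X : ℕ}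

lemma prod_ffx_le (hT : 1 < T) {S : Set ℝ} (s h : ℝ) (hS : s ∈ GD y ε T m ∩ EX x T → s ∈ S) :
    ffx η y ε x T m s * ffx η y ε x T m (s + h) ≤ 4 / Real.log T ^ 2 *
      S.indicator (fun s => ‖Dp η T s‖ ^ 2 * ‖Dp η T (s + h)‖ ^ 2) s := by
  have hL := Real.log_pos hT
  by_cases hh : s ∈ GD y ε T m ∩ EX x T
  · rw [indicator_of_mem (hS hh)]
    have h1 := ffx_le (η := η) (y := y) (ε := ε) (x := x) (m := m) hT s
    have h2 := ffx_le (η := η) (y := y) (ε := ε) (x := x) (m := m) hT (s + h)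
    have h3 : 0 ≤ ffx η y ε x T m (s + h) := by
      rw [ffx_eq]
      exact mul_nonneg (by positivity) (indicator_nonneg (fun _ _ => by positivity) _)
    calc _ ≤ (2 / Real.log T * ‖Dp η T s‖ ^ 2) * (2 / Real.log T * ‖Dp η T (s + h)‖ ^ 2) := by
          gcongr
      _ = _ := by
          field_simp
          ring
  · have h0 : ffx η y ε x T m s = 0 := by
      unfold ffx
      exact indicator_of_notMem hh _
    rw [h0, zero_mul]
    exact mul_nonneg (by positivity) (indicator_nonneg (fun _ _ => by positivity) _)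

/-- the same for two points -/
lemma prod_ffx_le2 (hT : 1 < T) {S : Set ℝ} (s h : ℝ)
    (hS : s ∈ GD y ε T m ∩ EX x T → s + h ∈ GD y ε T m ∩ EX x T → s ∈ S) :
    ffx η y ε x T m s * ffx η y ε x T m (s + h) ≤ 4 / Real.log T ^ 2 *
      S.indicator (fun s => ‖Dp η T s‖ ^ 2 * ‖Dp η T (s + h)‖ ^ 2) s := by
  have hL := Real.log_pos hT
  by_cases hh : s ∈ GD y ε T m ∩ EX x T ∧ s + h ∈ GD y ε T m ∩ EX x T
  · exact prod_ffx_le hT s h fun _ => hS hh.1 hh.2
  · have h0 : ffx η y ε x T m s * ffx η y ε x T m (s + h) = 0 := by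
      rw [not_and_or] at hh
      rcases hh with hh | hh
      · have : ffx η y ε x T m s = 0 := indicator_of_notMem hh _
        rw [this, zero_mul]
      · have : ffx η y ε x T m (s + h) = 0 := indicator_of_notMem hh _
        rw [this, mul_zero]
    rw [h0]
    exact mul_nonneg (by positivity) (indicator_nonneg (fun _ _ => by positivity) _)

lemma far_bd_x {δ : ℝ} (hδ : 0 < δ) (hfs : FS X (dd η T)) (hT : 1 < T)
    (hm : 1 ≤ m) (hq : 1 ≤ qq ε T m) (hL2 : 2 ≤ ε / 2 * √(La T)) (hs : 0 < √(La T)) {h : ℝ}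
    (hp2 : ∫ t in T..(3 * T), Set.indicator {t | (NE T m t ∧ (WK T m (y / 2 - ε / 2) t ∧ TS T m (x + ε) t)) ∧
      (NE T m (t + h) ∧ (WK T m (y / 2 - ε / 2) (t + h) ∧ TS T m (x + ε) (t + h)))}
      (fun t => ‖Dp η T t‖ ^ 2 * ‖Dp η T (t + h)‖ ^ 2) t ≤
      2 * T * ((1 / 2 - 2 * η) * Real.log T) ^ 2 * Corr (Yt T) h * (gam2 m (y / 2 - ε / 2) (x + ε) ^ 2 + δ))
    (hmv : ∫ t in (3 * T)..(3 * T + UU y T), ‖Dp η T t‖ ^ 2 * ‖Dp η T (t + h)‖ ^ 2
      ≤ (3 * T + UU y T - 3 * T + T ^ (1 - 2 * η)) * nm (dd η T * sh h (dd η T)))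
    (hm2 : nm (dd η T * sh h (dd η T)) ≤
      (1 + 1) * ((1 / 2 - 2 * η) * Real.log T) ^ 2 * Corr (Yt T) h)
    (hU : UU y T + T ^ (1 - 2 * η) ≤ δ * T) :
    JJ (ffx η y ε x T m) T (UU y T) h ≤ 2 * T * (1 - 4 * η) ^ 2 * (gam2 m (y / 2 - ε / 2) (x + ε) ^ 2 + 2 * δ)
      * Corr (Yt T) h := by
  have hL := Real.log_pos hT
  have hU0 := UU_pos y T
  have hf : LB (ffx η y ε x T m) := ffx_LB hfs hT
  have hff := hf.mul (hf.shift h)
  have hc := Corr_nonneg (Yt T) h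
  have hS : MeasurableSet {t | (NE T m t ∧ (WK T m (y / 2 - ε / 2) t ∧ TS T m (x + ε) t)) ∧
      (NE T m (t + h) ∧ (WK T m (y / 2 - ε / 2) (t + h) ∧ TS T m (x + ε) (t + h)))} := by
    have h1 := (NEWKTS_closed T m (y / 2 - ε / 2) (x + ε)).measurableSet
    exact h1.inter (h1.preimage (measurable_id.add_const h))
  have hLB := (two_LB hfs h).indicator hS
  have e1 : JJ (ffx η y ε x T m) T (UU y T) h = (∫ s in T..(3 * T), ffx η y ε x T m s * ffx η y ε x T m (s + h))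
      + ∫ s in (3 * T)..(3 * T + UU y T), ffx η y ε x T m s * ffx η y ε x T m (s + h) :=
    (intervalIntegral.integral_add_adjacent_intervals (hff.ii _ _) (hff.ii _ _)).symm
  have a1 : ∫ s in T..(3 * T), ffx η y ε x T m s * ffx η y ε x T m (s + h) ≤
      2 * T * (1 - 4 * η) ^ 2 * (gam2 m (y / 2 - ε / 2) (x + ε) ^ 2 + δ) * Corr (Yt T) h := by
    have h1 := intervalIntegral.integral_mono_on (show T ≤ 3 * T by linarith) (hff.ii _ _)
      ((hLB.ii T (3 * T)).const_mul (4 / Real.log T ^ 2)) fun s _ =>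
        prod_ffx_le2 (η := η) (y := y) (ε := ε) (x := x) (m := m) hT s h
          fun h1 h2 => ⟨gd_sub_x hm hq hL2 hs h1, gd_sub_x hm hq hL2 hs h2⟩
    rw [intervalIntegral.integral_const_mul] at h1
    calc _ ≤ 4 / Real.log T ^ 2 * (2 * T * ((1 / 2 - 2 * η) * Real.log T) ^ 2 * Corr (Yt T) h *
          (gam2 m (y / 2 - ε / 2) (x + ε) ^ 2 + δ)) := by
          refine h1.trans ?_
          gcongr
      _ = _ := by
          field_simp
          ring
  have a2 : ∫ s in (3 * T)..(3 * T + UU y T), ffx η y ε x T m s * ffx η y ε x T m (s + h) ≤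
      2 * T * (1 - 4 * η) ^ 2 * δ * Corr (Yt T) h := by
    have h1 := intervalIntegral.integral_mono_on (show 3 * T ≤ 3 * T + UU y T by linarith)
      (hff.ii _ _) (((two_LB hfs h).ii (3 * T) (3 * T + UU y T)).const_mul (4 / Real.log T ^ 2))
        fun s _ => by
          have := prod_ffx_le (η := η) (y := y) (ε := ε) (x := x) (m := m) (S := univ) hT s h
            fun _ => mem_univ _
          rwa [indicator_univ] at this
    rw [intervalIntegral.integral_const_mul] at h1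
    have h2 : 0 ≤ T ^ (1 - 2 * η) := by positivity
    have h3 : 0 ≤ 3 * T + UU y T - 3 * T + T ^ (1 - 2 * η) := by linarith
    calc _ ≤ 4 / Real.log T ^ 2 * ((3 * T + UU y T - 3 * T + T ^ (1 - 2 * η)) *
          ((1 + 1) * ((1 / 2 - 2 * η) * Real.log T) ^ 2 * Corr (Yt T) h)) := by
          refine h1.trans ?_
          gcongr
          refine hmv.trans ?_
          gcongr
      _ = 2 * (UU y T + T ^ (1 - 2 * η)) * (1 - 4 * η) ^ 2 * Corr (Yt T) h := by
          field_simp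
          ring
      _ ≤ 2 * (δ * T) * (1 - 4 * η) ^ 2 * Corr (Yt T) h := by gcongr
      _ = _ := by ring
  rw [e1]
  calc _ ≤ 2 * T * (1 - 4 * η) ^ 2 * (gam2 m (y / 2 - ε / 2) (x + ε) ^ 2 + δ) * Corr (Yt T) h
        + 2 * T * (1 - 4 * η) ^ 2 * δ * Corr (Yt T) h := add_le_add a1 a2
    _ = _ := by ring

end far

theorem t_C4x (hNR : J_NR) (hP2 : J_P2x) (hFF : J_FF) (hM2 : J_M2) (hAV : J_AV) : J_C4x := by
  obtain ⟨C, hC, hNR⟩ := hNR
  intro η y ε x δ m hη hη1 hy hε hδ hm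
  obtain ⟨δ', hδ'⟩ : ∃ δ', δ' = min 1 (δ / 22) := ⟨_, rfl⟩
  have hδ0 : 0 < δ' := by
    rw [hδ']
    positivity
  have hδ1 : δ' ≤ 1 := by
    rw [hδ']
    exact min_le_left _ _
  have hδ2 : δ' ≤ δ / 22 := by
    rw [hδ']
    exact min_le_right _ _
  filter_upwards [hNR η hη hη1, hP2 η m (y / 2 - ε / 2) (x + ε) y δ' hη hη1 hm hδ0, hFF η hη hη1,
    mv_two hFF hη hη1, hM2 η y 1 hη hη1 one_pos, corr_av hAV hy hδ0, lev_facts hε hm,
    decay (show 0 < 3 / 2 * ε by positivity) (show 0 < δ / (16 * C) by positivity),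
    sq_ev (eventually_ge_atTop (4 / ε)), U_small y hη hδ0, La_ev (eventually_ge_atTop 1),
    eventually_gt_atTop 1, sq_ev ((tendsto_rpow_mul_exp_neg_mul_atTop_nhds_zero 0 (y / 2)
      (by positivity)).eventually_le_const (show 0 < δ' / 2 by positivity))]
    with T hnr hp2 hff hmv hm2 hav hlev hdec hsq hU hLa hT hx0
  obtain ⟨hq, hg, hg1, -⟩ := hlev
  have hL := Real.log_pos hT
  have hfs := hff.1
  have hU0 := UU_pos y T
  have hU1 : 1 ≤ UU y T := UU_ge_one hy.le T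
  have hs : 0 < √(La T) := Real.sqrt_pos.2 (by linarith)
  have hL2 : 2 ≤ ε / 2 * √(La T) := by
    rw [div_le_iff₀ hε] at hsq
    linarith
  have hUT : UU y T ≤ T := by
    have h1 : 0 ≤ T ^ (1 - 2 * η) := by positivity
    nlinarith
  have hf0 : LB (ff η y ε T m) := ff_LB hfs hT
  have hJ0 : LB (JJ (ff η y ε T m) T (UU y T)) := JJ_LB hf0 hU0.le (by linarith)
  have hf : LB (ffx η y ε x T m) := ffx_LB hfs hT
  have hJ : LB (JJ (ffx η y ε x T m) T (UU y T)) := JJ_LB hf hU0.le (by linarith)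
  have hJJ : ∀ h, JJ (ffx η y ε x T m) T (UU y T) h ≤ JJ (ff η y ε T m) T (UU y T) h := by
    intro h
    refine intervalIntegral.integral_mono_on (by linarith) ((hf.mul (hf.shift h)).ii _ _)
      ((hf0.mul (hf0.shift h)).ii _ _) fun s _ => ?_
    exact mul_le_mul (ffx_le_ff hT s) (ffx_le_ff hT _) (hf.nn _) (hf0.nn _)
  obtain ⟨G, hG⟩ : ∃ G, G = gam2 m (y / 2 - ε / 2) (x + ε) := ⟨_, rfl⟩
  have hG0 : 0 ≤ G := by rw [hG]; exact gam2_nonneg _ _ _
  have hG1 : G ≤ 1 := by rw [hG]; exact gam2_le_one _ _ _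
  -- near
  obtain ⟨K1, hK1⟩ : ∃ K1, K1 = ∫ h in (0 : ℝ)..1, JJ (ffx η y ε x T m) T (UU y T) h := ⟨_, rfl⟩
  have hK10 : 0 ≤ K1 := by
    rw [hK1]
    exact hJ.int_nonneg zero_le_one
  have b1 : K1 ≤ T * UU y T * δ / 4 := by
    have h1 := (intervalIntegral.integral_mono_on zero_le_one (hJ.ii 0 1) (hJ0.ii 0 1)
      fun h _ => hJJ h).trans
      (near_int (y := y) (ε := ε) (m := m) hC hfs hT hnr hUT hm hq hLa hg hg1)
    rw [← hK1] at h1
    have h2 : Real.exp ((y - 3 / 2 * ε) * √(La T))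
        = Real.exp (-(3 / 2 * ε * √(La T))) * UU y T := by
      unfold UU
      rw [← Real.exp_add]
      congr 1
      ring
    rw [h2] at h1
    calc K1 ≤ 4 * C * T * La T ^ 4 * (Real.exp (-(3 / 2 * ε * √(La T))) * UU y T) * (1 + La T) := h1
      _ = 4 * C * T * UU y T * (La T ^ 4 * (1 + La T) * Real.exp (-(3 / 2 * ε * √(La T)))) := by
          ring
      _ ≤ 4 * C * T * UU y T * (δ / (16 * C)) := by gcongr
      _ = _ := by
          field_simp
          ring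
  -- far
  obtain ⟨A, hA⟩ : ∃ A, A = 2 * T * (1 - 4 * η) ^ 2 * (G ^ 2 + 2 * δ') := ⟨_, rfl⟩
  have hA0 : 0 ≤ A := by
    rw [hA]
    positivity
  have b2 : ∀ h ∈ Icc 1 (UU y T), JJ (ffx η y ε x T m) T (UU y T) h ≤ A * Corr (Yt T) h := by
    intro h hx
    rw [hA, hG]
    exact far_bd_x hδ0 hfs hT hm hq hL2 hs (hp2 h hx.1 hx.2)
      (hmv h (3 * T) (3 * T + UU y T) (by linarith)) (hm2 h hx.1 hx.2) hU
  obtain ⟨x1, hx1⟩ : ∃ x1, x1 = Real.exp (y / 2 * √(La T)) := ⟨_, rfl⟩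
  rw [← hx1] at hav
  have hx10 : 0 < x1 := by
    rw [hx1]
    exact Real.exp_pos _
  have b3 : ∀ z ∈ Icc 0 (UU y T), ∫ h in (0 : ℝ)..z, JJ (ffx η y ε x T m) T (UU y T) h
      ≤ K1 + A * (1 + δ') * (z + x1) := by
    intro z hx
    rcases le_total z 1 with h | h
    · have h1 := hJ.mono_int (le_refl (0 : ℝ)) hx.1 h
      rw [← hK1] at h1
      have h2 : 0 ≤ A * (1 + δ') * (z + x1) := by
        have := hx.1
        positivity
      linarith
    · rw [← intervalIntegral.integral_add_adjacent_intervals (hJ.ii 0 1) (hJ.ii 1 z), ← hK1]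
      have h1 : ∫ t in (1 : ℝ)..z, JJ (ffx η y ε x T m) T (UU y T) t
          ≤ ∫ t in (1 : ℝ)..z, A * Corr (Yt T) t :=
        intervalIntegral.integral_mono_on h (hJ.ii _ _)
          ((continuous_const.mul (Corr_cont _)).intervalIntegrable _ _)
          fun t ht => b2 t ⟨ht.1, ht.2.trans hx.2⟩
      rw [intervalIntegral.integral_const_mul] at h1
      have h2 := hav z h hx.2
      have h3 : A * ∫ t in (1 : ℝ)..z, Corr (Yt T) t ≤ A * ((1 + δ') * (z + x1)) := by gcongr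
      linarith
  -- the double integral
  have cK : Continuous fun z => ∫ h in (0 : ℝ)..z, JJ (ffx η y ε x T m) T (UU y T) h :=
    intervalIntegral.continuous_primitive (fun a b => hJ.ii a b) 0
  have b4 : ∫ z in (0 : ℝ)..UU y T, ∫ h in (0 : ℝ)..z, JJ (ffx η y ε x T m) T (UU y T) h
      ≤ K1 * UU y T + A * (1 + δ') * (UU y T ^ 2 / 2 + x1 * UU y T) := by
    have c1 : Continuous fun x : ℝ => A * (1 + δ') * (x + x1) := by fun_prop
    have c2 : Continuous fun x : ℝ => K1 + A * (1 + δ') * (x + x1) := by fun_prop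
    have c3 : Continuous fun x : ℝ => x := continuous_id
    have h1 := intervalIntegral.integral_mono_on (μ := volume) hU0.le
      (cK.intervalIntegrable 0 (UU y T)) (c2.intervalIntegrable 0 (UU y T)) b3
    refine h1.trans (le_of_eq ?_)
    rw [intervalIntegral.integral_add (continuous_const.intervalIntegrable _ _)
      (c1.intervalIntegrable _ _), intervalIntegral.integral_const,
      intervalIntegral.integral_const_mul, intervalIntegral.integral_add
      (c3.intervalIntegrable _ _) (continuous_const.intervalIntegrable _ _),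
      intervalIntegral.integral_const, integral_id, smul_eq_mul, smul_eq_mul]
    ring
  have b5 := win_upper hf hU0 (show 0 ≤ T by linarith)
  have e5 : ∫ t in T..(3 * T), WWx η y ε x m T t ^ 2 = ∫ t in T..(3 * T), (1 / UU y T *
      ∫ s in (0 : ℝ)..UU y T, ffx η y ε x T m (t + s)) ^ 2 := rfl
  rw [e5, ← hG]
  refine b5.trans ?_
  have b6 : x1 / UU y T ≤ δ' / 2 := by
    have : x1 / UU y T = √(La T) ^ (0 : ℝ) * Real.exp (-(y / 2) * √(La T)) := by
      rw [hx1, Real.rpow_zero, one_mul]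
      unfold UU
      rw [← Real.exp_sub]
      congr 1
      ring
    rw [this]
    exact hx0
  have b7 : (G ^ 2 + 2 * δ') * (1 + δ') ^ 2 ≤ G ^ 2 + δ / 2 := by
    have h1 : G ^ 2 ≤ 1 := by nlinarith
    have h2 : G ^ 2 * (2 * δ' + δ' ^ 2) ≤ 1 * (2 * δ' + δ' ^ 2) := by gcongr
    have h3 : (1 + δ') ^ 2 ≤ 4 := by nlinarith
    have h4 : 2 * δ' * (1 + δ') ^ 2 ≤ 2 * δ' * 4 := by gcongr
    nlinarith
  have b8 : (1 - 4 * η) ^ 2 ≤ 1 := by nlinarith
  have b9 : 0 ≤ (1 - 4 * η) ^ 2 := by positivity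
  calc 2 / UU y T ^ 2 * ∫ z in (0 : ℝ)..UU y T, ∫ h in (0 : ℝ)..z, JJ (ffx η y ε x T m) T (UU y T) h
      ≤ 2 / UU y T ^ 2 * (K1 * UU y T + A * (1 + δ') * (UU y T ^ 2 / 2 + x1 * UU y T)) := by gcongr
    _ = 2 * K1 / UU y T + A * (1 + δ') * (1 + 2 * (x1 / UU y T)) := by
        field_simp
    _ ≤ 2 * (T * UU y T * δ / 4) / UU y T + A * (1 + δ') * (1 + 2 * (δ' / 2)) := by gcongr
    _ = 2 * T * (δ / 4 + (1 - 4 * η) ^ 2 * ((G ^ 2 + 2 * δ') * (1 + δ') ^ 2)) := by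
        have e9 : 2 * (T * UU y T * δ / 4) / UU y T = 2 * T * (δ / 4) := by
          field_simp
        rw [hA, e9]
        ring
    _ ≤ 2 * T * (δ / 4 + (1 - 4 * η) ^ 2 * (G ^ 2 + δ / 2)) := by gcongr
    _ ≤ 2 * T * ((1 - 4 * η) ^ 2 * G ^ 2 + δ) := by
        have : (1 - 4 * η) ^ 2 * (δ / 2) ≤ 1 * (δ / 2) := by gcongr
        have h2 : δ / 4 + (1 - 4 * η) ^ 2 * (G ^ 2 + δ / 2) ≤ (1 - 4 * η) ^ 2 * G ^ 2 + δ := by
          nlinarith
        gcongr

end Pool.Agent.Q151.EW
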