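import Pool.Agent.Q80.EW.Stm7
import Pool.Agent.Q80.EW.Stm4

set_option autoImplicit false

/-! # Project EWF: common lemmas -/

namespace Pool.Agent.Q151.EW

open Filter Topology MeasureTheory Set
open Pool.Agent.Q80.EW

noncomputable section

lemma ii (a b : ℝ) : IntervalIntegrable (fun s : ℝ => Real.exp (-s ^ 2)) volume a b :=
  (by fun_prop : Continuous fun s : ℝ => Real.exp (-s ^ 2)).intervalIntegrable a b

lemma erf_sub (a b : ℝ) : erf b - erf a = 2 / Real.sqrt Real.pi * ∫ s in a..b, Real.exp (-s ^ 2) := by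
  unfold erf
  rw [← mul_sub, intervalIntegral.integral_interval_sub_left (ii 0 b) (ii 0 a)]

lemma erf_neg (a : ℝ) : erf (-a) = -erf a := by
  have h1 : ∫ s in (0 : ℝ)..(-a), Real.exp (-s ^ 2) = -∫ s in (0 : ℝ)..a, Real.exp (-s ^ 2) := by
    have h2 := intervalIntegral.integral_comp_neg (a := 0) (b := a) (fun s : ℝ => Real.exp (-s ^ 2))
    simp only [neg_sq, neg_zero] at h2
    rw [h2, intervalIntegral.integral_symm]
  unfold erf
  rw [h1]
  ring

lemma GX_self (b : ℝ) : GX b b = erf b := by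
  unfold GX
  rw [min_self, show b - 2 * b = -b by ring, erf_neg]
  ring

/-- `GX b` is strictly increasing below `b` -/
lemma GX_lt {b x x' : ℝ} (hb : 0 < b) (hx : x < x') (hx' : x' ≤ b) : GX b x < GX b x' := by
  unfold GX
  rw [min_eq_left hx', min_eq_left (hx.le.trans hx')]
  have h1 := erf_sub x x'
  have h2 := erf_sub (x - 2 * b) (x' - 2 * b)
  have h3 : ∫ s in (x - 2 * b)..(x' - 2 * b), Real.exp (-s ^ 2) =
      ∫ s in x..x', Real.exp (-(s - 2 * b) ^ 2) :=
    (intervalIntegral.integral_comp_sub_right (fun s => Real.exp (-s ^ 2)) (2 * b)).symm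
  have h4 : ∫ s in x..x', Real.exp (-(s - 2 * b) ^ 2) < ∫ s in x..x', Real.exp (-s ^ 2) := by
    apply intervalIntegral.integral_lt_integral_of_continuousOn_of_le_of_exists_lt hx
    · exact (by fun_prop : Continuous fun s : ℝ => Real.exp (-(s - 2 * b) ^ 2)).continuousOn
    · exact (by fun_prop : Continuous fun s : ℝ => Real.exp (-s ^ 2)).continuousOn
    · intro s hs
      rw [Real.exp_le_exp]
      have : s ≤ b := hs.2.trans hx'
      nlinarith
    · refine ⟨x, ⟨le_refl _, hx.le⟩, ?_⟩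
      rw [Real.exp_lt_exp]
      nlinarith
  rw [← h3] at h4
  have h5 : 0 < 2 / Real.sqrt Real.pi := by positivity
  have h6 := mul_lt_mul_of_pos_left h4 h5
  linarith

/-- uniform lower bound for the increments of `GX` -/
lemma unif (hc : Continuous erf) {e κ : ℝ} (A K : ℝ) (he : 0 < e) (hκ : 0 < κ) :
    ∃ c : ℝ, 0 < c ∧ ∀ b x : ℝ, e ≤ b → b ≤ K → -A ≤ x → x + κ ≤ b →
      c ≤ GX b (x + κ) - GX b x := by
  obtain ⟨S, hS⟩ : ∃ S : Set (ℝ × ℝ), S = {q | e ≤ q.1 ∧ q.1 ≤ K ∧ -A ≤ q.2 ∧ q.2 + κ ≤ q.1} :=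
    ⟨_, rfl⟩
  have hcomp : IsCompact S := by
    have h1 : IsCompact (Icc e K ×ˢ Icc (-A) K : Set (ℝ × ℝ)) := isCompact_Icc.prod isCompact_Icc
    have h2 : IsClosed S := by
      have e : S = {q | e ≤ q.1} ∩ ({q | q.1 ≤ K} ∩ ({q | -A ≤ q.2} ∩ {q | q.2 + κ ≤ q.1})) := by
        rw [hS]; rfl
      rw [e]
      exact (isClosed_le (by fun_prop) (by fun_prop)).inter
        ((isClosed_le (by fun_prop) (by fun_prop)).inter
        ((isClosed_le (by fun_prop) (by fun_prop)).inter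
        (isClosed_le (by fun_prop) (by fun_prop))))
    refine h1.of_isClosed_subset h2 ?_
    rintro ⟨b, x⟩ hq
    rw [hS] at hq
    obtain ⟨q1, q2, q3, q4⟩ := hq
    simp only at q1 q2 q3 q4
    exact ⟨⟨q1, q2⟩, ⟨q3, by simp only; linarith⟩⟩
  have hcont : Continuous fun q : ℝ × ℝ => GX q.1 (q.2 + κ) - GX q.1 q.2 := by
    unfold GX
    fun_prop
  by_cases hne : S.Nonempty
  · obtain ⟨q, hq, hmin⟩ := hcomp.exists_isMinOn hne hcont.continuousOn
    refine ⟨GX q.1 (q.2 + κ) - GX q.1 q.2, ?_, ?_⟩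
    · rw [hS] at hq
      obtain ⟨q1, q2, q3, q4⟩ := hq
      have := GX_lt (he.trans_le q1) (by linarith : q.2 < q.2 + κ) q4
      linarith
    · intro b x h1 h2 h3 h4
      have hm : (b, x) ∈ S := by rw [hS]; exact ⟨h1, h2, h3, h4⟩
      exact hmin hm
  · refine ⟨1, one_pos, fun b x h1 h2 h3 h4 => ?_⟩
    exact absurd ⟨(b, x), by rw [hS]; exact ⟨h1, h2, h3, h4⟩⟩ hne

lemma ze_cont : Continuous ze := by
  unfold ze
  rw [continuous_iff_continuousAt]
  intro t
  have h1 : ContinuousAt riemannZeta ((1 / 2 : ℂ) + (t : ℂ) * Complex.I) := by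
    apply (differentiableAt_riemannZeta _).continuousAt
    intro h
    have := congrArg Complex.re h
    norm_num at this
  exact h1.comp (f := fun t : ℝ => (1 / 2 : ℂ) + (t : ℂ) * Complex.I)
    (by fun_prop : Continuous fun t : ℝ => (1 / 2 : ℂ) + (t : ℂ) * Complex.I).continuousAt

/-- the part of the mean square with `|ζ| ≤ thr` -/
lemma ind_int (thr a b : ℝ) :
    IntervalIntegrable (indicator {s | ‖ze s‖ ≤ thr} fun s => ‖ze s‖ ^ 2) volume a b := by
  have hm : MeasurableSet {s | ‖ze s‖ ≤ thr} :=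
    (isClosed_le ze_cont.norm continuous_const).measurableSet
  have h1 : IntervalIntegrable (fun s => ‖ze s‖ ^ 2) volume a b :=
    (ze_cont.norm.pow 2).intervalIntegrable a b
  rw [intervalIntegrable_iff] at h1 ⊢
  exact h1.indicator hm

lemma La_tend : Tendsto La atTop atTop := Real.tendsto_log_atTop.comp Real.tendsto_log_atTop

lemma sqLa_tend : Tendsto (fun T => Real.sqrt (La T)) atTop atTop :=
  Real.tendsto_sqrt_atTop.comp La_tend

lemma expLa {T : ℝ} (hT : 1 < T) : Real.exp (La T) = Real.log T := Real.exp_log (Real.log_pos hT)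

/-- `exp (K √Λ) ≤ T` -/
lemma ev_le (K : ℝ) : ∀ᶠ T : ℝ in atTop, Real.exp (K * Real.sqrt (La T)) ≤ T := by
  have h1 : ∀ᶠ s : ℝ in atTop, K * s ≤ Real.exp (s ^ 2) := by
    filter_upwards [eventually_ge_atTop (max 1 K)] with s hs
    have h2 : K ≤ s := (le_max_right _ _).trans hs
    have h3 : 1 ≤ s := (le_max_left _ _).trans hs
    have h4 := Real.add_one_le_exp (s ^ 2)
    nlinarith
  filter_upwards [sqLa_tend.eventually h1, eventually_gt_atTop 1,
    La_tend.eventually (eventually_ge_atTop 0)] with T h hT h0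
  rw [Real.sq_sqrt h0, expLa hT] at h
  calc Real.exp (K * Real.sqrt (La T)) ≤ Real.exp (Real.log T) := Real.exp_le_exp.mpr h
    _ = T := Real.exp_log (by linarith)

/-- measure of the bad set -/
lemma bad_le {T e1 e2 : ℝ} {S S1 S2 : Set ℝ} (h : S ⊆ S1 ∪ S2)
    (f1 : S1 ⊆ Icc T (2 * T)) (f2 : S2 ⊆ Icc T (2 * T))
    (h1 : (volume S1).toReal ≤ e1 * T) (h2 : (volume S2).toReal ≤ e2 * T) :
    (volume S).toReal ≤ (e1 + e2) * T := by
  have g1 : volume S1 ≠ ⊤ := ne_top_of_le_ne_top (by simp) (measure_mono f1)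
  have g2 : volume S2 ≠ ⊤ := ne_top_of_le_ne_top (by simp) (measure_mono f2)
  have h3 : volume S ≤ volume S1 + volume S2 := (measure_mono h).trans (measure_union_le _ _)
  have h4 := ENNReal.toReal_mono (ENNReal.add_ne_top.mpr ⟨g1, g2⟩) h3
  rw [ENNReal.toReal_add g1 g2] at h4
  linarith

end

end Pool.Agent.Q151.EW
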