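import Pool.Agent.Q280.EW.Exp
import Pool.Agent.Q80.EW.Stm5

/-!
# Project EWD of helper80: job EXPc, complex weights (adapted from the proof of EXP by helper280)
-/

set_option autoImplicit false
set_option linter.unusedSectionVars false

namespace Pool.Agent.Q151.EW.Expc

open Finset Filter Topology MeasureTheory Pool.Agent.Q80.EW
open Pool.Agent.Q280.EW (fs_summable le_pow)
open ArithmeticFunction (cardFactors)

/-- The weights vanish from `Z` on. -/
def Wc (Z : ℕ) (v : ℕ → ℂ) : Prop := ∀ p : ℕ, Z ≤ p → v p = 0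

/-- The coefficients. -/
noncomputable def E (v : ℕ → ℂ) (n : ℕ) : ℂ :=
  n.factorization.prod fun p a => v p ^ a / (a.factorial : ℂ)

theorem ex_apply {v : ℕ → ℂ} {n : ℕ} (hn : n ≠ 0) : exc v n = E v n := by
  change (if n = 0 then 0 else _) = _
  rw [if_neg hn]
  rfl

theorem E_div {v : ℕ → ℂ} {n p : ℕ} (hn : n ≠ 0) (hp : p.Prime) (hpn : p ∣ n) :
    v p * E v (n / p) = (n.factorization p : ℂ) * E v n := by
  unfold E
  have h1 : (n / p).factorization = n.factorization - Finsupp.single p 1 := by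
    rw [Nat.factorization_div hpn, hp.factorization]
  have hg : ∀ i : ℕ, v i ^ 0 / ((0 : ℕ).factorial : ℂ) = 1 := by
    intro i
    simp
  rw [← Finsupp.mul_prod_erase' (n / p).factorization p _ hg,
    ← Finsupp.mul_prod_erase' n.factorization p _ hg]
  have h2 : Finsupp.erase p (n / p).factorization = Finsupp.erase p n.factorization := by
    ext q
    by_cases h : q = p
    · subst h
      simp
    · rw [Finsupp.erase_ne h, Finsupp.erase_ne h, h1]
      simp [Finsupp.single_eq_of_ne h]
  obtain ⟨a, ha⟩ : ∃ a, n.factorization p = a + 1 := by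
    have h3 : 1 ≤ n.factorization p := (hp.dvd_iff_one_le_factorization hn).1 hpn
    exact ⟨n.factorization p - 1, by omega⟩
  have h4 : (n / p).factorization p = a := by
    rw [h1]
    simp [ha]
  rw [h2, h4, ha, Nat.factorial_succ, pow_succ]
  have h5 : ((a.factorial : ℕ) : ℂ) ≠ 0 := by exact_mod_cast a.factorial_ne_zero
  have h6 : ((a : ℂ) + 1) ≠ 0 := by exact_mod_cast Nat.succ_ne_zero a
  push_cast
  field_simp

theorem E_ne {v : ℕ → ℂ} {n p : ℕ} (hn : n ≠ 0) (hp : p.Prime) (hpn : p ∣ n) (h : E v n ≠ 0) :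
    v p ≠ 0 := by
  intro h0
  have h1 := E_div (v := v) hn hp hpn
  rw [h0, zero_mul] at h1
  have h3 : 1 ≤ n.factorization p := (hp.dvd_iff_one_le_factorization hn).1 hpn
  have h4 : (n.factorization p : ℂ) ≠ 0 := by
    have : n.factorization p ≠ 0 := by omega
    exact_mod_cast this
  exact (mul_ne_zero h4 h) h1.symm

theorem tr_apply (l : ℕ) (f : ArithmeticFunction ℂ) (n : ℕ) :
    tr l f n = if cardFactors n ≤ l then f n else 0 := rfl

theorem pk_apply (l : ℕ) (f : ArithmeticFunction ℂ) (n : ℕ) :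
    pk l f n = if cardFactors n = l then f n else 0 := rfl

theorem fs_ex {Z l : ℕ} {v : ℕ → ℂ} (hZ : 1 ≤ Z) (hv : Wc Z v) {n : ℕ} (hn : Z ^ l < n)
    (hl : cardFactors n ≤ l) : exc v n = 0 := by
  have hn0 : n ≠ 0 := by
    rintro rfl
    exact absurd hn (Nat.not_lt_zero _)
  by_contra h
  rw [ex_apply hn0] at h
  have h1 : E v n ≠ 0 := h
  refine absurd (le_pow hZ hn0 (fun p hp hpn => ?_) hl) (not_le.2 hn)
  by_contra h2
  exact E_ne hn0 hp hpn h1 (hv p (not_lt.1 h2))

/-- The weights on the primes. -/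
noncomputable def vA (v : ℕ → ℂ) : ArithmeticFunction ℂ :=
  ⟨fun n => if n.Prime then v n else 0, by simp [Nat.not_prime_zero]⟩

theorem vA_apply (v : ℕ → ℂ) (n : ℕ) : vA v n = if n.Prime then v n else 0 := rfl

theorem fs_vA {Z : ℕ} {v : ℕ → ℂ} (hv : Wc Z v) : FS Z (vA v) := by
  intro n hn
  rw [vA_apply, hv n hn.le]
  simp

theorem dp_vA {Z : ℕ} {v : ℕ → ℂ} (hv : Wc Z v) (t : ℝ) : dp (vA v) t = PVc Z v t := by
  unfold dp PVc LSeries
  rw [tsum_eq_sum (s := Nat.primesBelow Z)]
  · refine Finset.sum_congr rfl fun p hp => ?_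
    have hp' := Nat.prime_of_mem_primesBelow hp
    rw [LSeries.term_of_ne_zero hp'.ne_zero, vA_apply, if_pos hp', Complex.cpow_neg,
      div_eq_mul_inv]
  · intro n hn
    rw [LSeries.term_def]
    split_ifs with h
    · rfl
    · rw [vA_apply]
      split_ifs with h1
      · have h2 : Z ≤ n := by
          by_contra h3
          exact hn (Nat.mem_primesBelow.2 ⟨not_le.1 h3, h1⟩)
        rw [hv n h2]
        simp
      · simp

theorem key (v : ℕ → ℂ) (k : ℕ) :
    ((vA v * pk k (exc v) : ArithmeticFunction ℂ) : ℕ → ℂ) =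
      ((k + 1 : ℂ)) • ((pk (k + 1) (exc v) : ArithmeticFunction ℂ) : ℕ → ℂ) := by
  funext n
  rw [Pi.smul_apply, smul_eq_mul]
  rcases eq_or_ne n 0 with rfl | hn
  · simp
  rw [ArithmeticFunction.mul_apply, Nat.sum_divisorsAntidiagonal (fun x y => vA v x * pk k (exc v) y)]
  rw [← Finset.sum_subset (s₁ := n.primeFactors) (fun p hp => Nat.mem_divisors.2
    ⟨Nat.dvd_of_mem_primeFactors hp, hn⟩)]
  · have hm : ∀ p ∈ n.primeFactors, n / p ≠ 0 := fun p hp => by
      have h1 := Nat.dvd_of_mem_primeFactors hp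
      have h2 := (Nat.prime_of_mem_primeFactors hp).pos
      exact (Nat.div_pos (Nat.le_of_dvd (Nat.pos_of_ne_zero hn) h1) h2).ne'
    have hΩ : ∀ p ∈ n.primeFactors, cardFactors n = cardFactors (n / p) + 1 := by
      intro p hp
      have h1 : n = p * (n / p) := (Nat.mul_div_cancel' (Nat.dvd_of_mem_primeFactors hp)).symm
      conv_lhs => rw [h1]
      have h2 := Nat.prime_of_mem_primeFactors hp
      rw [ArithmeticFunction.cardFactors_mul h2.ne_zero (hm p hp),
        ArithmeticFunction.cardFactors_apply_prime h2, add_comm]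
    rw [pk_apply]
    by_cases h : cardFactors n = k + 1
    · rw [if_pos h, ex_apply hn]
      have h1 : ∀ p ∈ n.primeFactors, vA v p * pk k (exc v) (n / p) =
          (n.factorization p : ℂ) * E v n := by
        intro p hp
        have h2 := Nat.prime_of_mem_primeFactors hp
        have h3 := hΩ p hp
        rw [vA_apply, if_pos h2, pk_apply, if_pos (by omega), ex_apply (hm p hp),
          ← E_div hn h2 (Nat.dvd_of_mem_primeFactors hp)]
      rw [Finset.sum_congr rfl h1, ← Finset.sum_mul]
      have h4 : ∑ p ∈ n.primeFactors, (n.factorization p : ℂ) = (k : ℂ) + 1 := by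
        have h5 : cardFactors n = ∑ p ∈ n.primeFactors, n.factorization p := by
          rw [ArithmeticFunction.cardFactors_eq_sum_factorization]
          rfl
        rw [h] at h5
        have h6 := congrArg (fun x : ℕ => (x : ℂ)) h5
        push_cast at h6
        exact h6.symm
      rw [h4]
    · rw [if_neg h, mul_zero]
      refine Finset.sum_eq_zero fun p hp => ?_
      have h3 := hΩ p hp
      rw [pk_apply, if_neg (by omega), mul_zero]
  · intro p hp hp2
    have h1 : ¬ p.Prime := fun h => hp2 (Nat.mem_primeFactors.2 ⟨h, (Nat.mem_divisors.1 hp).1, hn⟩)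
    rw [vA_apply, if_neg h1, zero_mul]

theorem dp_pk {Z : ℕ} {v : ℕ → ℂ} (hZ : 1 ≤ Z) (hv : Wc Z v) (t : ℝ) (k : ℕ) :
    dp (pk k (exc v)) t = PVc Z v t ^ k / (k.factorial : ℂ) := by
  have hfs : ∀ k, FS (Z ^ k) (pk k (exc v)) := by
    intro k n hn
    rw [pk_apply]
    split_ifs with h
    · exact fs_ex hZ hv hn h.le
    · rfl
  induction k with
  | zero =>
    rw [pow_zero, Nat.factorial_zero, Nat.cast_one, div_one]
    unfold dp LSeries
    rw [tsum_eq_single 1]
    · rw [LSeries.term_of_ne_zero one_ne_zero, pk_apply, if_pos (by simp), ex_apply one_ne_zero]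
      simp [E]
    · intro n hn
      rcases eq_or_ne n 0 with rfl | hn0
      · simp
      · rw [LSeries.term_of_ne_zero hn0, pk_apply, if_neg, zero_div]
        rw [ArithmeticFunction.cardFactors_eq_zero_iff_eq_zero_or_one]
        tauto
  | succ k ih =>
    have h1 : dp (vA v * pk k (exc v)) t = dp (vA v) t * dp (pk k (exc v)) t :=
      ArithmeticFunction.LSeries_mul' (fs_summable (fs_vA hv) _) (fs_summable (hfs k) _)
    have h2 : dp (vA v * pk k (exc v)) t = ((k : ℂ) + 1) * dp (pk (k + 1) (exc v)) t := by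
      unfold dp
      have h3 : (fun n => (vA v * pk k (exc v) : ArithmeticFunction ℂ) n) =
        ((k + 1 : ℂ)) • (fun n => (pk (k + 1) (exc v) : ArithmeticFunction ℂ) n) := key v k
      rw [h3, LSeries_smul]
    have h4 : ((k : ℂ) + 1) ≠ 0 := by exact_mod_cast Nat.succ_ne_zero k
    rw [h2, ih, dp_vA hv] at h1
    have h5 : dp (pk (k + 1) (exc v)) t = (PVc Z v t * (PVc Z v t ^ k / (k.factorial : ℂ))) / ((k : ℂ) + 1) := by
      rw [← h1]
      field_simp
    rw [h5, Nat.factorial_succ, pow_succ]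
    push_cast
    have h6 : ((k.factorial : ℕ) : ℂ) ≠ 0 := by exact_mod_cast k.factorial_ne_zero
    field_simp

/-- JOB EXPc. -/
theorem t_EXPc : J_EXPc := by
  intro Z l v hZ hv
  have hfs : ∀ k, FS (Z ^ k) (pk k (exc v)) := by
    intro k n hn
    rw [pk_apply]
    split_ifs with h
    · exact fs_ex hZ hv hn h.le
    · rfl
  refine ⟨?_, fun t => ?_⟩
  · intro n hn
    rw [tr_apply]
    split_ifs with h
    · exact fs_ex hZ hv hn h
    · rfl
  · have h1 : (fun n => (tr l (exc v) : ArithmeticFunction ℂ) n) =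
        ∑ k ∈ range (l + 1), fun n => (pk k (exc v) : ArithmeticFunction ℂ) n := by
      funext n
      rw [Finset.sum_apply, tr_apply]
      simp only [pk_apply]
      rw [Finset.sum_ite_eq]
      simp only [Finset.mem_range, Nat.lt_succ_iff]
    unfold dp
    rw [h1, LSeries_sum fun k _ => fs_summable (hfs k) _]
    unfold eT
    refine Finset.sum_congr rfl fun k _ => ?_
    exact dp_pk hZ hv t k

end Pool.Agent.Q151.EW.Expc
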