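import Pool.Agent.Q151.EW.Com

set_option autoImplicit false

/-! # Project EWF, job FRZ: frozen moments of zeta in windows -/

namespace Pool.Agent.Q151.EW

open Filter Topology MeasureTheory Set
open Pool.Agent.Q80.EW

noncomputable section

lemma rpow_split {β r : ℝ} (hβ : 2 ≤ β) (hr : 0 ≤ r) : r ^ β = r ^ (β - 2) * r ^ 2 := by
  have h : r ^ β = r ^ ((β - 2) + 2) := by congr 1; ring
  rw [h, Real.rpow_add_of_nonneg hr (by linarith) (by norm_num), Real.rpow_two]

lemma exp_rpow (a c : ℝ) : Real.exp a ^ c = Real.exp (c * a) := by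
  rw [← Real.exp_mul, mul_comm]

/-- upper bound for the moment -/
lemma up {β t U R : ℝ} (hβ : 2 ≤ β) (hU : 0 ≤ U) (h : ∀ u ∈ Icc t (t + U), ‖ze u‖ ≤ R) :
    ∫ u in t..(t + U), ‖ze u‖ ^ β ≤ R ^ (β - 2) * ∫ u in t..(t + U), ‖ze u‖ ^ 2 := by
  rw [← intervalIntegral.integral_const_mul]
  apply intervalIntegral.integral_mono_on (by linarith)
  · exact (ze_cont.norm.rpow_const fun u => Or.inr (by linarith)).intervalIntegrable _ _
  · exact ((ze_cont.norm.pow 2).const_mul _).intervalIntegrable _ _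
  · intro u hu
    rw [rpow_split hβ (norm_nonneg _)]
    have h1 : ‖ze u‖ ^ (β - 2) ≤ R ^ (β - 2) :=
      Real.rpow_le_rpow (norm_nonneg _) (h u hu) (by linarith)
    exact mul_le_mul_of_nonneg_right h1 (sq_nonneg _)

/-- lower bound for the moment -/
lemma low {β t U thr : ℝ} (hβ : 2 ≤ β) (hU : 0 ≤ U) (hthr : 0 ≤ thr) :
    thr ^ (β - 2) * ((∫ u in t..(t + U), ‖ze u‖ ^ 2) -
      ∫ u in t..(t + U), indicator {s | ‖ze s‖ ≤ thr} (fun s => ‖ze s‖ ^ 2) u) ≤
    ∫ u in t..(t + U), ‖ze u‖ ^ β := by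
  have i2 : IntervalIntegrable (fun u => ‖ze u‖ ^ 2) volume t (t + U) :=
    (ze_cont.norm.pow 2).intervalIntegrable _ _
  have i3 := ind_int thr t (t + U)
  rw [← intervalIntegral.integral_sub i2 i3, ← intervalIntegral.integral_const_mul]
  apply intervalIntegral.integral_mono_on (by linarith)
  · exact (i2.sub i3).const_mul _
  · exact (ze_cont.norm.rpow_const fun u => Or.inr (by linarith)).intervalIntegrable _ _
  · intro u _
    by_cases hu : ‖ze u‖ ≤ thr
    · rw [indicator_of_mem (by exact hu)]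
      simp only [sub_self, mul_zero]
      exact Real.rpow_nonneg (norm_nonneg _) _
    · rw [indicator_of_notMem (by exact hu), sub_zero, rpow_split hβ (norm_nonneg _)]
      push Not at hu
      have h1 : thr ^ (β - 2) ≤ ‖ze u‖ ^ (β - 2) :=
        Real.rpow_le_rpow hthr hu.le (by linarith)
      exact mul_le_mul_of_nonneg_right h1 (sq_nonneg _)

/-- FRZ. -/
theorem t_FRZ (hM : J_MAIN) (hMx : J_MAINx) (hS : J_MAXx) (hE : J_EF) : J_FRZ := by
  intro β ε K hβ hε
  obtain ⟨κ, hκ⟩ : ∃ κ, κ = ε / (4 * (β + 1)) := ⟨_, rfl⟩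
  have hκ0 : 0 < κ := by rw [hκ]; positivity
  have hκ1 : (β + 1) * κ = ε / 4 := by rw [hκ]; field_simp
  have hκ2 : (β - 2) * κ ≤ ε / 4 := by nlinarith
  have hκ3 : κ ≤ ε / 4 := by nlinarith
  obtain ⟨c, hc, hcb⟩ := unif hE.2.1 κ (K / 2) (half_pos hε) hκ0
  obtain ⟨δ, hδ⟩ : ∃ δ, δ = min (c / 4) (min (ε / 4) 1) := ⟨_, rfl⟩
  have hδ0 : 0 < δ := by rw [hδ]; positivity
  have hδ1 : δ ≤ c / 4 := by rw [hδ]; exact min_le_left _ _
  have hδ2 : δ ≤ ε / 4 := by rw [hδ]; exact (min_le_right _ _).trans (min_le_left _ _)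
  have hδ3 : δ ≤ 1 := by rw [hδ]; exact (min_le_right _ _).trans (min_le_right _ _)
  filter_upwards [hM δ hδ0, hMx δ hδ0, hS κ K hκ0, ev_le K, eventually_gt_atTop 1,
    La_tend.eventually (eventually_gt_atTop 0),
    sqLa_tend.eventually (eventually_ge_atTop (2 / ε * |Real.log 2|)),
    sqLa_tend.eventually (eventually_ge_atTop (2 / ε * |Real.log (c / 2)|))]
    with T g1 g2 g3 hKT hT hLa hs2 hsc U hU1 hU2
  obtain ⟨s, hs⟩ : ∃ s, s = Real.sqrt (La T) := ⟨_, rfl⟩
  have hs0 : 0 < s := by rw [hs]; exact Real.sqrt_pos.mpr hLa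
  rw [← hs] at hs2 hsc hU1 hU2 g3 hKT g1 g2 ⊢
  have hL : Real.exp (La T) = Real.log T := expLa hT
  have hL0 : 0 < Real.log T := Real.log_pos hT
  have hU0 : 0 < U := (Real.exp_pos _).trans_le hU1
  have hU1' : 1 ≤ U := by
    refine le_trans ?_ hU1
    rw [← Real.exp_zero]
    exact Real.exp_le_exp.mpr (by positivity)
  have hUT : U ≤ T := hU2.trans hKT
  have hUκ : Real.exp (κ * s) ≤ U := by
    refine le_trans (Real.exp_le_exp.mpr ?_) hU1
    have : κ ≤ ε := by linarith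
    gcongr
  have g1' := g1 U hU1' hUT
  have g2' := g2 U hU1' hUT
  have g3' := g3 U hUκ hU2
  clear g1 g2 g3
  obtain ⟨b, hb⟩ : ∃ b, b = Real.log U / (2 * s) := ⟨_, rfl⟩
  have hbs : b * s = Real.log U / 2 := by rw [hb]; field_simp
  have hb1 : ε / 2 ≤ b := by
    have h1 : ε * s ≤ Real.log U := (Real.le_log_iff_exp_le hU0).mpr hU1
    rw [hb, le_div_iff₀ (by positivity)]
    linarith
  have hb2 : b ≤ K / 2 := by
    have h1 : Real.log U ≤ K * s := (Real.log_le_iff_le_exp hU0).mpr hU2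
    rw [hb, div_le_iff₀ (by positivity)]
    linarith
  rw [← hb] at g1' g2'
  obtain ⟨S1, hS1⟩ : ∃ S1, S1 = {t : ℝ | t ∈ Set.Icc T (2 * T) ∧ δ < |MM U T t - erf b|} :=
    ⟨_, rfl⟩
  obtain ⟨S2, hS2⟩ : ∃ S2, S2 = {t : ℝ | t ∈ Set.Icc T (2 * T) ∧
    ∃ x : ℝ, δ < |MZ U T x t - GX b x|} := ⟨_, rfl⟩
  obtain ⟨S3, hS3⟩ : ∃ S3, S3 = {t : ℝ | t ∈ Set.Icc T (2 * T) ∧
      κ * s < |Real.log (⨆ u : Set.Icc t (t + U), ‖ze u‖) - La T - Real.log U / 2|} := ⟨_, rfl⟩
  rw [← hS1] at g1'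
  rw [← hS2] at g2'
  rw [← hS3] at g3'
  have f1 : S1 ⊆ Icc T (2 * T) := by rw [hS1]; exact fun t ht => ht.1
  have f2 : S2 ⊆ Icc T (2 * T) := by rw [hS2]; exact fun t ht => ht.1
  have f3 : S3 ⊆ Icc T (2 * T) := by rw [hS3]; exact fun t ht => ht.1
  have g12 := bad_le (le_refl (S1 ∪ S2)) f1 f2 g1' g2'
  have hT0 : 0 < T := by linarith
  have key : ∀ t ∈ Icc T (2 * T), t ∉ S1 → t ∉ S2 → t ∉ S3 →
      |Real.log (1 / U * ∫ u in t..(t + U), ‖ze u‖ ^ β) -
        ((β - 1) * La T + (β / 2 - 1) * Real.log U)| ≤ ε * s := by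
    intro t ht h1 h2 h3
    have e1 : |MM U T t - erf b| ≤ δ := by
      by_contra hh
      push Not at hh
      exact h1 (by rw [hS1]; exact ⟨ht, hh⟩)
    have e2 : ∀ x, |MZ U T x t - GX b x| ≤ δ := by
      intro x
      by_contra hh
      push Not at hh
      exact h2 (by rw [hS2]; exact ⟨ht, x, hh⟩)
    have e3 : |Real.log (⨆ u : Set.Icc t (t + U), ‖ze u‖) - La T - Real.log U / 2| ≤ κ * s := by
      by_contra hh
      push Not at hh
      exact h3 (by rw [hS3]; exact ⟨ht, hh⟩)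
    obtain ⟨J, hJ⟩ : ∃ J, J = ∫ u in t..(t + U), ‖ze u‖ ^ 2 := ⟨_, rfl⟩
    obtain ⟨I, hI⟩ : ∃ I, I = ∫ u in t..(t + U), ‖ze u‖ ^ β := ⟨_, rfl⟩
    have hJM : J = U * Real.log T * MM U T t := by
      unfold MM
      rw [← hJ]; field_simp
    have hMM2 : MM U T t ≤ 2 := by
      have := (hE.2.2.2.1 b (by linarith)).2
      have := (abs_le.mp e1).2
      linarith
    -- upper bound
    obtain ⟨R, hR⟩ : ∃ R, R = Real.exp (La T + Real.log U / 2 + κ * s) := ⟨_, rfl⟩
    have hbd : BddAbove (range fun u : Set.Icc t (t + U) => ‖ze u‖) := by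
      have h1 : IsCompact ((fun u => ‖ze u‖) '' Icc t (t + U)) :=
        isCompact_Icc.image ze_cont.norm
      refine h1.bddAbove.mono ?_
      rintro _ ⟨u, rfl⟩
      exact ⟨u, u.2, rfl⟩
    have hsup : (⨆ u : Set.Icc t (t + U), ‖ze u‖) ≤ R := by
      by_cases hpos : 0 < ⨆ u : Set.Icc t (t + U), ‖ze u‖
      · rw [hR, ← Real.log_le_iff_le_exp hpos]
        have := (abs_le.mp e3).2
        linarith
      · push Not at hpos
        rw [hR]
        exact hpos.trans (Real.exp_pos _).le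
    have hle : ∀ u ∈ Icc t (t + U), ‖ze u‖ ≤ R := fun u hu => (le_ciSup hbd ⟨u, hu⟩).trans hsup
    have u1 := up hβ hU0.le hle
    rw [← hI, ← hJ] at u1
    have u2 : 1 / U * I ≤ Real.exp (Real.log 2 + La T + (β - 2) * (La T + Real.log U / 2 + κ * s)) := by
      rw [Real.exp_add, Real.exp_add, Real.exp_log two_pos, hL, ← exp_rpow, ← hR]
      have h5 : 1 / U * I ≤ 1 / U * (R ^ (β - 2) * (U * Real.log T * 2)) := by
        have h6 : J ≤ U * Real.log T * 2 := by
          rw [hJM]; gcongr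
        have h7 : 0 ≤ R ^ (β - 2) := Real.rpow_nonneg (by rw [hR]; exact (Real.exp_pos _).le) _
        have h8 : I ≤ R ^ (β - 2) * (U * Real.log T * 2) :=
          u1.trans (mul_le_mul_of_nonneg_left h6 h7)
        exact mul_le_mul_of_nonneg_left h8 (by positivity)
      refine h5.trans (le_of_eq ?_)
      field_simp
    -- lower bound
    obtain ⟨thr, hthr⟩ : ∃ thr, thr = Real.exp ((b - κ) * s) * Real.log T := ⟨_, rfl⟩
    have hthr' : thr = Real.exp (La T + Real.log U / 2 - κ * s) := by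
      rw [hthr, ← hL, ← Real.exp_add, ← hbs]; congr 1; ring
    have hthr0 : 0 < thr := by rw [hthr']; exact Real.exp_pos _
    have l1 := low (t := t) hβ hU0.le hthr0.le
    rw [← hI, ← hJ] at l1
    obtain ⟨J', hJ'⟩ : ∃ J', J' = ∫ u in t..(t + U),
      indicator {s | ‖ze s‖ ≤ thr} (fun s => ‖ze s‖ ^ 2) u := ⟨_, rfl⟩
    rw [← hJ'] at l1
    have hJM' : J' = U * Real.log T * MZ U T (b - κ) t := by
      unfold MZ
      rw [← hs, ← hthr, ← hJ']; field_simp
    have l2 : c / 2 ≤ MM U T t - MZ U T (b - κ) t := by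
      have h5 := hcb b (b - κ) hb1 hb2 (by linarith) (by linarith)
      rw [sub_add_cancel, GX_self] at h5
      have h6 := (abs_le.mp e1).1
      have h7 := (abs_le.mp (e2 (b - κ))).2
      linarith
    have l3 : Real.exp (Real.log (c / 2) + La T + (β - 2) * (La T + Real.log U / 2 - κ * s)) ≤
        1 / U * I := by
      rw [Real.exp_add, Real.exp_add, Real.exp_log (by positivity), hL, ← exp_rpow, ← hthr']
      have h5 : U * Real.log T * (c / 2) ≤ J - J' := by
        rw [hJM, hJM', ← mul_sub]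
        gcongr
      have h7 : 0 ≤ thr ^ (β - 2) := Real.rpow_nonneg hthr0.le _
      have h8 : thr ^ (β - 2) * (U * Real.log T * (c / 2)) ≤ I :=
        (mul_le_mul_of_nonneg_left h5 h7).trans l1
      have h9 := mul_le_mul_of_nonneg_left h8 (by positivity : 0 ≤ 1 / U)
      refine le_trans (le_of_eq ?_) h9
      field_simp
    have hpos : 0 < 1 / U * I := (Real.exp_pos _).trans_le l3
    have m1 := (Real.log_le_iff_le_exp hpos).mpr u2
    have m2 := (Real.le_log_iff_exp_le hpos).mpr l3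
    rw [← hI]
    have m3 : |Real.log 2| ≤ ε / 2 * s := by
      have h5 : 2 / ε * |Real.log 2| = |Real.log 2| / (ε / 2) := by field_simp
      rw [h5, div_le_iff₀ (by positivity)] at hs2
      linarith
    have m4 : |Real.log (c / 2)| ≤ ε / 2 * s := by
      have h5 : 2 / ε * |Real.log (c / 2)| = |Real.log (c / 2)| / (ε / 2) := by field_simp
      rw [h5, div_le_iff₀ (by positivity)] at hsc
      linarith
    have m5 : (β - 2) * κ * s ≤ ε / 4 * s := mul_le_mul_of_nonneg_right hκ2 hs0.le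
    have m6 : 0 ≤ ε * s := by positivity
    rw [abs_le]
    constructor
    · have := (abs_le.mp m4).1
      nlinarith
    · have := (abs_le.mp m3).2
      nlinarith
  have hsub : {t : ℝ | t ∈ Set.Icc T (2 * T) ∧
      ε * s < |Real.log (1 / U * ∫ u in t..(t + U), ‖ze u‖ ^ β) -
        ((β - 1) * La T + (β / 2 - 1) * Real.log U)|} ⊆ (S1 ∪ S2) ∪ S3 := by
    rintro t ⟨ht, hlt⟩
    by_contra hh
    rw [mem_union, mem_union, not_or, not_or] at hh
    exact absurd (key t ht hh.1.1 hh.1.2 hh.2) (not_le.mpr hlt)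
  refine (bad_le hsub (union_subset f1 f2) f3 g12 g3').trans ?_
  apply mul_le_mul_of_nonneg_right _ hT0.le
  linarith

end

end Pool.Agent.Q151.EW
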