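import Pool.Agent.Q151.EW.Com

set_option autoImplicit false

/-! # Project EWF, job HIP: the number of high points of zeta in windows -/

namespace Pool.Agent.Q151.EW

open Filter Topology MeasureTheory Set
open Pool.Agent.Q80.EW

noncomputable section

lemma hi_meas (thr : ℝ) : MeasurableSet {s | thr < ‖ze s‖} :=
  (isOpen_lt continuous_const ze_cont.norm).measurableSet

lemma hi_int (thr a b : ℝ) :
    IntervalIntegrable (indicator {s | thr < ‖ze s‖} fun _ => (1 : ℝ)) volume a b := by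
  have h1 : IntervalIntegrable (fun _ : ℝ => (1 : ℝ)) volume a b :=
    continuous_const.intervalIntegrable a b
  rw [intervalIntegrable_iff] at h1 ⊢
  exact h1.indicator (hi_meas thr)

lemma mu_eq {t U : ℝ} (thr : ℝ) (hU : 0 ≤ U) :
    (volume {u : ℝ | u ∈ Icc t (t + U) ∧ thr < ‖ze u‖}).toReal =
      ∫ u in t..(t + U), indicator {s | thr < ‖ze s‖} (fun _ => (1 : ℝ)) u := by
  rw [intervalIntegral.integral_of_le (by linarith), ← integral_Icc_eq_integral_Ioc,
    setIntegral_indicator (hi_meas thr), setIntegral_const, smul_eq_mul, mul_one]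
  rfl

lemma hi_up {t U thr : ℝ} (hU : 0 ≤ U) (hthr : 0 ≤ thr) :
    thr ^ 2 * (volume {u : ℝ | u ∈ Icc t (t + U) ∧ thr < ‖ze u‖}).toReal ≤
      ∫ u in t..(t + U), ‖ze u‖ ^ 2 := by
  rw [mu_eq thr hU, ← intervalIntegral.integral_const_mul]
  apply intervalIntegral.integral_mono_on (by linarith)
  · exact (hi_int thr _ _).const_mul _
  · exact (ze_cont.norm.pow 2).intervalIntegrable _ _
  · intro u _
    by_cases hu : thr < ‖ze u‖
    · rw [indicator_of_mem (by exact hu), mul_one]
      exact pow_le_pow_left₀ hthr hu.le 2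
    · rw [indicator_of_notMem (by exact hu), mul_zero]
      positivity

lemma hi_low {t U thr thr' : ℝ} (hU : 0 ≤ U) (h : thr ≤ thr') :
    (∫ u in t..(t + U), indicator {s | ‖ze s‖ ≤ thr'} (fun s => ‖ze s‖ ^ 2) u) -
      (∫ u in t..(t + U), indicator {s | ‖ze s‖ ≤ thr} (fun s => ‖ze s‖ ^ 2) u) ≤
    thr' ^ 2 * (volume {u : ℝ | u ∈ Icc t (t + U) ∧ thr < ‖ze u‖}).toReal := by
  have i1 := ind_int thr' t (t + U)
  have i2 := ind_int thr t (t + U)
  rw [mu_eq thr hU, ← intervalIntegral.integral_const_mul, ← intervalIntegral.integral_sub i1 i2]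
  apply intervalIntegral.integral_mono_on (by linarith)
  · exact i1.sub i2
  · exact (hi_int thr _ _).const_mul _
  · intro u _
    by_cases hu : thr < ‖ze u‖
    · rw [indicator_of_mem (s := {s | thr < ‖ze s‖}) (by exact hu), mul_one,
        indicator_of_notMem (s := {s | ‖ze s‖ ≤ thr}) (by exact not_le.mpr hu), sub_zero]
      by_cases hu' : ‖ze u‖ ≤ thr'
      · rw [indicator_of_mem (by exact hu')]
        exact pow_le_pow_left₀ (norm_nonneg _) hu' 2
      · rw [indicator_of_notMem (by exact hu')]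
        positivity
    · rw [indicator_of_notMem (s := {s | thr < ‖ze s‖}) (by exact hu), mul_zero]
      push Not at hu
      rw [indicator_of_mem (s := {s | ‖ze s‖ ≤ thr}) (by exact hu),
        indicator_of_mem (s := {s | ‖ze s‖ ≤ thr'}) (by exact hu.trans h), sub_self]

/-- HIP. -/
theorem t_HIP (hM : J_MAIN) (hMx : J_MAINx) (hE : J_EF) : J_HIP := by
  intro A ε K hε
  obtain ⟨κ, hκ⟩ : ∃ κ, κ = ε / 4 := ⟨_, rfl⟩
  have hκ0 : 0 < κ := by rw [hκ]; positivity
  obtain ⟨c, hc, hcb⟩ := unif hE.2.1 A (K / 2) (half_pos hε) hκ0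
  obtain ⟨δ, hδ⟩ : ∃ δ, δ = min (c / 4) (min (ε / 4) 1) := ⟨_, rfl⟩
  have hδ0 : 0 < δ := by rw [hδ]; positivity
  have hδ1 : δ ≤ c / 4 := by rw [hδ]; exact min_le_left _ _
  have hδ2 : δ ≤ ε / 4 := by rw [hδ]; exact (min_le_right _ _).trans (min_le_left _ _)
  have hδ3 : δ ≤ 1 := by rw [hδ]; exact (min_le_right _ _).trans (min_le_right _ _)
  filter_upwards [hM δ hδ0, hMx δ hδ0, ev_le K, eventually_gt_atTop 1,
    La_tend.eventually (eventually_gt_atTop 0),
    sqLa_tend.eventually (eventually_ge_atTop (2 / ε * |Real.log 2|)),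
    sqLa_tend.eventually (eventually_ge_atTop (2 / ε * |Real.log (c / 2)|))]
    with T g1 g2 hKT hT hLa hs2 hsc U hU1 hU2
  obtain ⟨s, hs⟩ : ∃ s, s = Real.sqrt (La T) := ⟨_, rfl⟩
  have hs0 : 0 < s := by rw [hs]; exact Real.sqrt_pos.mpr hLa
  rw [← hs] at hs2 hsc hU1 hU2 hKT g1 g2 ⊢
  have hL : Real.exp (La T) = Real.log T := expLa hT
  have hL0 : 0 < Real.log T := Real.log_pos hT
  have hU0 : 0 < U := (Real.exp_pos _).trans_le hU1
  have hU1' : 1 ≤ U := by
    refine le_trans ?_ hU1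
    rw [← Real.exp_zero]
    exact Real.exp_le_exp.mpr (by positivity)
  have hUT : U ≤ T := hU2.trans hKT
  have g1' := g1 U hU1' hUT
  have g2' := g2 U hU1' hUT
  clear g1 g2
  obtain ⟨b, hb⟩ : ∃ b, b = Real.log U / (2 * s) := ⟨_, rfl⟩
  have hb1 : ε / 2 ≤ b := by
    have h1 : ε * s ≤ Real.log U := (Real.le_log_iff_exp_le hU0).mpr hU1
    rw [hb, le_div_iff₀ (by positivity)]
    linarith
  have hb2 : b ≤ K / 2 := by
    have h1 : Real.log U ≤ K * s := (Real.log_le_iff_le_exp hU0).mpr hU2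
    rw [hb, div_le_iff₀ (by positivity)]
    linarith
  rw [← hb] at g1' g2' ⊢
  obtain ⟨S1, hS1⟩ : ∃ S1, S1 = {t : ℝ | t ∈ Set.Icc T (2 * T) ∧ δ < |MM U T t - erf b|} :=
    ⟨_, rfl⟩
  obtain ⟨S2, hS2⟩ : ∃ S2, S2 = {t : ℝ | t ∈ Set.Icc T (2 * T) ∧
    ∃ x : ℝ, δ < |MZ U T x t - GX b x|} := ⟨_, rfl⟩
  rw [← hS1] at g1'
  rw [← hS2] at g2'
  have f1 : S1 ⊆ Icc T (2 * T) := by rw [hS1]; exact fun t ht => ht.1
  have f2 : S2 ⊆ Icc T (2 * T) := by rw [hS2]; exact fun t ht => ht.1
  have hT0 : 0 < T := by linarith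
  have key : ∀ t ∈ Icc T (2 * T), t ∉ S1 → t ∉ S2 → ∀ x ∈ Icc (-A) (b - ε),
      |Real.log ((volume {u : ℝ | u ∈ Icc t (t + U) ∧
        Real.exp (x * s) * Real.log T < ‖ze u‖}).toReal / U) + (La T + 2 * x * s)| ≤ ε * s := by
    intro t ht h1 h2 x hx
    have e1 : |MM U T t - erf b| ≤ δ := by
      by_contra hh
      push Not at hh
      exact h1 (by rw [hS1]; exact ⟨ht, hh⟩)
    have e2 : ∀ x, |MZ U T x t - GX b x| ≤ δ := by
      intro x
      by_contra hh
      push Not at hh
      exact h2 (by rw [hS2]; exact ⟨ht, x, hh⟩)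
    obtain ⟨J, hJ⟩ : ∃ J, J = ∫ u in t..(t + U), ‖ze u‖ ^ 2 := ⟨_, rfl⟩
    have hJM : J = U * Real.log T * MM U T t := by
      unfold MM
      rw [← hJ]; field_simp
    have hMM2 : MM U T t ≤ 2 := by
      have := (hE.2.2.2.1 b (by linarith)).2
      have := (abs_le.mp e1).2
      linarith
    obtain ⟨thr, hthr⟩ : ∃ thr : ℝ → ℝ, ∀ y, thr y = Real.exp (y * s) * Real.log T :=
      ⟨_, fun _ => rfl⟩
    have hthr' : ∀ y, thr y = Real.exp (La T + y * s) := by
      intro y
      rw [hthr, ← hL, ← Real.exp_add]; congr 1; ring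
    have hthr0 : ∀ y, 0 < thr y := by intro y; rw [hthr']; exact Real.exp_pos _
    obtain ⟨μ, hμ⟩ : ∃ μ, μ = (volume {u : ℝ | u ∈ Icc t (t + U) ∧ thr x < ‖ze u‖}).toReal :=
      ⟨_, rfl⟩
    rw [← hthr x, ← hμ]
    -- upper bound
    have u1 := hi_up (t := t) hU0.le (hthr0 x).le
    rw [← hμ, ← hJ] at u1
    have u2 : μ / U ≤ Real.exp (Real.log 2 - La T - 2 * x * s) := by
      rw [div_le_iff₀ hU0]
      have h6 : J ≤ U * Real.log T * 2 := by
        rw [hJM]; gcongr
      have h7 := u1.trans h6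
      have h8 : U * Real.log T * 2 = thr x ^ 2 *
          (Real.exp (Real.log 2 - La T - 2 * x * s) * U) := by
        have e : Real.exp (Real.log 2 - La T - 2 * x * s) * (thr x ^ 2) = 2 * Real.log T := by
          rw [hthr', ← Real.exp_nat_mul, ← Real.exp_add, ← hL]
          have : Real.log 2 - La T - 2 * x * s + ((2 : ℕ) : ℝ) * (La T + x * s) =
            Real.log 2 + La T := by push_cast; ring
          rw [this, Real.exp_add, Real.exp_log two_pos]
        linear_combination -U * e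
      rw [h8] at h7
      exact le_of_mul_le_mul_left h7 (pow_pos (hthr0 x) 2)
    -- lower bound
    have hxx : thr x ≤ thr (x + κ) := by
      rw [hthr', hthr']
      apply Real.exp_le_exp.mpr
      nlinarith
    have l1 := hi_low (t := t) hU0.le hxx
    rw [← hμ] at l1
    have hJM' : ∀ y, (∫ u in t..(t + U), indicator {s | ‖ze s‖ ≤ thr y}
        (fun s => ‖ze s‖ ^ 2) u) = U * Real.log T * MZ U T y t := by
      intro y
      unfold MZ
      rw [← hs, ← hthr y]; field_simp
    rw [hJM', hJM', ← mul_sub] at l1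
    have l2 : c / 2 ≤ MZ U T (x + κ) t - MZ U T x t := by
      have h5 := hcb b x hb1 hb2 hx.1 (by have := hx.2; linarith)
      have h6 := (abs_le.mp (e2 (x + κ))).1
      have h7 := (abs_le.mp (e2 x)).2
      linarith
    have l3 : Real.exp (Real.log (c / 2) - La T - 2 * x * s - 2 * κ * s) ≤ μ / U := by
      rw [le_div_iff₀ hU0]
      have h5 : U * Real.log T * (c / 2) ≤ thr (x + κ) ^ 2 * μ := by
        refine le_trans ?_ l1
        gcongr
      have h8 : U * Real.log T * (c / 2) = thr (x + κ) ^ 2 *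
          (Real.exp (Real.log (c / 2) - La T - 2 * x * s - 2 * κ * s) * U) := by
        have e : Real.exp (Real.log (c / 2) - La T - 2 * x * s - 2 * κ * s) *
            (thr (x + κ) ^ 2) = (c / 2) * Real.log T := by
          rw [hthr', ← Real.exp_nat_mul, ← Real.exp_add, ← hL]
          have : Real.log (c / 2) - La T - 2 * x * s - 2 * κ * s +
              ((2 : ℕ) : ℝ) * (La T + (x + κ) * s) =
            Real.log (c / 2) + La T := by push_cast; ring
          rw [this, Real.exp_add, Real.exp_log (by positivity)]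
        linear_combination -U * e
      rw [h8] at h5
      exact le_of_mul_le_mul_left h5 (pow_pos (hthr0 _) 2)
    have hpos : 0 < μ / U := (Real.exp_pos _).trans_le l3
    have m1 := (Real.log_le_iff_le_exp hpos).mpr u2
    have m2 := (Real.le_log_iff_exp_le hpos).mpr l3
    have m3 : |Real.log 2| ≤ ε / 2 * s := by
      have h5 : 2 / ε * |Real.log 2| = |Real.log 2| / (ε / 2) := by field_simp
      rw [h5, div_le_iff₀ (by positivity)] at hs2
      linarith
    have m4 : |Real.log (c / 2)| ≤ ε / 2 * s := by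
      have h5 : 2 / ε * |Real.log (c / 2)| = |Real.log (c / 2)| / (ε / 2) := by field_simp
      rw [h5, div_le_iff₀ (by positivity)] at hsc
      linarith
    have m5 : 2 * κ * s = ε / 2 * s := by rw [hκ]; ring
    have m6 : 0 ≤ ε * s := by positivity
    rw [abs_le]
    constructor
    · have := (abs_le.mp m4).1
      linarith
    · have := (abs_le.mp m3).2
      linarith
  have hsub : {t : ℝ | t ∈ Set.Icc T (2 * T) ∧ ∃ x ∈ Set.Icc (-A) (b - ε),
      ε * s < |Real.log ((volume {u : ℝ | u ∈ Set.Icc t (t + U) ∧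
        Real.exp (x * s) * Real.log T < ‖ze u‖}).toReal / U) +
        (La T + 2 * x * s)|} ⊆ S1 ∪ S2 := by
    rintro t ⟨ht, x, hx, hlt⟩
    by_contra hh
    rw [mem_union, not_or] at hh
    exact absurd (key t ht hh.1 hh.2 x hx) (not_le.mpr hlt)
  refine (bad_le hsub f1 f2 g1' g2').trans ?_
  apply mul_le_mul_of_nonneg_right _ hT0.le
  linarith

end

end Pool.Agent.Q151.EW
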