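import Pool.Agent.Q247.EW.LV2
import Pool.Agent.Q80.EW.Stm6

/-! Project EWX of helper80, job LV2x (adapted from the proof of LV2 by helper247). -/

set_option autoImplicit false

namespace Pool.Agent.Q151.EW

open Filter Topology MeasureTheory ProbabilityTheory Pool.Agent.Q80.EW Pool.Agent.Q247.EW

noncomputable section

section

variable {J : Type} [Fintype J]

/-- a polyhedron -/
theorem poly' {m : ℕ} {K : Type} [Finite K] {L : K → (J → ℝ) → ℝ} {β : K → ℝ}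
    (hL : ∀ k, Continuous (L k)) (h0 : ∀ k, gm m J {x | L k x = β k} = 0) :
    MeasurableSet {x | ∀ k, L k x ≤ β k} ∧ gm m J (frontier {x | ∀ k, L k x ≤ β k}) = 0 := by
  have hcl : IsClosed {x | ∀ k, L k x ≤ β k} := by
    rw [Set.ofPred_forall]
    exact isClosed_iInter fun k => isClosed_le (hL k) continuous_const
  refine ⟨hcl.measurableSet, ?_⟩
  refine measure_mono_null ?_ (measure_iUnion_null h0)
  intro x hx
  rw [hcl.frontier_eq, Set.mem_sdiff] at hx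
  by_contra h
  rw [Set.mem_iUnion, not_exists] at h
  apply hx.2
  have hop : IsOpen {x | ∀ k, L k x < β k} := by
    rw [Set.ofPred_forall]
    exact isOpen_iInter_of_finite fun k => isOpen_lt (hL k) continuous_const
  refine mem_interior.2 ⟨{x | ∀ k, L k x < β k}, fun y hy k => (hy k).le, hop, fun k => ?_⟩
  exact lt_of_le_of_ne (hx.1 k) (h k)

end

/-- the weights of the partial sums and of the total sum -/
def wg (m : ℕ) : Fin m ⊕ Unit → Fin m → ℝ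
  | Sum.inl k => fun i => if i ∈ Finset.Iic k then 1 else 0
  | Sum.inr _ => fun _ => 1

/-- the bounds -/
def bd (m : ℕ) (b x : ℝ) : Fin m ⊕ Unit → ℝ
  | Sum.inl _ => b
  | Sum.inr _ => x

theorem lf_wg_l (m : ℕ) (k : Fin m) (z : Fin m → ℝ) :
    lf (wg m (Sum.inl k)) z = ∑ i ∈ Finset.Iic k, z i := by
  unfold lf wg
  simp only [ite_mul, one_mul, zero_mul]
  rw [Finset.sum_ite_mem, Finset.univ_inter]

theorem lf_wg_r (m : ℕ) (u : Unit) (z : Fin m → ℝ) : lf (wg m (Sum.inr u)) z = ∑ i, z i := by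
  unfold lf wg
  simp only [one_mul]

theorem wg_ne {m : ℕ} (hm : 1 ≤ m) (k : Fin m ⊕ Unit) : ∃ j : Fin m, wg m k j ≠ 0 := by
  rcases k with k | u
  · exact ⟨k, by simp [wg]⟩
  · exact ⟨⟨0, hm⟩, by simp [wg]⟩

theorem set_one (m : ℕ) (b x : ℝ) :
    {z : Fin m → ℝ | (∀ k : Fin m, ∑ i ∈ Finset.Iic k, z i ≤ b) ∧ ∑ i, z i ≤ x} =
      {z | ∀ k, lf (wg m k) z ≤ bd m b x k} := by
  ext z
  constructor
  · rintro ⟨h1, h2⟩ k
    rcases k with k | u
    · rw [lf_wg_l]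
      exact h1 k
    · rw [lf_wg_r]
      exact h2
  · intro h
    refine ⟨fun k => ?_, ?_⟩
    · rw [← lf_wg_l]
      exact h (Sum.inl k)
    · rw [← lf_wg_r m ()]
      exact h (Sum.inr ())

theorem t_LV2x : J_LV2x := by
  intro m b x hm
  obtain ⟨w1, hw1⟩ : ∃ w1 : Fin m ⊕ Unit → Fin m ⊕ Fin m → ℝ,
    w1 = fun k => Sum.elim (wg m k) (fun _ => (0 : ℝ)) := ⟨_, rfl⟩
  obtain ⟨w2, hw2⟩ : ∃ w2 : Fin m ⊕ Unit → Fin m ⊕ Fin m → ℝ,
    w2 = fun k => Sum.elim (fun _ => (0 : ℝ)) (wg m k) := ⟨_, rfl⟩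
  have e2 : ∀ k, ∀ z : Fin m ⊕ Fin m → ℝ, lf (wg m k) (fun i => z (Sum.inl i)) = lf (w1 k) z := by
    intro k z
    unfold lf
    rw [Fintype.sum_sum_type, hw1]
    simp
  have e3 : ∀ k, ∀ z : Fin m ⊕ Fin m → ℝ, lf (wg m k) (fun i => z (Sum.inr i)) = lf (w2 k) z := by
    intro k z
    unfold lf
    rw [Fintype.sum_sum_type, hw2]
    simp
  have p1 := poly' (m := m) (J := Fin m) (L := fun k => lf (wg m k)) (β := bd m b x)
    (fun k => lf_cont _) (fun k => by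
      obtain ⟨j, hj⟩ := wg_ne hm k
      exact gm_null hm hj _)
  rw [← set_one] at p1
  have p2 := poly' (m := m) (J := Fin m ⊕ Fin m)
    (L := fun k : (Fin m ⊕ Unit) ⊕ (Fin m ⊕ Unit) => lf (Sum.elim w1 w2 k))
    (β := Sum.elim (bd m b x) (bd m b x))
    (fun k => lf_cont _) (fun k => by
      rcases k with k | k
      · obtain ⟨j, hj⟩ := wg_ne hm k
        exact gm_null hm (j := Sum.inl j) (by rw [hw1]; exact hj) _
      · obtain ⟨j, hj⟩ := wg_ne hm k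
        exact gm_null hm (j := Sum.inr j) (by rw [hw2]; exact hj) _)
  have hset : {z : Fin m ⊕ Fin m → ℝ | ∀ k : (Fin m ⊕ Unit) ⊕ (Fin m ⊕ Unit),
      lf (Sum.elim w1 w2 k) z ≤ Sum.elim (bd m b x) (bd m b x) k} =
      {z : Fin m ⊕ Fin m → ℝ |
        ((∀ k : Fin m, ∑ i ∈ Finset.Iic k, z (Sum.inl i) ≤ b) ∧ ∑ i, z (Sum.inl i) ≤ x) ∧
        ((∀ k : Fin m, ∑ i ∈ Finset.Iic k, z (Sum.inr i) ≤ b) ∧ ∑ i, z (Sum.inr i) ≤ x)} := by
    ext z
    have s1 : ((∀ k : Fin m, ∑ i ∈ Finset.Iic k, z (Sum.inl i) ≤ b) ∧ ∑ i, z (Sum.inl i) ≤ x) ↔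
        ∀ k, lf (w1 k) z ≤ bd m b x k := by
      have := Set.ext_iff.1 (set_one m b x) (fun i => z (Sum.inl i))
      simp only [Set.mem_ofPred_eq, e2] at this
      exact this
    have s2 : ((∀ k : Fin m, ∑ i ∈ Finset.Iic k, z (Sum.inr i) ≤ b) ∧ ∑ i, z (Sum.inr i) ≤ x) ↔
        ∀ k, lf (w2 k) z ≤ bd m b x k := by
      have := Set.ext_iff.1 (set_one m b x) (fun i => z (Sum.inr i))
      simp only [Set.mem_ofPred_eq, e3] at this
      exact this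
    rw [Set.mem_ofPred_eq, Set.mem_ofPred_eq, s1, s2]
    constructor
    · intro h
      exact ⟨fun k => h (Sum.inl k), fun k => h (Sum.inr k)⟩
    · rintro ⟨h1, h2⟩ k
      rcases k with k | k
      · exact h1 k
      · exact h2 k
  rw [hset] at p2
  refine ⟨p1.1, p1.2, p2.1, p2.2, ?_⟩
  obtain ⟨A, hA⟩ : ∃ A : Set (Fin m → ℝ),
    A = {z | (∀ k : Fin m, ∑ i ∈ Finset.Iic k, z i ≤ b) ∧ ∑ i, z i ≤ x} := ⟨_, rfl⟩
  have h1 := measurePreserving_sumPiEquivProdPi (X := fun _ : Fin m ⊕ Fin m => ℝ)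
    (fun _ => gaussianReal 0 (Real.toNNReal (1 / (2 * (m : ℝ)))))
  have h2 : {z : Fin m ⊕ Fin m → ℝ |
        ((∀ k : Fin m, ∑ i ∈ Finset.Iic k, z (Sum.inl i) ≤ b) ∧ ∑ i, z (Sum.inl i) ≤ x) ∧
        ((∀ k : Fin m, ∑ i ∈ Finset.Iic k, z (Sum.inr i) ≤ b) ∧ ∑ i, z (Sum.inr i) ≤ x)} =
      (MeasurableEquiv.sumPiEquivProdPi (fun _ : Fin m ⊕ Fin m => ℝ)) ⁻¹' (A ×ˢ A) := by
    rw [hA]
    rfl
  rw [h2, measureReal_def]
  change ((Measure.pi fun _ : Fin m ⊕ Fin m => gaussianReal 0 (Real.toNNReal (1 / (2 * (m : ℝ)))))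
    ((MeasurableEquiv.sumPiEquivProdPi (fun _ : Fin m ⊕ Fin m => ℝ)) ⁻¹' (A ×ˢ A))).toReal = _
  rw [h1.measure_preimage_equiv, Measure.prod_prod, ENNReal.toReal_mul, sq]
  unfold gam2
  rw [← hA]
  rfl

end

end Pool.Agent.Q151.EW
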