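import Pool.Agent.Q129.EW.LV
import Pool.Agent.Q80.EW.Stm6

/-! Project EWX of helper80, job LVx: the reflection principle with the end point
(adapted from the proof of LV by helper129). -/

set_option autoImplicit false

namespace Pool.Agent.Q151.EW

open MeasureTheory ProbabilityTheory Filter Topology
open Pool.Agent.Q80.EW Pool.Agent.Q129.EW

noncomputable section

lemma upper_x {m : ℕ} (b x : ℝ) :
    (gm m (Fin m)).real (pa m b ∩ {z | ∑ i, z i ≤ x}) ≤
      (gm m (Fin m)).real {z | 2 * b - x < ∑ i, z i} := by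
  set μ := gm m (Fin m)
  have hS : MeasurableSet {z : Fin m → ℝ | 2 * b - x < ∑ i, z i} :=
    measurableSet_lt measurable_const ms_sum
  have hS' : MeasurableSet {z : Fin m → ℝ | ∑ i, z i ≤ x} := measurableSet_le ms_sum measurable_const
  have h2 : μ.real (pa m b ∩ {z | ∑ i, z i ≤ x}) ≤ μ.real (pa m b ∩ {z | 2 * b - x < ∑ i, z i}) := by
    rw [real_pa b _ hS, real_pa b _ hS']
    refine Finset.sum_le_sum fun k _ => ?_
    have h3 : fp b k ∩ {z | ∑ i, z i ≤ x} ⊆ rf k ⁻¹' (fp b k ∩ {z | 2 * b - x < ∑ i, z i}) := by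
      rintro z ⟨hx, hx'⟩
      refine ⟨rf_fp b k z hx, ?_⟩
      have h4 := hx.1
      simp only [Set.mem_ofPred_eq] at hx' ⊢
      rw [sum_rf]
      linarith
    calc μ.real (fp b k ∩ {z | ∑ i, z i ≤ x})
        ≤ μ.real (rf k ⁻¹' (fp b k ∩ {z | 2 * b - x < ∑ i, z i})) := measureReal_mono h3
      _ = μ.real (fp b k ∩ {z | 2 * b - x < ∑ i, z i}) :=
        (mp_rf k).measureReal_preimage ((ms_fp b k).inter hS).nullMeasurableSet
  exact h2.trans (measureReal_mono Set.inter_subset_right)

lemma lower_x {m : ℕ} (hm : 0 < m) (b x δ : ℝ) (hb : 0 < b) (hx : x ≤ b) (hδ : 0 < δ) :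
    (gm m (Fin m)).real {z | 2 * b - x + 2 * δ < ∑ i, z i} -
      (gm m (Fin m)).real {z | ∃ i, δ < z i} ≤
        (gm m (Fin m)).real (pa m b ∩ {z | ∑ i, z i ≤ x}) := by
  set μ := gm m (Fin m)
  have hS' : MeasurableSet {z : Fin m → ℝ | ∑ i, z i ≤ x} := measurableSet_le ms_sum measurable_const
  have hS2 : MeasurableSet {z : Fin m → ℝ | 2 * b - x + 2 * δ < ∑ i, z i} :=
    measurableSet_lt measurable_const ms_sum
  have hD : MeasurableSet {z : Fin m → ℝ | ∀ i, z i ≤ δ} := by
    have : {z : Fin m → ℝ | ∀ i, z i ≤ δ} = ⋂ i : Fin m, {z | z i ≤ δ} := by ext z; simp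
    rw [this]
    exact MeasurableSet.iInter fun i => measurableSet_le (measurable_pi_apply i) measurable_const
  have hsub2 : {z : Fin m → ℝ | 2 * b - x + 2 * δ < ∑ i, z i} ⊆ pa m b := fun z hz =>
    ⟨⟨m - 1, by omega⟩, by
      rw [last_eq hm]
      simp only [Set.mem_ofPred_eq] at hz
      linarith⟩
  set E : Set (Fin m → ℝ) := {z | 2 * b - x + 2 * δ < ∑ i, z i} ∩ {z | ∀ i, z i ≤ δ}
  have hE : MeasurableSet E := hS2.inter hD
  have h2 : μ.real (pa m b ∩ E) ≤ μ.real (pa m b ∩ {z | ∑ i, z i ≤ x}) := by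
    rw [real_pa b _ hE, real_pa b _ hS']
    refine Finset.sum_le_sum fun k _ => ?_
    have h3 : fp b k ∩ E ⊆ rf k ⁻¹' (fp b k ∩ {z | ∑ i, z i ≤ x}) := by
      rintro z ⟨hz, hz1, hz2⟩
      refine ⟨rf_fp b k z hz, ?_⟩
      simp only [Set.mem_ofPred_eq] at hz1 hz2 ⊢
      rw [sum_rf]
      have h4 : ps k z ≤ b + δ := by
        rcases Nat.eq_zero_or_pos k.1 with h0 | h0
        · have : Finset.Iic k = {k} := by
            ext i
            simp only [Finset.mem_Iic, Finset.mem_singleton]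
            constructor
            · intro hi; exact Fin.ext (by have := Fin.le_def.1 hi; omega)
            · intro hi; rw [hi]
          unfold ps
          rw [this, Finset.sum_singleton]
          have := hz2 k
          linarith
        · have hk1 : k.1 - 1 < m := by omega
          have h5 := hz.2 ⟨k.1 - 1, hk1⟩ (Fin.lt_def.2 (by simp; omega))
          have h6 : Finset.Iic k = insert k (Finset.Iic (⟨k.1 - 1, hk1⟩ : Fin m)) := by
            ext i
            simp only [Finset.mem_Iic, Finset.mem_insert, Fin.le_def, Fin.ext_iff]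
            omega
          have h7 : ps k z = z k + ps ⟨k.1 - 1, hk1⟩ z := by
            unfold ps
            rw [h6, Finset.sum_insert]
            simp only [Finset.mem_Iic, Fin.le_def]
            omega
          have := hz2 k
          linarith
      linarith
    calc μ.real (fp b k ∩ E)
        ≤ μ.real (rf k ⁻¹' (fp b k ∩ {z | ∑ i, z i ≤ x})) := measureReal_mono h3
      _ = μ.real (fp b k ∩ {z | ∑ i, z i ≤ x}) :=
        (mp_rf k).measureReal_preimage ((ms_fp b k).inter hS').nullMeasurableSet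
  have h8 : μ.real {z | 2 * b - x + 2 * δ < ∑ i, z i} ≤
      μ.real (pa m b ∩ E) + μ.real {z | ∃ i, δ < z i} := by
    refine (measureReal_mono ?_).trans (measureReal_union_le _ _)
    intro z hz
    by_cases h : ∃ i, δ < z i
    · exact Or.inr h
    · refine Or.inl ⟨hsub2 hz, hz, ?_⟩
      push Not at h
      exact h
  linarith

lemma pr_gauss_x (a : ℝ) :
    (gaussianReal 0 (Real.toNNReal (1 / 2))).real (Set.Ioi a) = (1 - erf a) / 2 := by
  have hv : Real.toNNReal (1 / 2) ≠ 0 := by
    have : (0 : ℝ) < 1 / 2 := by norm_num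
    exact (Real.toNNReal_pos.2 this).ne'
  rw [measureReal_def, gaussianReal_apply_eq_integral _ hv, ENNReal.toReal_ofReal
    (setIntegral_nonneg measurableSet_Ioi fun x _ => gaussianPDFReal_nonneg _ _ _)]
  have h1 : ∀ x : ℝ, gaussianPDFReal 0 (Real.toNNReal (1 / 2)) x =
      (Real.sqrt Real.pi)⁻¹ * Real.exp (-x ^ 2) := by
    intro x
    unfold gaussianPDFReal
    rw [Real.coe_toNNReal _ (by norm_num)]
    congr 2
    · congr 1; ring
    · congr 1; ring
  simp_rw [h1]
  rw [integral_const_mul]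
  have hint : Integrable (fun x : ℝ => Real.exp (-x ^ 2)) := by
    have := integrable_exp_neg_mul_sq (b := 1) one_pos
    simpa using this
  have h2 : (∫ x in (0 : ℝ)..a, Real.exp (-x ^ 2)) + ∫ x in Set.Ioi a, Real.exp (-x ^ 2) =
      ∫ x in Set.Ioi (0 : ℝ), Real.exp (-x ^ 2) :=
    intervalIntegral.integral_interval_add_Ioi hint.integrableOn hint.integrableOn
  have h3 : ∫ x in Set.Ioi (0 : ℝ), Real.exp (-x ^ 2) = Real.sqrt Real.pi / 2 := by
    have := integral_gaussian_Ioi 1
    simpa using this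
  unfold erf
  have hp : 0 < Real.sqrt Real.pi := Real.sqrt_pos.2 Real.pi_pos
  have h4 : ∫ x in Set.Ioi a, Real.exp (-x ^ 2) =
      Real.sqrt Real.pi / 2 - ∫ x in (0 : ℝ)..a, Real.exp (-x ^ 2) := by linarith
  rw [h4]
  field_simp

lemma erf_odd (a : ℝ) : erf (-a) = -erf a := by
  unfold erf
  have h1 : ∫ x in (0 : ℝ)..(-a), Real.exp (-x ^ 2) = -∫ x in (0 : ℝ)..a, Real.exp (-x ^ 2) := by
    have h2 : ∫ x in (0 : ℝ)..a, Real.exp (-(-x) ^ 2) = ∫ x in (-a)..(-0), Real.exp (-x ^ 2) :=
      intervalIntegral.integral_comp_neg (fun x : ℝ => Real.exp (-x ^ 2))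
    simp only [neg_sq, neg_zero] at h2
    rw [h2, intervalIntegral.integral_symm]
  rw [h1]
  ring

/-- the probability with the end point -/
lemma gam2_eq {m : ℕ} (b x : ℝ) : gam2 m b x =
    1 - (gm m (Fin m)).real {z | x < ∑ i, z i} - (gm m (Fin m)).real (pa m b ∩ {z | ∑ i, z i ≤ x}) := by
  have hS : MeasurableSet {z : Fin m → ℝ | ∑ i, z i ≤ x} := measurableSet_le ms_sum measurable_const
  have hS2 : MeasurableSet {z : Fin m → ℝ | x < ∑ i, z i} := measurableSet_lt measurable_const ms_sum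
  have h1 : {z : Fin m → ℝ | (∀ k : Fin m, ∑ i ∈ Finset.Iic k, z i ≤ b) ∧ ∑ i, z i ≤ x} =
      {z | ∑ i, z i ≤ x} \ pa m b := by
    ext z
    simp only [pa, ps, Set.mem_ofPred_eq, Set.mem_sdiff, not_exists, not_lt]
    tauto
  unfold gam2
  rw [h1]
  have h2 := measureReal_inter_add_sdiff (μ := gm m (Fin m)) (s := {z | ∑ i, z i ≤ x}) (ms_pa m b)
  have h3 : {z : Fin m → ℝ | ∑ i, z i ≤ x} = {z | x < ∑ i, z i}ᶜ := by
    ext z
    simp
  have h4 : (gm m (Fin m)).real {z | ∑ i, z i ≤ x} = 1 - (gm m (Fin m)).real {z | x < ∑ i, z i} := by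
    rw [h3, probReal_compl_eq_one_sub hS2]
  rw [Set.inter_comm] at h2
  linarith

theorem t_LVx : J_LVx := by
  intro b x hb
  rcases le_total b x with hbx | hxb
  · -- the end point is no restriction
    have h1 : GX b x = erf b := by
      unfold GX
      rw [min_eq_right hbx, show b - 2 * b = -b by ring, erf_odd]
      ring
    rw [h1]
    refine (t_LV b hb).congr' ?_
    filter_upwards [eventually_ge_atTop 1] with m hm
    unfold gam gam2
    congr 1
    ext z
    simp only [Set.mem_ofPred_eq]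
    constructor
    · intro h
      refine ⟨h, ?_⟩
      have := h ⟨m - 1, by omega⟩
      have h2 := last_eq (by omega : 0 < m) z
      unfold ps at h2
      rw [h2] at this
      linarith
    · exact fun h => h.1
  · rw [Metric.tendsto_atTop]
    intro ε hε
    have hbx' : 0 < 2 * b - x := by linarith
    -- continuity of erf
    obtain ⟨δ, hδ, hc⟩ : ∃ δ : ℝ, 0 < δ ∧ |erf (2 * b - x + 2 * δ) - erf (2 * b - x)| < ε := by
      have h := (erf_cont.tendsto (2 * b - x))
      rw [Metric.tendsto_nhds_nhds] at h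
      obtain ⟨r, hr, h⟩ := h ε hε
      refine ⟨r / 4, by positivity, ?_⟩
      have := @h (2 * b - x + 2 * (r / 4)) (by
        rw [Real.dist_eq]
        have : 2 * b - x + 2 * (r / 4) - (2 * b - x) = r / 2 := by ring
        rw [this, abs_of_pos (by positivity)]
        linarith)
      rwa [Real.dist_eq] at this
    have h1 := (lim_inc δ hδ)
    rw [Metric.tendsto_atTop] at h1
    obtain ⟨N, hN⟩ := h1 (ε / 2) (by positivity)
    refine ⟨max N 1, fun m hm => ?_⟩
    have hm0 : 0 < m := lt_of_lt_of_le one_pos (le_trans (le_max_right _ _) hm)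
    have hmN : N ≤ m := le_trans (le_max_left _ _) hm
    have h2 := hN m hmN
    rw [Real.dist_eq, sub_zero, abs_of_nonneg (by positivity)] at h2
    have h3 := pr_inc hm0 δ hδ
    have h4 := upper_x (m := m) b x
    have h5 := lower_x hm0 b x δ hb hxb hδ
    rw [pr_sum hm0, pr_gauss_x] at h4 h5
    rw [Real.dist_eq, gam2_eq, pr_sum hm0, pr_gauss_x, abs_lt]
    unfold GX
    rw [min_eq_left hxb, show x - 2 * b = -(2 * b - x) by ring, erf_odd]
    rw [abs_lt] at hc
    constructor
    · linarith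
    · linarith

end

end Pool.Agent.Q151.EW
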