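import Pool.Agent.Q16.EW.P
import Pool.Agent.Q80.EW.Stm6

/-! Project EWX of helper80, jobs P1x and P2x: the law of the walk with the end point
(adapted from the proofs of P1 and P2 by helper16). -/

set_option autoImplicit false

namespace Pool.Agent.Q151.EW

open Filter Topology MeasureTheory Finset
open Pool.Agent.Q80.EW Pool.Agent.Q16.EW

theorem WKTS_set (T : ℝ) (m : ℕ) (b x h : ℝ) :
    MeasurableSet {t : ℝ | WK T m b (t + h) ∧ TS T m x (t + h)} := by
  have hc : IsClosed {t : ℝ | ∑ i : Fin m, De T m i (t + h) ≤ x} := by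
    refine isClosed_le (continuous_finsetSum _ fun i _ => ?_) continuous_const
    exact (De_cont T m i).comp (continuous_id.add continuous_const)
  exact (WK_set T m b h).inter hc.measurableSet

/-- P1x -/
theorem t_P1x (hFF : J_FF) (hG1 : J_G1) (hCL : J_CL) (hLV2 : J_LV2x) : J_P1x := by
  intro η m b x hη hη1 hm
  obtain ⟨l1, l2, -, -, -⟩ := hLV2 m b x hm
  have hff := hFF η hη hη1
  have hN := ev_Nt hη1
  let N : ℝ → ℝ := fun T => 2 * T * nm (dd η T)
  have hev : ∀ᶠ T : ℝ in atTop, 0 < T ∧ FS ⌊T ^ (1 / 2 - η)⌋₊ (dd η T) ∧ 0 < N T := by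
    filter_upwards [hff, hN, eventually_gt_atTop (0 : ℝ)] with T h1 h2 h3
    refine ⟨h3, h1.1, ?_⟩
    have := nm_ge_one h1.1 (dd_one h2)
    show 0 < 2 * T * nm (dd η T)
    positivity
  have hNE : ∀ T, MeasurableSet {t : ℝ | NE T m t} := by
    intro T
    have := (NE_closed T m 0).measurableSet
    simpa using this
  have key := hCL ℝ ℝ (Fin m) atTop (fun T => Ms T (3 * T) (N T) {t | NE T m t} (fun t => ‖Dp η T t‖ ^ 2))
    (fun T i t => De T m i t) m hm ?_ ?_ ?_ {z : Fin m → ℝ | (∀ k : Fin m, ∑ i ∈ Finset.Iic k, z i ≤ b) ∧ ∑ i, z i ≤ x} l1 l2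
  · refine Tendsto.congr' ?_ key
    filter_upwards [hev] with T hT
    obtain ⟨h1, h2, h3⟩ := hT
    have hc : Continuous fun t => ‖Dp η T t‖ ^ 2 := (dp_cont h2).norm.pow 2
    have hA : MeasurableSet {t : ℝ | WK T m b t ∧ TS T m x t} := by
      have := WKTS_set T m b x 0
      simpa using this
    show (Ms T (3 * T) (N T) {t | NE T m t} (fun t => ‖Dp η T t‖ ^ 2)).real {t : ℝ | WK T m b t ∧ TS T m x t} = _
    rw [Ms_real (by linarith) h3 (hNE T) hc (fun t => by positivity) hA]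
    rfl
  · filter_upwards [hev] with T hT
    exact Ms_fin (hNE T) ((dp_cont hT.2.1).norm.pow 2)
  · exact Eventually.of_forall fun T j => (De_cont T m j).measurable
  · intro u
    constructor
    · filter_upwards [hev] with T hT
      refine Ms_integrable (hNE T) ((dp_cont hT.2.1).norm.pow 2) ?_
      exact Real.continuous_exp.comp (continuous_finsetSum _ fun i _ => continuous_const.mul (De_cont T m i))
    · refine Tendsto.congr' ?_ (hG1 η m u hη hη1 hm)
      filter_upwards [hev] with T hT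
      obtain ⟨h1, h2, h3⟩ := hT
      have hc : Continuous fun t => ‖Dp η T t‖ ^ 2 := (dp_cont h2).norm.pow 2
      rw [Ms_int (by linarith) h3 (hNE T) hc (fun t => by positivity)]

/-- P2x -/
theorem t_P2x (hFF : J_FF) (hG2 : J_G2) (hCL : J_CL) (hLV2 : J_LV2x) (hM2 : J_M2) : J_P2x := by
  intro η m b x0 K ε hη hη1 hm hε
  obtain ⟨-, -, l3, l4, l5⟩ := hLV2 m b x0 hm
  have hff := hFF η hη hη1
  have hN := ev_Nt hη1
  let N : ℝ × ℝ → ℝ := fun x => 2 * x.1 * nm (dd η x.1 * sh x.2 (dd η x.1))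
  have hev0 : ∀ᶠ T : ℝ in atTop, ∀ h : ℝ, 0 < T ∧ FS ⌊T ^ (1 / 2 - η)⌋₊ (dd η T) ∧ 0 < N (T, h) := by
    filter_upwards [hff, hN, eventually_gt_atTop (0 : ℝ)] with T h1 h2 h3 h
    refine ⟨h3, h1.1, ?_⟩
    have h4 : (dd η T * sh h (dd η T)) 1 = 1 := by rw [mul_one', sh_one', dd_one h2, one_mul]
    have := nm_ge_one (FS_mul h1.1 (FS_sh h h1.1)) h4
    show 0 < 2 * T * nm (dd η T * sh h (dd η T))
    positivity
  have hev : ∀ᶠ x in lK K, 0 < x.1 ∧ FS ⌊x.1 ^ (1 / 2 - η)⌋₊ (dd η x.1) ∧ 0 < N x := by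
    rw [lK_ev]
    filter_upwards [hev0] with T hT h _ _
    exact hT h
  have hNE : ∀ T h, MeasurableSet {t : ℝ | NE T m t ∧ NE T m (t + h)} := fun T h => (Gs_closed T m h).measurableSet
  have hco : ∀ (T h : ℝ), FS ⌊T ^ (1 / 2 - η)⌋₊ (dd η T) →
      Continuous fun t => ‖Dp η T t‖ ^ 2 * ‖Dp η T (t + h)‖ ^ 2 := fun T h hh =>
    ((dp_cont hh).norm.pow 2).mul (((dp_cont hh).comp (continuous_id.add continuous_const)).norm.pow 2)
  have key := hCL (ℝ × ℝ) ℝ (Fin m ⊕ Fin m) (lK K) (fun x => Ms x.1 (3 * x.1) (N x)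
      {t | NE x.1 m t ∧ NE x.1 m (t + x.2)} (fun t => ‖Dp η x.1 t‖ ^ 2 * ‖Dp η x.1 (t + x.2)‖ ^ 2))
    (fun x j t => Sum.elim (fun i => De x.1 m i t) (fun i => De x.1 m i (t + x.2)) j) m hm ?_ ?_ ?_
    {z : Fin m ⊕ Fin m → ℝ |
    ((∀ k : Fin m, ∑ i ∈ Finset.Iic k, z (Sum.inl i) ≤ b) ∧ ∑ i, z (Sum.inl i) ≤ x0) ∧
    ((∀ k : Fin m, ∑ i ∈ Finset.Iic k, z (Sum.inr i) ≤ b) ∧ ∑ i, z (Sum.inr i) ≤ x0)} l3 l4
  · rw [l5] at key
    set G := gam2 m b x0 ^ 2 with hG
    have hG0 : 0 ≤ G := by positivity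
    have h1 : ∀ᶠ x in lK K, _ := key.eventually (ge_mem_nhds (show G < G + ε / 2 by linarith))
    have h2 := h1.and hev
    rw [lK_ev] at h2
    set ε' : ℝ := (ε / 2) / (G + ε / 2) with hε'
    have hε'0 : 0 < ε' := by positivity
    have h3 := hM2 η K ε' hη hη1 hε'0
    filter_upwards [h2, h3] with T hT hT' h hh1 hh2
    obtain ⟨h4, h5, h6, h7⟩ := hT h hh1 hh2
    have h8 := hT' h hh1 hh2
    have hA : MeasurableSet {t : ℝ | (WK T m b t ∧ TS T m x0 t) ∧
        (WK T m b (t + h) ∧ TS T m x0 (t + h))} := by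
      have a1 := WKTS_set T m b x0 0
      simp only [add_zero] at a1
      exact a1.inter (WKTS_set T m b x0 h)
    have h4' : (Ms T (3 * T) (N (T, h)) {t | NE T m t ∧ NE T m (t + h)}
        (fun t => ‖Dp η T t‖ ^ 2 * ‖Dp η T (t + h)‖ ^ 2)).real {t : ℝ | (WK T m b t ∧ TS T m x0 t) ∧ (WK T m b (t + h) ∧ TS T m x0 (t + h))} ≤
        G + ε / 2 := h4
    rw [Ms_real (by linarith) h7 (hNE T h) (hco T h h6) (fun t => by positivity) hA, div_le_iff₀ h7] at h4'
    have e2 : {t : ℝ | NE T m t ∧ NE T m (t + h)} ∩ {t : ℝ | (WK T m b t ∧ TS T m x0 t) ∧ (WK T m b (t + h) ∧ TS T m x0 (t + h))} =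
        {t | (NE T m t ∧ (WK T m b t ∧ TS T m x0 t)) ∧
          (NE T m (t + h) ∧ (WK T m b (t + h) ∧ TS T m x0 (t + h)))} := by
      ext t
      simp only [Set.mem_inter_iff, Set.mem_ofPred_eq]
      tauto
    rw [e2] at h4'
    refine h4'.trans ?_
    show (G + ε / 2) * (2 * T * nm (dd η T * sh h (dd η T))) ≤ _
    have h9 : (G + ε / 2) * (2 * T * nm (dd η T * sh h (dd η T))) ≤
        (G + ε / 2) * (2 * T * ((1 + ε') * ((1 / 2 - 2 * η) * Real.log T) ^ 2 * Corr (Yt T) h)) := by gcongr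
    refine h9.trans (le_of_eq ?_)
    have h10 : (G + ε / 2) * (1 + ε') = G + ε := by
      rw [hε']
      field_simp
      ring
    linear_combination (2 * T * ((1 / 2 - 2 * η) * Real.log T) ^ 2 * Corr (Yt T) h) * h10
  · filter_upwards [hev] with x hx
    exact Ms_fin (hNE x.1 x.2) (hco _ _ hx.2.1)
  · refine Eventually.of_forall fun x j => ?_
    rcases j with i | i
    · exact (De_cont x.1 m i).measurable
    · exact ((De_cont x.1 m i).comp (continuous_id.add continuous_const)).measurable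
  · intro u
    have hs : ∀ (x : ℝ × ℝ) (t : ℝ), ∑ j, u j * Sum.elim (fun i => De x.1 m i t) (fun i => De x.1 m i (t + x.2)) j =
        ∑ i, u (Sum.inl i) * De x.1 m i t + ∑ i, u (Sum.inr i) * De x.1 m i (t + x.2) := by
      intro x t
      rw [Fintype.sum_sum_type]
      rfl
    constructor
    · filter_upwards [hev] with x hx
      refine Ms_integrable (hNE x.1 x.2) (hco _ _ hx.2.1) ?_
      simp_rw [hs]
      refine Real.continuous_exp.comp (Continuous.add ?_ ?_)
      · exact continuous_finsetSum _ fun i _ => continuous_const.mul (De_cont x.1 m i)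
      · exact continuous_finsetSum _ fun i _ => continuous_const.mul
          ((De_cont x.1 m i).comp (continuous_id.add continuous_const))
    · have h1 := hG2 η m (fun i => u (Sum.inl i)) (fun i => u (Sum.inr i)) K hη hη1 hm
      rw [Fintype.sum_sum_type]
      refine Tendsto.congr' ?_ h1
      filter_upwards [hev] with x hx
      rw [Ms_int (by linarith [hx.1]) hx.2.2 (hNE x.1 x.2) (hco _ _ hx.2.1) (fun t => by positivity)]
      simp_rw [hs]
      rfl

end Pool.Agent.Q151.EW
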